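import Pool.Agent.Lib.MP_10e784_ag.EL.ELDefs

/-! JOB ELBox.  A cube of integral elements of controlled norm.

Let `b = RingOfIntegers.basis K`, `n = finrank ℚ K`, `C1` a natural number with `∑_i ‖σ (b i)‖ ≤ C1` for all `σ : K →+* ℂ` (finitely many), `κ = C1 + 1`, `B = κ + C1`.
For `α = κ h + al K y`, `0 ≤ y i < h`: `‖σ α - κ h‖ ≤ ∑ y_i ‖σ (b i)‖ ≤ C1 h`, so `h ≤ ‖σ α‖ ≤ B h`.
`|N α| = ∏_σ ‖σ α‖` (`Algebra.norm_eq_prod_embeddings`, `Algebra.coe_norm_int`; there are `n` embeddings), hence `h ^ n ≤ |N α| ≤ (B h) ^ n`. -/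

namespace EL

open NumberField Finset

private theorem elbox_norm {K : Type} [Field K] [NumberField K] (α : 𝓞 K) :
    (((Algebra.norm ℤ α).natAbs : ℕ) : ℝ) = ∏ σ : K →ₐ[ℚ] ℂ, ‖σ (α : K)‖ := by
  have h1 := Algebra.norm_eq_prod_embeddings ℚ ℂ (α : K)
  have h2 : (Algebra.norm ℚ (α : K) : ℚ) = ((Algebra.norm ℤ α : ℤ) : ℚ) := (Algebra.coe_norm_int α).symm
  rw [h2] at h1
  have h3 : ‖(algebraMap ℚ ℂ) (((Algebra.norm ℤ α : ℤ) : ℚ))‖ = (((Algebra.norm ℤ α).natAbs : ℕ) : ℝ) := by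
    rw [map_intCast, Complex.norm_intCast, Nat.cast_natAbs, Int.cast_abs]
  rw [← h3, h1, norm_prod]

theorem box (K : Type) [Field K] [NumberField K] :
    ∃ κ B : ℕ, 1 ≤ B ∧ ∀ h : ℕ, 1 ≤ h → ∀ y : Ix K → ℕ, (∀ i, y i < h) →
      h ^ Module.finrank ℚ K ≤ (Algebra.norm ℤ (((κ * h : ℕ) : 𝓞 K) + al K y)).natAbs ∧
      (Algebra.norm ℤ (((κ * h : ℕ) : 𝓞 K) + al K y)).natAbs ≤ (B * h) ^ Module.finrank ℚ K := by
  classical
  set C0 : ℝ := ∑ σ : K →ₐ[ℚ] ℂ, ∑ i : Ix K, ‖σ ((RingOfIntegers.basis K i : 𝓞 K) : K)‖ with hC0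
  set C1 : ℕ := ⌈C0⌉₊ with hC1
  have hle : ∀ σ : K →ₐ[ℚ] ℂ, ∑ i : Ix K, ‖σ ((RingOfIntegers.basis K i : 𝓞 K) : K)‖ ≤ C1 := by
    intro σ
    refine le_trans ?_ (Nat.le_ceil C0)
    exact Finset.single_le_sum (f := fun σ : K →ₐ[ℚ] ℂ => ∑ i : Ix K, ‖σ ((RingOfIntegers.basis K i : 𝓞 K) : K)‖)
      (fun _ _ => Finset.sum_nonneg fun _ _ => norm_nonneg _) (mem_univ σ)
  refine ⟨C1 + 1, C1 + 1 + C1, by omega, fun h hh y hy => ?_⟩
  set α : 𝓞 K := (((C1 + 1) * h : ℕ) : 𝓞 K) + al K y with hα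
  have hcard : (univ : Finset (K →ₐ[ℚ] ℂ)).card = Module.finrank ℚ K := by
    rw [Finset.card_univ, AlgHom.card ℚ K ℂ]
  have hσ : ∀ σ : K →ₐ[ℚ] ℂ, (h : ℝ) ≤ ‖σ (α : K)‖ ∧ ‖σ (α : K)‖ ≤ ((C1 + 1 + C1) * h : ℕ) := by
    intro σ
    have h1 : σ (α : K) = (((C1 + 1) * h : ℕ) : ℂ) + σ ((al K y : 𝓞 K) : K) := by
      rw [hα]
      push_cast
      simp
    have h2 : ‖σ ((al K y : 𝓞 K) : K)‖ ≤ C1 * h := by
      have h3 : σ ((al K y : 𝓞 K) : K) = ∑ i, (y i : ℂ) * σ ((RingOfIntegers.basis K i : 𝓞 K) : K) := by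
        unfold al
        rw [RingOfIntegers.coe_eq_algebraMap, map_sum, map_sum]
        refine Finset.sum_congr rfl fun i _ => ?_
        rw [map_mul, map_mul, map_natCast, map_natCast]
      rw [h3]
      refine (norm_sum_le _ _).trans ?_
      calc ∑ i, ‖(y i : ℂ) * σ ((RingOfIntegers.basis K i : 𝓞 K) : K)‖
          ≤ ∑ i, (h : ℝ) * ‖σ ((RingOfIntegers.basis K i : 𝓞 K) : K)‖ := by
            refine Finset.sum_le_sum fun i _ => ?_
            rw [norm_mul, Complex.norm_natCast]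
            exact mul_le_mul_of_nonneg_right (by exact_mod_cast (hy i).le) (norm_nonneg _)
        _ = h * ∑ i, ‖σ ((RingOfIntegers.basis K i : 𝓞 K) : K)‖ := by rw [Finset.mul_sum]
        _ ≤ h * C1 := mul_le_mul_of_nonneg_left (hle σ) (Nat.cast_nonneg h)
        _ = C1 * h := mul_comm _ _
    have h4 : ‖(((C1 + 1) * h : ℕ) : ℂ)‖ = ((C1 + 1) * h : ℕ) := Complex.norm_natCast _
    rw [h1]
    constructor
    · have h5 := norm_sub_le (((((C1 + 1) * h : ℕ) : ℂ)) + σ ((al K y : 𝓞 K) : K)) (σ ((al K y : 𝓞 K) : K))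
      rw [add_sub_cancel_right, h4] at h5
      push_cast at h5 ⊢
      linarith
    · refine (norm_add_le _ _).trans ?_
      rw [h4]
      push_cast
      linarith
  have hN := elbox_norm α
  constructor
  · have h1 : ((h ^ Module.finrank ℚ K : ℕ) : ℝ) ≤ (((Algebra.norm ℤ α).natAbs : ℕ) : ℝ) := by
      rw [hN]
      push_cast
      rw [← hcard, ← Finset.prod_const]
      exact Finset.prod_le_prod (fun _ _ => Nat.cast_nonneg h) fun σ _ => (hσ σ).1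
    exact_mod_cast h1
  · have h1 : (((Algebra.norm ℤ α).natAbs : ℕ) : ℝ) ≤ ((((C1 + 1 + C1) * h) ^ Module.finrank ℚ K : ℕ) : ℝ) := by
      rw [hN]
      rw [Nat.cast_pow, ← hcard, ← Finset.prod_const]
      exact Finset.prod_le_prod (fun _ _ => norm_nonneg _) fun σ _ => (hσ σ).2
    exact_mod_cast h1

end EL
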