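import Pool.Agent.Lib.MP_10e784_ag.EL.ELDefs
import Pool.Agent.Lib.MP_10e784_ag.PT.PTAbove
import Pool.Agent.Lib.MP_10e784_ag.PT.PTSplit

/-! JOB ELChe.  Chebyshev type upper bounds for prime ideals.

Every `P ∈ PP K x` contains exactly one rational prime `p`, `absNorm P = p ^ f` with `1 ≤ f ≤ n = finrank ℚ K` (e.g. `absNorm P ∣ absNorm (span {p}) = p ^ n`), and for every `p` at most `n` prime ideals contain `p` (`PT.primes_above_le`).
For a prime power `q = p ^ j` (`j ≥ 1`) at most `n` pairs `(P, k)`, `k ≥ 1`, have `absNorm P ^ k = q` (`P ∋ p`, and `P` determines `k`), and `log (absNorm P) ≤ n log p`.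
`che_a`: the sum is `≤ n * n ∑_{q ≤ x} Λ(q) q ^ (1/n - 1)` (sum over prime powers, `Λ = ArithmeticFunction.vonMangoldt`; group the pairs by `q = absNorm P ^ k`).  `ψ(y) = ∑_{m ≤ y} Λ m ≤ c y` (`Chebyshev.psi_le_const_mul_self`).  With `β = 1 - 1/n ∈ [0, 1)`: dyadic blocks `2 ^ i < m ≤ 2 ^ (i+1)`, `i ≤ log₂ x`: `∑ Λ(m) m ^ (-β) ≤ 2 ^ (-i β) ψ(2 ^ (i+1)) ≤ 2 c 2 ^ (i / n)`, a geometric series with sum `≤ A x ^ (1/n)`.  (Or Abel summation.)
`che_b`: the pairs with `k ≥ 2` or `absNorm P` not prime have `absNorm P ^ k = p ^ j` with `j ≥ 2`: the sum is `≤ n * n ∑_p ∑_{j ≥ 2} log p / p ^ j ≤ 2 n ^ 2 ∑_p log p / p ^ 2 * ...` bounded by a constant (`∑_{j ≥ 2} p ^ (-j) ≤ 2 p ^ (-2)`, `log p ≤ p ^ (1/2) * 2`, `∑ p ^ (-3/2)` converges). -/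

namespace EL

open NumberField Finset

private theorem elche_prime (K : Type) [Field K] [NumberField K] (P : Ideal (𝓞 K)) (hP : P.IsPrime) (hb : P ≠ ⊥) :
    ∃ p f : ℕ, p.Prime ∧ (p : 𝓞 K) ∈ P ∧ 1 ≤ f ∧ f ≤ Module.finrank ℚ K ∧ Ideal.absNorm P = p ^ f := by
  obtain ⟨p, hp, hpP, -⟩ := PT.ptsplit_char K P hP hb
  have h1 : ((Ideal.absNorm P : ℕ) : ℤ) ∣ Algebra.norm ℤ ((p : 𝓞 K)) := Ideal.absNorm_dvd_norm_of_mem hpP
  have h2 : Algebra.norm ℤ ((p : 𝓞 K)) = (p : ℤ) ^ (Module.finrank ℚ K) := by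
    have h3 := Algebra.norm_algebraMap (S := 𝓞 K) (p : ℤ)
    rw [RingOfIntegers.rank K] at h3
    rw [← h3]
    congr 1
    simp
  rw [h2] at h1
  have h4 : Ideal.absNorm P ∣ p ^ (Module.finrank ℚ K) := by exact_mod_cast h1
  obtain ⟨f, hf, hf2⟩ := (Nat.dvd_prime_pow hp).1 h4
  refine ⟨p, f, hp, hpP, ?_, hf, hf2⟩
  by_contra hcon
  have hf0 : f = 0 := by omega
  rw [hf0, pow_zero] at hf2
  exact hP.ne_top (Ideal.absNorm_eq_one_iff.1 hf2)

private theorem elche_two (K : Type) [Field K] [NumberField K] (P : Ideal (𝓞 K)) (hP : P.IsPrime) (hb : P ≠ ⊥) :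
    2 ≤ Ideal.absNorm P := by
  obtain ⟨p, f, hp, -, hf, -, h⟩ := elche_prime K P hP hb
  rw [h]
  calc 2 ≤ p := hp.two_le
    _ = p ^ 1 := (pow_one p).symm
    _ ≤ p ^ f := Nat.pow_le_pow_right hp.pos hf

private theorem elche_log (K : Type) [Field K] [NumberField K] (P : Ideal (𝓞 K)) (hP : P.IsPrime) (hb : P ≠ ⊥)
    {k : ℕ} (hk : 1 ≤ k) :
    Real.log (Ideal.absNorm P : ℕ) ≤
      Module.finrank ℚ K * ArithmeticFunction.vonMangoldt ((Ideal.absNorm P) ^ k) := by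
  obtain ⟨p, f, hp, -, hf, hfn, h⟩ := elche_prime K P hP hb
  have h1 : ArithmeticFunction.vonMangoldt ((Ideal.absNorm P) ^ k) = Real.log p := by
    rw [ArithmeticFunction.vonMangoldt_apply_pow (by omega), h,
      ArithmeticFunction.vonMangoldt_apply_pow (by omega), ArithmeticFunction.vonMangoldt_apply_prime hp]
  rw [h1, h]
  push_cast
  rw [Real.log_pow]
  have h2 : 0 ≤ Real.log (p : ℝ) := Real.log_natCast_nonneg p
  have h3 : (f : ℝ) ≤ Module.finrank ℚ K := by exact_mod_cast hfn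
  exact mul_le_mul_of_nonneg_right h3 h2

private theorem elche_group (K : Type) [Field K] [NumberField K] (s : Finset (Ideal (𝓞 K) × ℕ))
    (hs : ∀ z ∈ s, z.1.IsPrime ∧ z.1 ≠ ⊥ ∧ 1 ≤ z.2) (c : ℕ → ℝ) (hc : ∀ q, 0 ≤ c q) (t : Finset ℕ)
    (ht : ∀ z ∈ s, (Ideal.absNorm z.1) ^ z.2 ∈ t) :
    ∑ z ∈ s, c ((Ideal.absNorm z.1) ^ z.2) ≤ Module.finrank ℚ K * ∑ q ∈ t, c q := by
  classical
  rw [← Finset.sum_fiberwise_of_maps_to ht, Finset.mul_sum]
  refine Finset.sum_le_sum fun q _ => ?_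
  have h1 : ∑ z ∈ s.filter (fun z => (Ideal.absNorm z.1) ^ z.2 = q), c ((Ideal.absNorm z.1) ^ z.2) =
      ((s.filter (fun z => (Ideal.absNorm z.1) ^ z.2 = q)).card : ℝ) * c q := by
    rw [Finset.sum_congr rfl (g := fun _ => c q) (fun z hz => by rw [(Finset.mem_filter.1 hz).2]),
      Finset.sum_const, nsmul_eq_mul]
  rw [h1]
  refine mul_le_mul_of_nonneg_right ?_ (hc q)
  rcases (s.filter (fun z => (Ideal.absNorm z.1) ^ z.2 = q)).eq_empty_or_nonempty with he | ⟨z0, hz0⟩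
  · rw [he]; simp
  · obtain ⟨hz0s, hz0q⟩ := Finset.mem_filter.1 hz0
    obtain ⟨hP0, hb0, hk0⟩ := hs z0 hz0s
    obtain ⟨p, f, hp, -, hf, -, hN⟩ := elche_prime K z0.1 hP0 hb0
    have hpq : ∀ z ∈ s.filter (fun z => (Ideal.absNorm z.1) ^ z.2 = q), (p : 𝓞 K) ∈ z.1 := by
      intro z hz
      obtain ⟨hzs, hzq⟩ := Finset.mem_filter.1 hz
      obtain ⟨hP1, hb1, hk1⟩ := hs z hzs
      obtain ⟨p1, f1, hp1, hpP1, hf1, -, hN1⟩ := elche_prime K z.1 hP1 hb1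
      have h2 : p ∣ q := by
        rw [← hz0q, hN, ← pow_mul]
        exact dvd_pow_self p (by positivity)
      rw [← hzq, hN1, ← pow_mul] at h2
      have h3 := (Nat.prime_dvd_prime_iff_eq hp hp1).1 (hp.dvd_of_dvd_pow h2)
      rw [h3]; exact hpP1
    have hinj : Set.InjOn (fun z : Ideal (𝓞 K) × ℕ => z.1)
        (s.filter (fun z => (Ideal.absNorm z.1) ^ z.2 = q) : Finset (Ideal (𝓞 K) × ℕ)) := by
      intro z hz w hw hzw
      obtain ⟨hzs, hzq⟩ := Finset.mem_filter.1 (Finset.mem_coe.1 hz)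
      obtain ⟨hws, hwq⟩ := Finset.mem_filter.1 (Finset.mem_coe.1 hw)
      obtain ⟨hP1, hb1, hk1⟩ := hs z hzs
      have h2 := elche_two K z.1 hP1 hb1
      have h3 : z.1 = w.1 := hzw
      refine Prod.ext h3 ?_
      rw [← h3, ← hzq] at hwq
      exact (Nat.pow_right_injective h2 hwq).symm
    have h4 := PT.primes_above_le K p hp
      ((s.filter (fun z => (Ideal.absNorm z.1) ^ z.2 = q)).image (fun z => z.1)) (by
        intro P hP
        obtain ⟨z, hz, rfl⟩ := Finset.mem_image.1 hP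
        exact ⟨(hs z (Finset.mem_filter.1 hz).1).1, hpq z hz⟩)
    rw [Finset.card_image_of_injOn hinj] at h4
    exact_mod_cast h4

private theorem elche_cheb (α : ℝ) (h0 : 0 < α) (h1 : α ≤ 1) : ∃ A : ℝ, 0 < A ∧ ∀ y : ℝ, 0 < y →
    ∑ q ∈ Icc 1 ⌊y⌋₊, ArithmeticFunction.vonMangoldt q * ((q : ℝ) ^ α / q) ≤ A * y ^ α := by
  set c : ℝ := Real.log 4 + 4 with hc
  have hc0 : 0 < c := by
    have := Real.log_nonneg (show (1 : ℝ) ≤ 4 by norm_num)
    rw [hc]; linarith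
  have h2a : 1 < (2 : ℝ) ^ α := Real.one_lt_rpow (by norm_num) h0
  set A : ℝ := 2 * c / ((2 : ℝ) ^ α - 1) with hA
  have hA0 : 0 < A := div_pos (by linarith) (by linarith)
  have hAeq : A + 2 * c = A * (2 : ℝ) ^ α := by
    have h3 : A * ((2 : ℝ) ^ α - 1) = 2 * c := by
      rw [hA]
      exact div_mul_cancel₀ _ (by linarith)
    linarith
  refine ⟨A, hA0, ?_⟩
  have key : ∀ m : ℕ, ∀ y : ℝ, 0 < y → y ≤ 2 ^ m →
      ∑ q ∈ Icc 1 ⌊y⌋₊, ArithmeticFunction.vonMangoldt q * ((q : ℝ) ^ α / q) ≤ A * y ^ α := by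
    intro m
    induction m with
    | zero =>
      intro y hy0 hy1
      have h3 : ∑ q ∈ Icc 1 ⌊y⌋₊, ArithmeticFunction.vonMangoldt q * ((q : ℝ) ^ α / q) = 0 := by
        refine Finset.sum_eq_zero fun q hq => ?_
        have h4 := Finset.mem_Icc.1 hq
        have h5 : ⌊y⌋₊ ≤ 1 := by
          rw [pow_zero] at hy1
          calc ⌊y⌋₊ ≤ ⌊(1 : ℝ)⌋₊ := Nat.floor_le_floor hy1
            _ = 1 := Nat.floor_one
        have h6 : q = 1 := by omega
        rw [h6, ArithmeticFunction.vonMangoldt_apply_one, zero_mul]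
      rw [h3]
      positivity
    | succ m ih =>
      intro y hy0 hy1
      have hh0 : 0 < y / 2 := by positivity
      have ihy := ih (y / 2) hh0 (by rw [pow_succ] at hy1; linarith)
      have hfl : ⌊y / 2⌋₊ ≤ ⌊y⌋₊ := Nat.floor_le_floor (by linarith)
      have hsplit : Icc 1 ⌊y⌋₊ = Icc 1 ⌊y / 2⌋₊ ∪ Ioc ⌊y / 2⌋₊ ⌊y⌋₊ := by
        ext q
        simp only [Finset.mem_Icc, Finset.mem_union, Finset.mem_Ioc]
        omega
      have hdis : Disjoint (Icc 1 ⌊y / 2⌋₊) (Ioc ⌊y / 2⌋₊ ⌊y⌋₊) := by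
        rw [Finset.disjoint_left]
        intro q hq hq'
        have h4 := Finset.mem_Icc.1 hq
        have h5 := Finset.mem_Ioc.1 hq'
        omega
      rw [hsplit, Finset.sum_union hdis]
      have hb : ∑ q ∈ Ioc ⌊y / 2⌋₊ ⌊y⌋₊, ArithmeticFunction.vonMangoldt q * ((q : ℝ) ^ α / q) ≤
          (∑ q ∈ Ioc ⌊y / 2⌋₊ ⌊y⌋₊, ArithmeticFunction.vonMangoldt q) * (y / 2) ^ (α - 1) := by
        rw [Finset.sum_mul]
        refine Finset.sum_le_sum fun q hq => ?_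
        have h4 := Finset.mem_Ioc.1 hq
        have h5 : y / 2 < q := (Nat.floor_lt hh0.le).1 h4.1
        have h6 : (0 : ℝ) < q := lt_trans hh0 h5
        rw [← Real.rpow_sub_one h6.ne']
        exact mul_le_mul_of_nonneg_left (Real.rpow_le_rpow_of_nonpos hh0 h5.le (by linarith))
          ArithmeticFunction.vonMangoldt_nonneg
      have hpsi : ∑ q ∈ Ioc ⌊y / 2⌋₊ ⌊y⌋₊, ArithmeticFunction.vonMangoldt q ≤ c * y := by
        refine le_trans ?_ (Chebyshev.psi_le_const_mul_self hy0.le)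
        unfold Chebyshev.psi
        refine Finset.sum_le_sum_of_subset_of_nonneg ?_ (fun _ _ _ => ArithmeticFunction.vonMangoldt_nonneg)
        intro q hq
        have h4 := Finset.mem_Ioc.1 hq
        exact Finset.mem_Ioc.2 ⟨by omega, h4.2⟩
      have hpow : (y / 2) ^ (α - 1) * (y / 2) = (y / 2) ^ α := by
        rw [Real.rpow_sub_one hh0.ne']
        field_simp
      have hpow2 : y ^ α = (2 : ℝ) ^ α * (y / 2) ^ α := by
        rw [← Real.mul_rpow (by norm_num) hh0.le]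
        congr 1; ring
      have hp0 : 0 ≤ (y / 2) ^ (α - 1) := (Real.rpow_pos_of_pos hh0 _).le
      calc ∑ q ∈ Icc 1 ⌊y / 2⌋₊, ArithmeticFunction.vonMangoldt q * ((q : ℝ) ^ α / q) +
            ∑ q ∈ Ioc ⌊y / 2⌋₊ ⌊y⌋₊, ArithmeticFunction.vonMangoldt q * ((q : ℝ) ^ α / q)
          ≤ A * (y / 2) ^ α + (c * y) * (y / 2) ^ (α - 1) :=
            add_le_add ihy (hb.trans (mul_le_mul_of_nonneg_right hpsi hp0))
        _ = A * (y / 2) ^ α + 2 * c * ((y / 2) ^ (α - 1) * (y / 2)) := by ring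
        _ = (A + 2 * c) * (y / 2) ^ α := by rw [hpow]; ring
        _ = A * y ^ α := by rw [hAeq, hpow2]; ring
  intro y hy
  obtain ⟨m, hm⟩ := exists_nat_ge y
  refine key m y hy (hm.trans ?_)
  exact_mod_cast (Nat.lt_two_pow_self (n := m)).le

private noncomputable def elcheC (q : ℕ) : ℝ :=
  (if q.Prime then 0 else ArithmeticFunction.vonMangoldt q) / (q : ℝ)

private theorem elcheC_nonneg (q : ℕ) : 0 ≤ elcheC q := by
  unfold elcheC
  refine div_nonneg ?_ (Nat.cast_nonneg q)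
  split_ifs
  · exact le_rfl
  · exact ArithmeticFunction.vonMangoldt_nonneg

private theorem elcheC_of_not_prime {q : ℕ} (h : ¬ q.Prime) :
    elcheC q = ArithmeticFunction.vonMangoldt q / (q : ℝ) := by
  unfold elcheC
  rw [if_neg h]

private theorem elcheC_summable : Summable elcheC := by
  have h := ArithmeticFunction.vonMangoldt.summable_residueClass_non_primes_div (1 : ZMod 1)
  refine h.congr fun q => ?_
  have h1 : ArithmeticFunction.vonMangoldt.residueClass (1 : ZMod 1) q = ArithmeticFunction.vonMangoldt q := by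
    unfold ArithmeticFunction.vonMangoldt.residueClass
    rw [Set.indicator_of_mem]
    exact Subsingleton.elim _ _
  rw [h1]
  rfl

private theorem elche_groupT (K : Type) [Field K] [NumberField K] (s : Finset (Ideal (𝓞 K) × ℕ))
    (hs : ∀ z ∈ s, z.1.IsPrime ∧ z.1 ≠ ⊥ ∧ 1 ≤ z.2) :
    ∑ z ∈ s, elcheC ((Ideal.absNorm z.1) ^ z.2) ≤ Module.finrank ℚ K * ∑' q, elcheC q := by
  have hn : 0 < Module.finrank ℚ K := Module.finrank_pos
  have hnR : (0 : ℝ) < Module.finrank ℚ K := by exact_mod_cast hn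
  have h1 := elche_group K s hs elcheC elcheC_nonneg
    (s.image (fun z : Ideal (𝓞 K) × ℕ => (Ideal.absNorm z.1) ^ z.2))
    (fun z hz => Finset.mem_image_of_mem (fun z : Ideal (𝓞 K) × ℕ => (Ideal.absNorm z.1) ^ z.2) hz)
  exact h1.trans (mul_le_mul_of_nonneg_left
    (elcheC_summable.sum_le_tsum _ (fun q _ => elcheC_nonneg q)) hnR.le)

theorem che_a (K : Type) [Field K] [NumberField K] : ∃ A : ℝ, 0 < A ∧ ∀ (x : ℝ) (k0 : ℕ), 1 ≤ x →
    ∑ P ∈ PP K x, ∑ k ∈ (Icc 1 k0).filter (fun k => (((Ideal.absNorm P : ℕ) : ℝ)) ^ k ≤ x),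
      Real.log (Ideal.absNorm P : ℕ) *
        ((((Ideal.absNorm P : ℕ) : ℝ) ^ k) ^ ((1 : ℝ) / Module.finrank ℚ K) / ((Ideal.absNorm P : ℕ) : ℝ) ^ k) ≤
      A * x ^ ((1 : ℝ) / Module.finrank ℚ K) := by
  have hn : 0 < Module.finrank ℚ K := Module.finrank_pos
  have hnR : (0 : ℝ) < Module.finrank ℚ K := by exact_mod_cast hn
  have hn1 : (1 : ℝ) ≤ Module.finrank ℚ K := by exact_mod_cast hn
  obtain ⟨A, hA, hcheb⟩ := elche_cheb ((1 : ℝ) / Module.finrank ℚ K) (by positivity)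
    ((div_le_one hnR).2 hn1)
  refine ⟨(Module.finrank ℚ K : ℝ) * ((Module.finrank ℚ K : ℝ) * A), by positivity, ?_⟩
  intro x k0 hx
  classical
  set α : ℝ := (1 : ℝ) / Module.finrank ℚ K with hα
  set cc : ℕ → ℝ := fun q => ArithmeticFunction.vonMangoldt q * ((q : ℝ) ^ α / q) with hcc
  have hcc0 : ∀ q, 0 ≤ cc q := fun q => mul_nonneg ArithmeticFunction.vonMangoldt_nonneg (by positivity)
  set s : Finset (Ideal (𝓞 K) × ℕ) := (PP K x ×ˢ Icc 1 k0).filter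
    (fun z => (((Ideal.absNorm z.1 : ℕ) : ℝ)) ^ z.2 ≤ x) with hs
  have hsum : ∑ P ∈ PP K x, ∑ k ∈ (Icc 1 k0).filter (fun k => (((Ideal.absNorm P : ℕ) : ℝ)) ^ k ≤ x),
      Real.log (Ideal.absNorm P : ℕ) *
        ((((Ideal.absNorm P : ℕ) : ℝ) ^ k) ^ α / ((Ideal.absNorm P : ℕ) : ℝ) ^ k) =
      ∑ z ∈ s, Real.log (Ideal.absNorm z.1 : ℕ) *
        ((((Ideal.absNorm z.1 : ℕ) : ℝ) ^ z.2) ^ α / ((Ideal.absNorm z.1 : ℕ) : ℝ) ^ z.2) := by
    rw [hs, Finset.sum_filter, Finset.sum_product]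
    refine Finset.sum_congr rfl fun P _ => ?_
    rw [Finset.sum_filter]
  rw [hsum]
  have hmem : ∀ z ∈ s, z.1.IsPrime ∧ z.1 ≠ ⊥ ∧ 1 ≤ z.2 ∧ (((Ideal.absNorm z.1 : ℕ) : ℝ)) ^ z.2 ≤ x := by
    intro z hz
    obtain ⟨h1, h2⟩ := Finset.mem_filter.1 hz
    obtain ⟨h3, h4⟩ := Finset.mem_product.1 h1
    obtain ⟨h5, h6, -⟩ := (mem_PP (by linarith)).1 h3
    exact ⟨h5, h6, (Finset.mem_Icc.1 h4).1, h2⟩
  have hstep : ∑ z ∈ s, Real.log (Ideal.absNorm z.1 : ℕ) *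
        ((((Ideal.absNorm z.1 : ℕ) : ℝ) ^ z.2) ^ α / ((Ideal.absNorm z.1 : ℕ) : ℝ) ^ z.2) ≤
      Module.finrank ℚ K * ∑ z ∈ s, cc ((Ideal.absNorm z.1) ^ z.2) := by
    rw [Finset.mul_sum]
    refine Finset.sum_le_sum fun z hz => ?_
    obtain ⟨h1, h2, h3, -⟩ := hmem z hz
    have h4 := elche_log K z.1 h1 h2 h3
    have h5 : (0 : ℝ) ≤ ((((Ideal.absNorm z.1 : ℕ) : ℝ) ^ z.2) ^ α / ((Ideal.absNorm z.1 : ℕ) : ℝ) ^ z.2) := by
      positivity
    refine (mul_le_mul_of_nonneg_right h4 h5).trans (le_of_eq ?_)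
    rw [hcc]
    push_cast
    ring
  have hgroup := elche_group K s (fun z hz => ⟨(hmem z hz).1, (hmem z hz).2.1, (hmem z hz).2.2.1⟩) cc hcc0
    (Icc 1 ⌊x⌋₊) (by
      intro z hz
      obtain ⟨h1, h2, h3, h4⟩ := hmem z hz
      refine Finset.mem_Icc.2 ⟨?_, ?_⟩
      · have h5 := elche_two K z.1 h1 h2
        exact Nat.one_le_pow _ _ (by omega)
      · refine Nat.le_floor ?_
        push_cast
        exact h4)
  have hch := hcheb x (by linarith)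
  calc ∑ z ∈ s, Real.log (Ideal.absNorm z.1 : ℕ) *
        ((((Ideal.absNorm z.1 : ℕ) : ℝ) ^ z.2) ^ α / ((Ideal.absNorm z.1 : ℕ) : ℝ) ^ z.2)
      ≤ Module.finrank ℚ K * ∑ z ∈ s, cc ((Ideal.absNorm z.1) ^ z.2) := hstep
    _ ≤ Module.finrank ℚ K * (Module.finrank ℚ K * ∑ q ∈ Icc 1 ⌊x⌋₊, cc q) :=
        mul_le_mul_of_nonneg_left hgroup hnR.le
    _ ≤ Module.finrank ℚ K * (Module.finrank ℚ K * (A * x ^ α)) :=
        mul_le_mul_of_nonneg_left (mul_le_mul_of_nonneg_left hch hnR.le) hnR.le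
    _ = Module.finrank ℚ K * (Module.finrank ℚ K * A) * x ^ α := by ring

open Classical in
theorem che_b (K : Type) [Field K] [NumberField K] : ∃ A : ℝ, 0 < A ∧ ∀ (x : ℝ) (k0 : ℕ), 1 ≤ x →
    ∑ P ∈ PP K x, ∑ k ∈ Icc 1 k0, (if k = 1 ∧ (Ideal.absNorm P).Prime then 0 else
      Real.log (Ideal.absNorm P : ℕ) / ((Ideal.absNorm P : ℕ) : ℝ) ^ k) ≤ A := by
  have hn : 0 < Module.finrank ℚ K := Module.finrank_pos
  have hnR : (0 : ℝ) < Module.finrank ℚ K := by exact_mod_cast hn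
  have hts : 0 ≤ ∑' q, elcheC q := tsum_nonneg elcheC_nonneg
  refine ⟨(Module.finrank ℚ K : ℝ) * ((Module.finrank ℚ K : ℝ) * (∑' q, elcheC q)) + 1, by positivity, ?_⟩
  intro x k0 hx
  set s : Finset (Ideal (𝓞 K) × ℕ) := PP K x ×ˢ Icc 1 k0 with hs
  rw [← Finset.sum_product' (PP K x) (Icc 1 k0) (fun P k => if k = 1 ∧ (Ideal.absNorm P).Prime then (0 : ℝ) else
      Real.log (Ideal.absNorm P : ℕ) / ((Ideal.absNorm P : ℕ) : ℝ) ^ k)]
  have hmem : ∀ z ∈ s, z.1.IsPrime ∧ z.1 ≠ ⊥ ∧ 1 ≤ z.2 := by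
    intro z hz
    obtain ⟨h3, h4⟩ := Finset.mem_product.1 hz
    obtain ⟨h5, h6, -⟩ := (mem_PP (by linarith)).1 h3
    exact ⟨h5, h6, (Finset.mem_Icc.1 h4).1⟩
  have hstep : ∑ z ∈ s, (if z.2 = 1 ∧ (Ideal.absNorm z.1).Prime then (0 : ℝ) else
      Real.log (Ideal.absNorm z.1 : ℕ) / ((Ideal.absNorm z.1 : ℕ) : ℝ) ^ z.2) ≤
      Module.finrank ℚ K * ∑ z ∈ s, elcheC ((Ideal.absNorm z.1) ^ z.2) := by
    rw [Finset.mul_sum]
    refine Finset.sum_le_sum fun z hz => ?_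
    obtain ⟨h1, h2, h3⟩ := hmem z hz
    have h4 := elche_log K z.1 h1 h2 h3
    split_ifs with hif
    · exact mul_nonneg hnR.le (elcheC_nonneg _)
    · have h5 : ¬ ((Ideal.absNorm z.1) ^ z.2).Prime := by
        intro h6
        have h7 := Nat.Prime.eq_one_of_pow h6
        rw [h7, pow_one] at h6
        exact hif ⟨h7, h6⟩
      rw [elcheC_of_not_prime h5]
      push_cast
      rw [← mul_div_assoc]
      exact div_le_div_of_nonneg_right h4 (by positivity)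
  have hgroup := elche_groupT K s hmem
  calc ∑ z ∈ s, (if z.2 = 1 ∧ (Ideal.absNorm z.1).Prime then (0 : ℝ) else
      Real.log (Ideal.absNorm z.1 : ℕ) / ((Ideal.absNorm z.1 : ℕ) : ℝ) ^ z.2)
      ≤ Module.finrank ℚ K * ∑ z ∈ s, elcheC ((Ideal.absNorm z.1) ^ z.2) := hstep
    _ ≤ Module.finrank ℚ K * (Module.finrank ℚ K * (∑' q, elcheC q)) :=
        mul_le_mul_of_nonneg_left hgroup hnR.le
    _ ≤ Module.finrank ℚ K * (Module.finrank ℚ K * (∑' q, elcheC q)) + 1 := by linarith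

end EL
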