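import Pool.Agent.Lib.MP_10e784_ag.EL.ELMer
import Pool.Agent.Lib.MP_10e784_ag.PT.PTGal
import Pool.Agent.Lib.MP_10e784_ag.PT.PTAbove

/-! JOB ELCheb.  A Chebyshev lower bound for totally split primes congruent to one modulo `Q`.

Apply `PT.gal_primes` to the family `Option ι → ℤ[X]`, `none ↦ cyclotomic Q ℤ` (irreducible over `ℚ`: `Polynomial.cyclotomic.irreducible_rat`, `map_cyclotomic`), `some i ↦ G i`: it gives `L, n = finrank ℚ L ≥ 1, B2 ≠ 0`.  Let `S = {p prime | ¬ p ∣ B2, ¬ p ∣ Q, ∃ P prime ideal of norm p}`.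
For `p ∈ S`: `rt (G i) p = natDegree` for all `i`, and `rt (cyclotomic Q ℤ) p = φ(Q) ≥ 1`, so there is a root `μ` of `cyclotomic Q (ZMod p)` in `ZMod p`; `(Q : ZMod p) ≠ 0`, so `μ` is a primitive `Q`-th root of unity (`Polynomial.isRoot_cyclotomic_iff`), its order `Q` divides `p - 1` (`ZMod.orderOf_dvd_card_sub_one` or Fermat), i.e. `(p : ZMod Q) = 1`.
For every prime `p ∤ B2` the number of prime ideals of norm `p` is `0` or `n` (`≥ n` by `gal_primes` as soon as there is one, `≤ n` by `PT.primes_above_le`, `p ∈ P` by `Ideal.absNorm_mem`).  So `∑_{P ∈ PP L x, prime norm} log (absNorm P) / absNorm P = n ∑_{p ≤ x, p ∈ S} log p / p + O(1)` (the primes dividing `B2 Q` contribute at most `n` each), and by `mer`: `|n ∑_{p ≤ x, p ∈ S} log p / p - log x| ≤ A` for `x ≥ 2`.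
Take `a = exp (-(2 A + n)) ∈ (0, 1)`: for `a x ≥ 2`: `∑_{a x < p ≤ x, p ∈ S} log p / p ≥ ((log x - A) - (log (a x) + A)) / n = 1`; every term is at most `log x / (a x)`, so there are at least `a x / log x` such primes.  `c = a`, `x0 = 2 / a` (note `log x > 0`). -/

namespace EL

open Polynomial NumberField Finset

/-- a prime at which the cyclotomic polynomial has a root -/
private theorem elcheb_one (Q p : ℕ) (hQ : Q ≠ 0) (hp : p.Prime) (hpQ : ¬ p ∣ Q)
    (hr : PT.rt (cyclotomic Q ℤ) p = (cyclotomic Q ℤ).natDegree) : (p : ZMod Q) = 1 := by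
  have hf : Fact p.Prime := ⟨hp⟩
  rw [natDegree_cyclotomic] at hr
  have h1 : 0 < Q.totient := Nat.totient_pos.2 (Nat.pos_of_ne_zero hQ)
  unfold PT.rt at hr
  have h2 : Nat.card {ρ : ZMod p // ((cyclotomic Q ℤ).map (Int.castRingHom (ZMod p))).eval ρ = 0} ≠ 0 := by
    rw [hr]
    omega
  obtain ⟨⟨⟨μ, hμ⟩⟩, _⟩ := Nat.card_ne_zero.1 h2
  rw [map_cyclotomic] at hμ
  have hne : NeZero (Q : ZMod p) := ⟨fun h => hpQ ((ZMod.natCast_eq_zero_iff Q p).1 h)⟩
  have h3 : IsPrimitiveRoot μ Q := (isRoot_cyclotomic_iff (R := ZMod p)).1 hμ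
  have h4 : μ ≠ 0 := by
    intro h0
    have h5 := h3.pow_eq_one
    rw [h0, zero_pow hQ] at h5
    exact zero_ne_one h5
  have h6 : Q ∣ p - 1 := h3.dvd_of_pow_eq_one _ (ZMod.pow_card_sub_one_eq_one h4)
  have h7 : ((p - 1 : ℕ) : ZMod Q) = 0 := (ZMod.natCast_eq_zero_iff _ _).2 h6
  have h8 : p = (p - 1) + 1 := by
    have := hp.one_lt
    omega
  rw [h8, Nat.cast_add, h7, Nat.cast_one, zero_add]

open Classical in
/-- the primes of `S` up to `x` -/
private noncomputable def elchebF (S : Set ℕ) (x : ℝ) : Finset ℕ := (Icc 1 ⌊x⌋₊).filter fun p => p ∈ S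

private theorem elcheb_mem {S : Set ℕ} {x : ℝ} (hS : ∀ p ∈ S, p.Prime) (hx : 0 ≤ x) {p : ℕ} :
    p ∈ elchebF S x ↔ p ∈ S ∧ (p : ℝ) ≤ x := by
  classical
  unfold elchebF
  rw [mem_filter, mem_Icc, Nat.le_floor_iff hx]
  constructor
  · exact fun h => ⟨h.2, h.1.2⟩
  · exact fun h => ⟨⟨(hS p h.1).one_lt.le, h.2⟩, h.1⟩

/-- the sum over the prime ideals of prime norm, grouped by the norm -/
private theorem elcheb_group (L : Type) [Field L] [NumberField L] (x : ℝ) (hx : 0 ≤ x) :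
    (∑ P ∈ (PP L x).filter (fun P => (Ideal.absNorm P).Prime),
      Real.log (Ideal.absNorm P : ℕ) / (Ideal.absNorm P : ℕ)) =
    ∑ p ∈ (Icc 1 ⌊x⌋₊).filter Nat.Prime,
      ((((PP L x).filter (fun P => (Ideal.absNorm P).Prime)).filter (fun P => Ideal.absNorm P = p)).card : ℝ) *
        (Real.log p / p) := by
  classical
  rw [← sum_fiberwise_of_maps_to (s := (PP L x).filter (fun P => (Ideal.absNorm P).Prime))
    (t := (Icc 1 ⌊x⌋₊).filter Nat.Prime) (g := fun P => Ideal.absNorm P)]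
  · refine sum_congr rfl fun p _ => ?_
    rw [← nsmul_eq_mul, ← sum_const]
    refine sum_congr rfl fun P hP => ?_
    rw [(mem_filter.1 hP).2]
  · intro P hP
    obtain ⟨h1, h2⟩ := mem_filter.1 hP
    obtain ⟨_, _, h3⟩ := (mem_PP hx).1 h1
    exact mem_filter.2 ⟨mem_Icc.2 ⟨h2.one_lt.le, Nat.le_floor h3⟩, h2⟩

theorem cheb {ι : Type} [Fintype ι] (G : ι → ℤ[X]) (hG : ∀ i, Irreducible ((G i).map (Int.castRingHom ℚ)))
    (Q : ℕ) (hQ : Q ≠ 0) :
    ∃ (S : Set ℕ) (c x0 : ℝ), 0 < c ∧ 2 ≤ x0 ∧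
      (∀ p ∈ S, p.Prime ∧ (p : ZMod Q) = 1 ∧ ∀ i, PT.rt (G i) p = (G i).natDegree) ∧
      ∀ x : ℝ, x0 ≤ x → c * x / Real.log x ≤ (Nat.card {p : ℕ // p ∈ S ∧ (p : ℝ) ≤ x} : ℝ) := by
  classical
  obtain ⟨L, iF, iN, n, B2, hn1, hn, hB2, hgal⟩ := PT.gal_primes
    (fun o : Option ι => o.elim (cyclotomic Q ℤ) G) (by
      intro o
      cases o with
      | none =>
        change Irreducible ((cyclotomic Q ℤ).map (Int.castRingHom ℚ))
        rw [map_cyclotomic]
        exact cyclotomic.irreducible_rat (Nat.pos_of_ne_zero hQ)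
      | some i => exact hG i)
  obtain ⟨A, hA, hmer⟩ := mer L
  obtain ⟨S, hS⟩ : ∃ S : Set ℕ, ∀ p, p ∈ S ↔ (p.Prime ∧ ¬ p ∣ B2 ∧ ¬ p ∣ Q ∧
    ∃ P : Ideal (𝓞 L), P.IsPrime ∧ Ideal.absNorm P = p) :=
    ⟨{p | p.Prime ∧ ¬ p ∣ B2 ∧ ¬ p ∣ Q ∧
    ∃ P : Ideal (𝓞 L), P.IsPrime ∧ Ideal.absNorm P = p}, fun p => Iff.rfl⟩
  have hSp : ∀ p ∈ S, p.Prime := fun p hp => ((hS p).1 hp).1
  have hnR : (1 : ℝ) ≤ n := by exact_mod_cast hn1
  have hnpos : (0 : ℝ) < n := by linarith
  set E : ℝ := ∑ p ∈ (B2 * Q).primeFactors, Real.log p / p with hE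
  have hterm0 : ∀ p : ℕ, 0 ≤ Real.log p / p := fun p =>
    div_nonneg (Real.log_natCast_nonneg _) (Nat.cast_nonneg _)
  have hE0 : 0 ≤ E := sum_nonneg fun p _ => hterm0 p
  have hcard_le : ∀ (x : ℝ) (p : ℕ), p.Prime →
      ((((PP L x).filter (fun P => (Ideal.absNorm P).Prime)).filter
        (fun P => Ideal.absNorm P = p)).card : ℝ) ≤ n := by
    intro x p hp
    rw [hn]
    refine Nat.cast_le.2 (PT.primes_above_le L p hp _ fun P hP => ?_)
    obtain ⟨h1, h2⟩ := mem_filter.1 hP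
    have h3 := (mem_filter.1 h1).1
    unfold PP at h3
    refine ⟨(mem_filter.1 h3).2.1, ?_⟩
    rw [← h2]
    exact Ideal.absNorm_mem P
  -- the two inequalities
  have hupper : ∀ x : ℝ, 0 ≤ x → (∑ P ∈ (PP L x).filter (fun P => (Ideal.absNorm P).Prime),
      Real.log (Ideal.absNorm P : ℕ) / (Ideal.absNorm P : ℕ)) ≤
      n * (∑ p ∈ elchebF S x, Real.log p / p) + n * E := by
    intro x hx
    rw [elcheb_group L x hx]
    have h1 : ∀ p ∈ (Icc 1 ⌊x⌋₊).filter Nat.Prime,
        ((((PP L x).filter (fun P => (Ideal.absNorm P).Prime)).filter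
          (fun P => Ideal.absNorm P = p)).card : ℝ) * (Real.log p / p) ≤
        (if p ∈ S then n * (Real.log p / p) else 0) +
        (if p ∈ (B2 * Q).primeFactors then n * (Real.log p / p) else 0) := by
      intro p hp
      have hpp := (mem_filter.1 hp).2
      have h2 := mul_le_mul_of_nonneg_right (hcard_le x p hpp) (hterm0 p)
      have h3 : 0 ≤ n * (Real.log p / p) := mul_nonneg hnpos.le (hterm0 p)
      by_cases hpS : p ∈ S
      · rw [if_pos hpS]
        split_ifs <;> linarith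
      · rw [if_neg hpS, zero_add]
        by_cases hpB : p ∈ (B2 * Q).primeFactors
        · rw [if_pos hpB]
          exact h2
        · rw [if_neg hpB]
          have h4 : ¬ p ∣ B2 * Q := fun h => hpB (Nat.mem_primeFactors.2 ⟨hpp, h, mul_ne_zero hB2 hQ⟩)
          have h5 : ((PP L x).filter (fun P => (Ideal.absNorm P).Prime)).filter
              (fun P => Ideal.absNorm P = p) = ∅ := by
            rw [filter_eq_empty_iff]
            intro P hP h6
            have h7 := (mem_filter.1 hP).1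
            refine hpS ((hS p).2 ⟨hpp, fun h => h4 (h.mul_right _), fun h => h4 (h.mul_left _), P, ?_, h6⟩)
            exact ((mem_PP hx).1 h7).1
          rw [h5, card_empty, Nat.cast_zero, zero_mul]
    refine (sum_le_sum h1).trans ?_
    rw [sum_add_distrib, ← sum_filter, ← sum_filter, mul_sum, hE, mul_sum]
    refine add_le_add ?_ ?_
    · refine sum_le_sum_of_subset_of_nonneg ?_ fun p _ _ => mul_nonneg hnpos.le (hterm0 p)
      intro p hp
      obtain ⟨h2, h3⟩ := mem_filter.1 hp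
      unfold elchebF
      exact mem_filter.2 ⟨(mem_filter.1 h2).1, h3⟩
    · refine sum_le_sum_of_subset_of_nonneg ?_ fun p _ _ => mul_nonneg hnpos.le (hterm0 p)
      intro p hp
      exact (mem_filter.1 hp).2
  have hlower : ∀ x : ℝ, 0 ≤ x → n * (∑ p ∈ elchebF S x, Real.log p / p) ≤
      (∑ P ∈ (PP L x).filter (fun P => (Ideal.absNorm P).Prime),
      Real.log (Ideal.absNorm P : ℕ) / (Ideal.absNorm P : ℕ)) := by
    intro x hx
    rw [elcheb_group L x hx, mul_sum]
    have h1 : elchebF S x ⊆ (Icc 1 ⌊x⌋₊).filter Nat.Prime := by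
      intro p hp
      unfold elchebF at hp
      obtain ⟨h2, h3⟩ := mem_filter.1 hp
      exact mem_filter.2 ⟨h2, hSp p h3⟩
    refine le_trans (sum_le_sum fun p hp => ?_) (sum_le_sum_of_subset_of_nonneg h1 fun p _ _ =>
      mul_nonneg (Nat.cast_nonneg _) (hterm0 p))
    obtain ⟨hpS, hpx⟩ := (elcheb_mem hSp hx).1 hp
    obtain ⟨hp1, hp2, hp3, hp4⟩ := (hS p).1 hpS
    obtain ⟨⟨E', hE'1, hE'2⟩, _⟩ := hgal p hp1 hp2 hp4
    refine mul_le_mul_of_nonneg_right ?_ (hterm0 p)
    rw [← hE'1]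
    refine Nat.cast_le.2 (card_le_card fun P hP => ?_)
    obtain ⟨h2, h3⟩ := hE'2 P hP
    refine mem_filter.2 ⟨mem_filter.2 ⟨(mem_PP hx).2 ⟨h2, ?_, ?_⟩, ?_⟩, h3⟩
    · intro h4
      rw [h4, Ideal.absNorm_bot] at h3
      exact hp1.ne_zero h3.symm
    · rw [h3]
      exact hpx
    · rw [h3]
      exact hp1
  -- the constants
  set a : ℝ := Real.exp (-(2 * A + n * E + n)) with ha
  have ha0 : 0 < a := Real.exp_pos _
  have ha1 : a ≤ 1 := by
    rw [ha, Real.exp_le_one_iff]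
    have : 0 ≤ n * E := by positivity
    linarith
  have hloga : Real.log a = -(2 * A + n * E + n) := Real.log_exp _
  refine ⟨S, a, 2 / a, ha0, ?_, ?_, ?_⟩
  · rw [le_div_iff₀ ha0]
    linarith
  · intro p hp'
    have hp := (hS p).1 hp'
    have h1 := (hgal p hp.1 hp.2.1 hp.2.2.2).2
    exact ⟨hp.1, elcheb_one Q p hQ hp.1 hp.2.2.1 (h1 none), fun i => h1 (some i)⟩
  · intro x hx
    have hax : 2 ≤ a * x := by
      rw [div_le_iff₀ ha0] at hx
      linarith
    have hx0 : 0 < x := by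
      by_contra hcon
      have : a * x ≤ 0 := mul_nonpos_of_nonneg_of_nonpos ha0.le (not_lt.1 hcon)
      linarith
    have hxx : a * x ≤ x := by nlinarith
    have hx2 : 2 ≤ x := hax.trans hxx
    have hlogx : 0 < Real.log x := Real.log_pos (by linarith)
    have h1 := (abs_le.1 (hmer x hx2)).1
    have h2 := (abs_le.1 (hmer (a * x) hax)).2
    have h3 := hupper x hx0.le
    have h4 := hlower (a * x) (by linarith)
    have h5 : Real.log (a * x) = Real.log a + Real.log x := Real.log_mul ha0.ne' hx0.ne'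
    rw [h5, hloga] at h2
    have h6 : n * 1 ≤ n * ((∑ p ∈ elchebF S x, Real.log p / p) - ∑ p ∈ elchebF S (a * x), Real.log p / p) := by
      rw [mul_sub, mul_one]
      linarith
    have h7 := le_of_mul_le_mul_left h6 hnpos
    have hsub : elchebF S (a * x) ⊆ elchebF S x := by
      intro p hp
      rw [elcheb_mem hSp (by linarith)] at hp ⊢
      exact ⟨hp.1, hp.2.trans hxx⟩
    rw [← sum_sdiff hsub, add_sub_cancel_right] at h7
    have h8 : ∑ p ∈ elchebF S x \ elchebF S (a * x), Real.log p / p ≤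
        (elchebF S x \ elchebF S (a * x)).card • (Real.log x / (a * x)) := by
      refine sum_le_card_nsmul _ _ _ fun p hp => ?_
      rw [mem_sdiff, elcheb_mem hSp hx0.le, elcheb_mem hSp (by linarith)] at hp
      obtain ⟨⟨hpS, hpx⟩, hpa⟩ := hp
      have h9 : a * x < p := by
        by_contra hcon
        exact hpa ⟨hpS, not_lt.1 hcon⟩
      have h10 : (0 : ℝ) < p := by linarith
      exact div_le_div₀ hlogx.le (Real.log_le_log h10 hpx) (by linarith) h9.le
    rw [nsmul_eq_mul] at h8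
    have h9 : ((elchebF S x \ elchebF S (a * x)).card : ℝ) ≤ (elchebF S x).card :=
      Nat.cast_le.2 (card_le_card sdiff_subset)
    have h10 : Nat.card {p : ℕ // p ∈ S ∧ (p : ℝ) ≤ x} = (elchebF S x).card :=
      Nat.subtype_card _ fun p => elcheb_mem hSp hx0.le
    rw [h10]
    have h11 : 0 ≤ Real.log x / (a * x) := div_nonneg hlogx.le (by linarith)
    have h12 := h7.trans (h8.trans (mul_le_mul_of_nonneg_right h9 h11))
    rw [mul_div_assoc', le_div_iff₀ (by linarith), one_mul] at h12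
    rw [div_le_iff₀ hlogx]
    exact h12

end EL
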