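import Pool.Agent.Lib.MP_10e784_ag.EL.ELFin
import Pool.Agent.Lib.MP_10e784_ag.PT.PTSplit

/-! The final theorem together with the lower bound for the number of counterexamples to the Hasse principle. -/

namespace EL

open Polynomial Finset TW

private theorem elcor_mono (S R : Set ℕ) (h : S ⊆ R) (x : ℝ) : PT.PS (PT.ind S) x ≤ PT.PS (PT.ind R) x := by
  unfold PT.PS
  refine Finset.sum_le_sum fun p _ => ?_
  apply div_le_div_of_nonneg_right _ (Nat.cast_nonneg p)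
  unfold PT.ind
  by_cases h1 : p ∈ S
  · rw [if_pos h1, if_pos (h h1)]
  · rw [if_neg h1]
    split_ifs <;> norm_num

private theorem elcor_fin (N : ℕ) (P : ℤ → Prop) : Finite {D : ℤ // Squarefree D ∧ |D| ≤ (N : ℤ) ∧ P D} := by
  have h : Finite {D : ℤ // D ∈ Set.Icc (-(N : ℤ)) N} := (Set.finite_Icc _ _).to_subtype
  refine Finite.of_injective (β := {D : ℤ // D ∈ Set.Icc (-(N : ℤ)) N}) (fun D => ⟨D.1, abs_le.1 D.2.2.1⟩) ?_
  intro D D' h
  have := congrArg Subtype.val h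
  exact Subtype.ext this

theorem cor (f : ℚ[X]) (hf : Squarefree f) (hdeg : Even f.natDegree) (h6 : 6 ≤ f.natDegree)
    (h3 : ∀ q : ℚ[X], Irreducible q → q ∣ f → 3 ≤ q.natDegree) :
    ∃ A δ : ℝ, 0 < δ ∧ (∀ N : ℕ, 2 ≤ N →
      (Nat.card {D : ℤ // Squarefree D ∧ |D| ≤ (N : ℤ) ∧ ∃ x y : ℚ, (D : ℚ) * y ^ 2 = f.eval x} : ℝ) ≤
        A / Real.log N ^ δ * (Nat.card {D : ℤ // Squarefree D ∧ |D| ≤ (N : ℤ) ∧ ELS f D} : ℝ)) ∧
      ((∃ D : ℤ, Squarefree D ∧ ELS f D) → ∃ (c η : ℝ) (N0 : ℕ), 0 < c ∧ η < 1 ∧ ∀ N : ℕ, N0 ≤ N →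
        c * N / Real.log N ^ η ≤ (Nat.card {D : ℤ // Squarefree D ∧ |D| ≤ (N : ℤ) ∧ ELS f D ∧
          ¬ ∃ x y : ℚ, (D : ℚ) * y ^ 2 = f.eval x} : ℝ)) := by
  classical
  obtain ⟨A, δ, hδ, hA⟩ := fin f hf hdeg h6 h3
  refine ⟨A, δ, hδ, hA, ?_⟩
  rintro ⟨D0, hD0, hels⟩
  have hroot : ∀ x y : ℚ, f.eval x = 0 → f.eval y = 0 → x = y := by
    intro x y hx hy
    exfalso
    have h1 := h3 (X - C x) (irreducible_X_sub_C x) (dvd_iff_isRoot.2 hx)
    rw [natDegree_X_sub_C] at h1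
    omega
  obtain ⟨n, q, g, M, c, hM, hc, hg0, hmon, hF, hg⟩ := gen_fam f hf hdeg h6 hroot
  obtain ⟨a, N0, ha, hN0, hlow⟩ := low f hdeg q g M c hM hc hg0 hmon hF hg D0 hD0 hels
  obtain ⟨S, m, hS⟩ := PT.split_set g hg0.irr
  obtain ⟨C0, hC0⟩ := hS.lower
  have hm1 := hS.npos
  have hmR : (1 : ℝ) ≤ m := by exact_mod_cast hm1
  have hsub : S ⊆ RP g := by
    intro p hp
    have h1 : rts g univ p = ∑ i, (g i).natDegree := by
      unfold rts
      exact Finset.sum_congr rfl fun i _ => hS.split p hp i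
    show 1 ≤ rts g univ p
    rw [h1]
    exact le_trans (by norm_num) hg0.six
  -- large N
  have hev : ∃ N1 : ℕ, ∀ N : ℕ, N1 ≤ N → 2 * |A| ≤ Real.log N ^ δ := by
    have h1 : Filter.Tendsto (fun N : ℕ => Real.log N ^ δ) Filter.atTop Filter.atTop :=
      (tendsto_rpow_atTop hδ).comp (Real.tendsto_log_atTop.comp tendsto_natCast_atTop_atTop)
    exact Filter.eventually_atTop.1 (h1.eventually_ge_atTop (2 * |A|))
  obtain ⟨N1, hN1⟩ := hev
  refine ⟨a * Real.exp (-C0) / 2, 1 - 1 / m, max (max N0 N1) 3, by positivity, by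
    have : (0 : ℝ) < 1 / m := by positivity
    linarith, fun N hN => ?_⟩
  have hNN0 : N0 ≤ N := (le_max_left _ _).trans ((le_max_left _ _).trans hN)
  have hNN1 : N1 ≤ N := (le_max_right _ _).trans ((le_max_left _ _).trans hN)
  have hN3 : 3 ≤ N := (le_max_right _ _).trans hN
  have hN3R : (3 : ℝ) ≤ N := by exact_mod_cast hN3
  have hlog1 : 1 < Real.log N := by
    rw [Real.lt_log_iff_exp_lt (by linarith)]
    have := Real.exp_one_lt_d9
    linarith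
  have hlog0 : 0 < Real.log N := by linarith
  set E := {D : ℤ // Squarefree D ∧ |D| ≤ (N : ℤ) ∧ ELS f D}
  have h1 := hlow N hNN0
  have h2 := hA N (by omega)
  have hTT : (1 / m : ℝ) * Real.log (Real.log N) - C0 ≤ TT g N :=
    (hC0 N (by linarith)).trans (elcor_mono S (RP g) hsub N)
  have hexp : Real.exp (-C0) * Real.log N ^ (1 / m : ℝ) ≤ Real.exp (TT g N) := by
    rw [Real.rpow_def_of_pos hlog0, ← Real.exp_add]
    apply Real.exp_le_exp.2
    linarith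
  have h3' : a * Real.exp (-C0) * N / Real.log N ^ (1 - 1 / m : ℝ) ≤ (Nat.card E : ℝ) := by
    refine le_trans ?_ h1
    have h4 : Real.log N ^ (1 - 1 / m : ℝ) = Real.log N / Real.log N ^ (1 / m : ℝ) := by
      rw [Real.rpow_sub hlog0, Real.rpow_one]
    have h5 : 0 < Real.log N ^ (1 / m : ℝ) := Real.rpow_pos_of_pos hlog0 _
    rw [h4]
    have h6' : a * Real.exp (-C0) * N / (Real.log N / Real.log N ^ (1 / m : ℝ)) =
        a * (N / Real.log N) * (Real.exp (-C0) * Real.log N ^ (1 / m : ℝ)) := by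
      field_simp
    rw [h6']
    exact mul_le_mul_of_nonneg_left hexp (by positivity)
  -- the counterexamples
  have hfinE : Finite E := elcor_fin N (fun D => ELS f D)
  have hfinV : Finite {D : ℤ // Squarefree D ∧ |D| ≤ (N : ℤ) ∧ ELS f D ∧
      ¬ ∃ x y : ℚ, (D : ℚ) * y ^ 2 = f.eval x} := elcor_fin N (fun D => ELS f D ∧ ¬ ∃ x y : ℚ, (D : ℚ) * y ^ 2 = f.eval x)
  have hfinS : Finite {D : ℤ // Squarefree D ∧ |D| ≤ (N : ℤ) ∧ ∃ x y : ℚ, (D : ℚ) * y ^ 2 = f.eval x} :=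
    elcor_fin N (fun D => ∃ x y : ℚ, (D : ℚ) * y ^ 2 = f.eval x)
  have hsplit : Nat.card E ≤ Nat.card ({D : ℤ // Squarefree D ∧ |D| ≤ (N : ℤ) ∧ ELS f D ∧
      ¬ ∃ x y : ℚ, (D : ℚ) * y ^ 2 = f.eval x} ⊕
      {D : ℤ // Squarefree D ∧ |D| ≤ (N : ℤ) ∧ ∃ x y : ℚ, (D : ℚ) * y ^ 2 = f.eval x}) := by
    refine Nat.card_le_card_of_injective (fun D : E =>
      if h : ∃ x y : ℚ, (D.1 : ℚ) * y ^ 2 = f.eval x then
        Sum.inr ⟨D.1, D.2.1, D.2.2.1, h⟩ else Sum.inl ⟨D.1, D.2.1, D.2.2.1, D.2.2.2, h⟩) ?_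
    intro D D' h
    simp only at h
    by_cases h7 : ∃ x y : ℚ, (D.1 : ℚ) * y ^ 2 = f.eval x
    · by_cases h8 : ∃ x y : ℚ, (D'.1 : ℚ) * y ^ 2 = f.eval x
      · rw [dif_pos h7, dif_pos h8] at h
        have := congrArg Subtype.val (Sum.inr.inj h)
        exact Subtype.ext this
      · rw [dif_pos h7, dif_neg h8] at h
        exact absurd h (by simp)
    · by_cases h8 : ∃ x y : ℚ, (D'.1 : ℚ) * y ^ 2 = f.eval x
      · rw [dif_neg h7, dif_pos h8] at h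
        exact absurd h (by simp)
      · rw [dif_neg h7, dif_neg h8] at h
        have := congrArg Subtype.val (Sum.inl.inj h)
        exact Subtype.ext this
  rw [Nat.card_sum] at hsplit
  have hsplitR : (Nat.card E : ℝ) ≤ (Nat.card {D : ℤ // Squarefree D ∧ |D| ≤ (N : ℤ) ∧ ELS f D ∧
      ¬ ∃ x y : ℚ, (D : ℚ) * y ^ 2 = f.eval x} : ℝ) +
      (Nat.card {D : ℤ // Squarefree D ∧ |D| ≤ (N : ℤ) ∧ ∃ x y : ℚ, (D : ℚ) * y ^ 2 = f.eval x} : ℝ) := by
    exact_mod_cast hsplit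
  have hhalf : A / Real.log N ^ δ ≤ 1 / 2 := by
    have h9 := hN1 N hNN1
    have h10 : 0 < Real.log N ^ δ := Real.rpow_pos_of_pos hlog0 _
    rw [div_le_div_iff₀ h10 (by norm_num)]
    linarith [le_abs_self A]
  have h11 : A / Real.log N ^ δ * (Nat.card E : ℝ) ≤ 1 / 2 * (Nat.card E : ℝ) :=
    mul_le_mul_of_nonneg_right hhalf (Nat.cast_nonneg _)
  have h12 : a * Real.exp (-C0) / 2 * N / Real.log N ^ (1 - 1 / m : ℝ) =
      (a * Real.exp (-C0) * N / Real.log N ^ (1 - 1 / m : ℝ)) / 2 := by ring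
  rw [h12]
  linarith

end EL
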