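import Mathlib
import Pool.Agent.Lib.MP_10e784_ag.TW.TWDefs

/-!
MP_10e784_ag, everywhere locally soluble quadratic twists of hyperelliptic curves without rational points.
Definitions shared by all files.
-/

namespace EL

open Polynomial Finset NumberField

/-- the primes modulo which some `g i` has a root -/
def RP {ι : Type} [Fintype ι] (g : ι → ℤ[X]) : Set ℕ := {p | 1 ≤ TW.rts g univ p}

/-- the sum of the reciprocals of the primes `p ≤ x` modulo which some `g i` has a root -/
noncomputable def TT {ι : Type} [Fintype ι] (g : ι → ℤ[X]) (x : ℝ) : ℝ := PT.PS (PT.ind (RP g)) x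

/-- the index set of an integral basis -/
abbrev Ix (K : Type) [Field K] [NumberField K] : Type := Module.Free.ChooseBasisIndex ℤ (𝓞 K)

/-- the integral element with coordinates `y` -/
noncomputable def al (K : Type) [Field K] [NumberField K] (y : Ix K → ℕ) : 𝓞 K :=
  ∑ i, (y i : 𝓞 K) * RingOfIntegers.basis K i

/-- the nonzero prime ideals of norm at most `x` -/
noncomputable def PP (K : Type) [Field K] [NumberField K] (x : ℝ) : Finset (Ideal (𝓞 K)) := by
  classical exact (Ideal.finite_setOfPred_absNorm_le (S := 𝓞 K) ⌊x⌋₊).toFinset.filter fun P => P.IsPrime ∧ P ≠ ⊥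

theorem mem_PP {K : Type} [Field K] [NumberField K] {x : ℝ} (hx : 0 ≤ x) {P : Ideal (𝓞 K)} :
    P ∈ PP K x ↔ P.IsPrime ∧ P ≠ ⊥ ∧ ((Ideal.absNorm P : ℕ) : ℝ) ≤ x := by
  classical
  unfold PP
  simp only [Finset.mem_filter, Set.Finite.mem_toFinset, Set.mem_ofPred_eq, Nat.le_floor_iff hx]
  tauto

/-- the number of the elements `t + al y`, `0 ≤ y i < h`, in the ideal `𝔞` -/
noncomputable def cnt (K : Type) [Field K] [NumberField K] (t : 𝓞 K) (h : ℕ) (𝔞 : Ideal (𝓞 K)) : ℕ := by
  classical exact ((Fintype.piFinset fun _ : Ix K => range h).filter fun y => t + al K y ∈ 𝔞).card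

/-- the polynomial in the `k`-th derivative of `f ^ M * q`: `derivative^[k] (f ^ M * q) = f ^ (M - k) * itd f M k q` -/
noncomputable def itd {F : Type} [Field F] (f : F[X]) (M : ℕ) : ℕ → F[X] → F[X]
  | 0, q => q
  | k + 1, q => C ((M - k : ℕ) : F) * derivative f * itd f M k q + f * derivative (itd f M k q)

end EL
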