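import Pool.Agent.Lib.MP_10e784_ag.EL.ELDefs
import Pool.Agent.Lib.MP_10e784_ag.TW.TWFib

/-! JOB ELFib.  The numerical form of the fibre bound, relative version (adapt `TW/TWFibN.lean`, `fib_two`; its private lemmas are useful).

Notation: `x = 1 / p`, `ρ = rts g I p`, `ν = nu g p I`, `m = dg g I`, `N = ∑ natDegree`, `p ≥ 8 N ^ 2`; `r = ind (RP g) p`, `s = ind S p`.  `nu_facts`: `ρ ≤ ν ≤ m`, `ρ ≠ m → ρ + 1 ≤ ν`, `I.card ≤ ν`.
`(1 - x) ^ ρ ≤ 1 - ρ x + ρ ^ 2 x ^ 2` (Bernoulli, in `TWFibN`).  `C0 = N ^ 2`.  `m ≥ 3` since `I` is nonempty and `h3`.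
The index type is nonempty, so for `p ∈ S`: `rt (g i) p = natDegree ≥ 3`, hence `p ∈ RP g` (`s ≤ r`).
Let `κ' = κ ρ 2 ^ (1 - ν)` (the second summand of the first term of `fib` is `p ^ m * κ' * x`).  Claim `κ' ≤ r - s / 4`:
 * `ρ = 0`: `κ' = 0` and `r - s/4 ≥ 0`.
 * `ρ ≥ 1` (so `r = 1`, because `rts g univ p ≥ rts g I p`), some factor outside `I` of odd degree (`κ = 1`): `κ' ≤ ρ / 2 ^ (ν - 1) ≤ 1`; if `p ∈ S` then `ρ = ν = m ≥ 3` and `κ' = m / 2 ^ (m - 1) ≤ 3/4`.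
 * `ρ ≥ 1`, all factors outside `I` of even degree (`κ = 2`): `dg g (univ \ I)` is even (`parity`), the total is even (`hg.even`), so `m` is even, `m ≥ 4`.  If `ρ ≠ m` then `ν ≥ ρ + 1`, `κ' ≤ 2 ρ / 2 ^ ρ ≤ 1`, and `p ∉ S` (for `p ∈ S` `ρ = m`).  If `ρ = m` then `ν = m ≥ 4`, `κ' = m / 2 ^ (m - 2) ≤ 1`; if moreover `p ∈ S`, every factor (of every `g i`) has degree one, so no index is outside `I`, `I = univ`, `m = N ≥ 6`, `κ' = m / 2 ^ (m - 2) ≤ 3/8`.
So the first term is `≤ p ^ m (1 - ρ x + ρ ^ 2 x ^ 2 + (r - s / 4) x)`, `ρ ≤ N`.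
The second term is `p ^ m * 2 / 2 ^ ν`.  If `ν ≥ 2` it is `≤ p ^ m / 2` and `1/2 ≤ 1 - (ρ - r + s / 4) x` since `(ρ + 1/4) x ≤ (N + 1) / (8 N ^ 2) ≤ 1/4`.  If `ν ≤ 1` (`I.card ≤ ν`, `I` nonempty: `ν = 1`): `ρ ≠ m` (else `ν ≥ m ≥ 3`), so `ρ + 1 ≤ ν`, `ρ = 0`, and `p ∉ S` (for `p ∈ S` `ρ = m`), `s = 0`; the second term is `p ^ m ≤ p ^ m (1 + r x + C0 x ^ 2)`. -/

namespace EL

open Polynomial Finset TW

private theorem elfib_bern (x : ℝ) (hx0 : 0 ≤ x) (hx1 : x ≤ 1) (r : ℕ) :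
    (1 - x) ^ r ≤ 1 - r * x + (r : ℝ) ^ 2 * x ^ 2 := by
  induction r with
  | zero => simp
  | succ r ih =>
    have h1 : (1 - x) ^ (r + 1) ≤ (1 - r * x + (r : ℝ) ^ 2 * x ^ 2) * (1 - x) := by
      rw [pow_succ]
      exact mul_le_mul_of_nonneg_right ih (by linarith)
    have hr : (0 : ℝ) ≤ r := Nat.cast_nonneg r
    have hx2 : 0 ≤ x ^ 2 := by positivity
    have hx3 : 0 ≤ (r : ℝ) ^ 2 * x ^ 3 := by positivity
    have hx4 : 0 ≤ (r : ℝ) * x ^ 2 := by positivity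
    push_cast
    nlinarith

private theorem elfib_pow1 (n : ℕ) (hn : 1 ≤ n) : (n : ℝ) ≤ 2 ^ (n - 1) := by
  obtain ⟨k, rfl⟩ : ∃ k, n = k + 1 := ⟨n - 1, by omega⟩
  have : k + 1 ≤ 2 ^ k := Nat.lt_two_pow_self
  simp only [Nat.add_sub_cancel]
  exact_mod_cast this

private theorem elfib_pow2 (n : ℕ) : 2 * (n : ℝ) ≤ 2 ^ n := by
  induction n with
  | zero => simp
  | succ k ih =>
    rcases Nat.eq_zero_or_pos k with h | h
    · subst h; norm_num
    · have h1 : (1 : ℝ) ≤ k := by exact_mod_cast h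
      rw [pow_succ]
      push_cast
      linarith

private theorem elfib_pow3 (n : ℕ) (hn : 4 ≤ n) : 2 * (n : ℝ) ≤ 2 ^ (n - 1) := by
  obtain ⟨k, rfl⟩ : ∃ k, n = k + 4 := ⟨n - 4, by omega⟩
  have e : k + 4 - 1 = k + 3 := by omega
  rw [e, pow_add]
  have h1 : (1 : ℝ) + k ≤ 2 ^ k := by
    have : k + 1 ≤ 2 ^ k := Nat.lt_two_pow_self
    have h2 : ((k + 1 : ℕ) : ℝ) ≤ 2 ^ k := by exact_mod_cast this
    push_cast at h2
    linarith
  have hk : (0 : ℝ) ≤ k := Nat.cast_nonneg k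
  push_cast
  nlinarith

private theorem elfib_pow4 (n : ℕ) (hn : 3 ≤ n) : (n : ℝ) ≤ 3 / 4 * 2 ^ (n - 1) := by
  obtain ⟨k, rfl⟩ : ∃ k, n = k + 3 := ⟨n - 3, by omega⟩
  have e : k + 3 - 1 = k + 2 := by omega
  rw [e, pow_add]
  have h1 : (1 : ℝ) + k ≤ 2 ^ k := by
    have : k + 1 ≤ 2 ^ k := Nat.lt_two_pow_self
    have h2 : ((k + 1 : ℕ) : ℝ) ≤ 2 ^ k := by exact_mod_cast this
    push_cast at h2
    linarith
  have hk : (0 : ℝ) ≤ k := Nat.cast_nonneg k
  push_cast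
  nlinarith

private theorem elfib_pow5 (n : ℕ) (hn : 6 ≤ n) : 2 * (n : ℝ) ≤ 3 / 4 * 2 ^ (n - 1) := by
  obtain ⟨k, rfl⟩ : ∃ k, n = k + 6 := ⟨n - 6, by omega⟩
  have e : k + 6 - 1 = k + 5 := by omega
  rw [e, pow_add]
  have h1 : (1 : ℝ) + k ≤ 2 ^ k := by
    have : k + 1 ≤ 2 ^ k := Nat.lt_two_pow_self
    have h2 : ((k + 1 : ℕ) : ℝ) ≤ 2 ^ k := by exact_mod_cast this
    push_cast at h2
    linarith
  have hk : (0 : ℝ) ≤ k := Nat.cast_nonneg k
  push_cast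
  nlinarith

/-- the numerical heart -/
private theorem elfib_core (N m r v : ℕ) (κ p e i : ℝ) (hN : 1 ≤ N) (hp : 8 * (N : ℝ) ^ 2 ≤ p) (hrv : r ≤ v) (hvm : v ≤ m)
    (hmN : m ≤ N) (hv : 2 ≤ v ∨ v = 1 ∧ r = 0 ∧ i = 0) (he0 : 0 ≤ e) (hi1 : i ≤ 1)
    (hκ : κ * r ≤ (e - i / 4) * 2 ^ (v - 1)) :
    max (p ^ m * (1 - 1 / p) ^ r + κ * r * (p ^ m / (p * 2 ^ (v - 1)))) (2 * (p ^ m / 2 ^ v)) ≤
      p ^ m * (1 - (((r : ℝ) - e + i / 4) / p - (N : ℝ) ^ 2 / p ^ 2)) := by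
  have hN' : (1 : ℝ) ≤ N := by exact_mod_cast hN
  have hp8 : (8 : ℝ) ≤ p := by nlinarith
  have hp0 : (0 : ℝ) < p := by linarith
  have hP : (0 : ℝ) < p ^ m := by positivity
  have hrN : (r : ℝ) ≤ N := by exact_mod_cast (hrv.trans hvm).trans hmN
  have hr0 : (0 : ℝ) ≤ r := Nat.cast_nonneg r
  set x : ℝ := 1 / p with hx
  have hx0 : 0 ≤ x := by positivity
  have hx1 : x ≤ 1 := by
    rw [hx, div_le_one hp0]; linarith
  have hbern := elfib_bern x hx0 hx1 r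
  have hr2 : (r : ℝ) ^ 2 * x ^ 2 ≤ (N : ℝ) ^ 2 * x ^ 2 := by
    apply mul_le_mul_of_nonneg_right _ (by positivity)
    exact pow_le_pow_left₀ hr0 hrN 2
  have hrhs : (1 - (((r : ℝ) - e + i / 4) / p - (N : ℝ) ^ 2 / p ^ 2)) = 1 - ((r : ℝ) - e + i / 4) * x + (N : ℝ) ^ 2 * x ^ 2 := by
    rw [hx]; field_simp; ring
  rw [hrhs]
  have h11 : 0 ≤ (N : ℝ) ^ 2 * x ^ 2 := by positivity
  apply max_le
  · have h2 : κ * r * (p ^ m / (p * 2 ^ (v - 1))) ≤ p ^ m * ((e - i / 4) * x) := by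
      have h3 : κ * r * (p ^ m / (p * 2 ^ (v - 1))) = (κ * r) * (p ^ m * x / 2 ^ (v - 1)) := by
        rw [hx]; field_simp
      have h4 : p ^ m * ((e - i / 4) * x) = ((e - i / 4) * 2 ^ (v - 1)) * (p ^ m * x / 2 ^ (v - 1)) := by
        field_simp
      rw [h3, h4]
      exact mul_le_mul_of_nonneg_right hκ (by positivity)
    have h5 : p ^ m * (1 - x) ^ r ≤ p ^ m * (1 - r * x + (N : ℝ) ^ 2 * x ^ 2) := by
      apply mul_le_mul_of_nonneg_left _ hP.le
      linarith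
    calc _ ≤ p ^ m * (1 - r * x + (N : ℝ) ^ 2 * x ^ 2) + p ^ m * ((e - i / 4) * x) := add_le_add h5 h2
      _ = _ := by ring
  · rcases hv with hv | ⟨hv, hr, hi⟩
    · have h6 : (4 : ℝ) ≤ 2 ^ v := by
        calc (4 : ℝ) = 2 ^ 2 := by norm_num
          _ ≤ 2 ^ v := pow_le_pow_right₀ (by norm_num) hv
      have h7 : 2 * (p ^ m / 2 ^ v) ≤ p ^ m * (1 / 2) := by
        have : p ^ m / 2 ^ v ≤ p ^ m / 4 := div_le_div_of_nonneg_left hP.le (by norm_num) h6
        linarith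
      refine h7.trans (mul_le_mul_of_nonneg_left ?_ hP.le)
      have h8 : (N : ℝ) * x ≤ 1 / 8 := by
        rw [hx, mul_one_div, div_le_iff₀ hp0]
        nlinarith
      have h9 : (r : ℝ) * x ≤ 1 / 8 := (mul_le_mul_of_nonneg_right hrN hx0).trans h8
      have h12 : x ≤ 1 / 8 := le_trans (le_mul_of_one_le_left hx0 hN') h8
      have h10 : ((r : ℝ) - e + i / 4) * x ≤ (r + 1) * x := mul_le_mul_of_nonneg_right (by linarith) hx0
      have h13 : ((r : ℝ) + 1) * x = r * x + x := by ring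
      linarith
    · subst hv
      subst hr
      subst hi
      have h7 : 2 * (p ^ m / 2 ^ 1) = p ^ m * 1 := by ring
      rw [h7]
      refine mul_le_mul_of_nonneg_left ?_ hP.le
      have h8 : 0 ≤ e * x := mul_nonneg he0 hx0
      have h9 : 1 - (((0 : ℕ) : ℝ) - e + 0 / 4) * x + (N : ℝ) ^ 2 * x ^ 2 = 1 + e * x + (N : ℝ) ^ 2 * x ^ 2 := by
        push_cast
        ring
      rw [h9]
      linarith

private theorem elfib_deg {ι : Type} [Fintype ι] {g : ι → ℤ[X]} (hg : Fam g) (i : ι) : 1 ≤ (g i).natDegree := by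
  by_contra h
  have h0 : (g i).natDegree = 0 := by omega
  have h1 : g i = 1 := (hg.monic i).natDegree_eq_zero.mp h0
  have h2 := hg.irr i
  rw [h1] at h2
  simp at h2

private theorem elfib_dg_le {ι : Type} [Fintype ι] (g : ι → ℤ[X]) (I : Finset ι) : dg g I ≤ ∑ i, (g i).natDegree :=
  Finset.sum_le_univ_sum_of_nonneg (fun _ => Nat.zero_le _)

/-- if `p` splits completely then every index has a factor of odd degree -/
private theorem elfib_odd {ι : Type} [Fintype ι] {g : ι → ℤ[X]} (hg : Fam g) (p : ℕ) [Fact p.Prime] (hp : GoodP g p)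
    (i : ι) (h : PT.rt (g i) p = (g i).natDegree) : ∃ f ∈ facs (red p (g i)), Odd f.natDegree := by
  have h1 := rt_facs hg p hp i
  rw [h] at h1
  have h2 := elfib_deg hg i
  have h3 : ((facs (red p (g i))).filter fun h => h.natDegree = 1).Nonempty := by
    rw [← Finset.card_pos, h1]; omega
  obtain ⟨f, hf⟩ := h3
  rw [Finset.mem_filter] at hf
  exact ⟨f, hf.1, by rw [hf.2]; exact odd_one⟩

private theorem elfib_rts {ι : Type} (g : ι → ℤ[X]) (p : ℕ) (I : Finset ι)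
    (h : ∀ i, PT.rt (g i) p = (g i).natDegree) : rts g I p = dg g I :=
  Finset.sum_congr rfl fun i _ => h i

/-- parity of the complement -/
private theorem elfib_par {ι : Type} [Fintype ι] [DecidableEq ι] {g : ι → ℤ[X]} (hg : Fam g) (p : ℕ) [Fact p.Prime]
    (hp : GoodP g p) (I : Finset ι) (h : ¬ ∃ i, i ∉ I ∧ ∃ f ∈ facs (red p (g i)), Odd f.natDegree) : Even (dg g I) := by
  have h1 : Even (dg g Iᶜ) := by
    apply parity hg p hp
    intro i hi f hf
    by_contra hne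
    exact h ⟨i, Finset.mem_compl.mp hi, f, hf, Nat.not_even_iff_odd.mp hne⟩
  have h2 : dg g I + dg g Iᶜ = ∑ i, (g i).natDegree := Finset.sum_add_sum_compl I _
  have h3 := hg.even
  rw [← h2] at h3
  exact (Nat.even_add.mp h3).mpr h1

private theorem elfib_three {ι : Type} {g : ι → ℤ[X]} (h3 : ∀ i, 3 ≤ (g i).natDegree) (I : Finset ι)
    (hI : I.Nonempty) : 3 ≤ dg g I := by
  obtain ⟨i, hi⟩ := hI
  exact (h3 i).trans (Finset.single_le_sum (f := fun i => (g i).natDegree) (fun _ _ => Nat.zero_le _) hi)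

private theorem elfib_RP {ι : Type} [Fintype ι] (g : ι → ℤ[X]) (p : ℕ) (I : Finset ι) (h : 1 ≤ rts g I p) :
    p ∈ RP g := by
  have h1 : rts g I p ≤ rts g univ p := Finset.sum_le_sum_of_subset (Finset.subset_univ I)
  exact h.trans h1

open Classical in
private theorem elfib_kap {ι : Type} [Fintype ι] [DecidableEq ι] {g : ι → ℤ[X]} (hg : Fam g)
    (h3 : ∀ i, 3 ≤ (g i).natDegree) (S : Set ℕ)
    (hS : ∀ p ∈ S, ∀ i, PT.rt (g i) p = (g i).natDegree) (p : ℕ) [Fact p.Prime] (hp : GoodP g p) (I : Finset ι)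
    (hI : I.Nonempty) :
    (if ∃ i, i ∉ I ∧ ∃ f ∈ facs (red p (g i)), Odd f.natDegree then (1 : ℝ) else 2) * rts g I p ≤
      (PT.ind (RP g) p - PT.ind S p / 4) * 2 ^ (nu g p I - 1) := by
  obtain ⟨hn1, hn2, hn3, hn4⟩ := nu_facts hg p hp I
  have hm3 := elfib_three h3 I hI
  have hI1 : 1 ≤ I.card := Finset.card_pos.2 hI
  rcases Nat.eq_zero_or_pos (rts g I p) with h0 | h0
  · rw [h0]
    have hpS : p ∉ S := by
      intro hpS
      have h1 := elfib_rts g p I (hS p hpS)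
      omega
    have e : PT.ind S p = 0 := if_neg hpS
    have e' : 0 ≤ PT.ind (RP g) p := by unfold PT.ind; split_ifs <;> norm_num
    rw [e]
    push_cast
    rw [mul_zero]
    apply mul_nonneg (by linarith) (by positivity)
  have e0 : PT.ind (RP g) p = 1 := if_pos (elfib_RP g p I h0)
  rw [e0]
  by_cases hodd : ∃ i, i ∉ I ∧ ∃ f ∈ facs (red p (g i)), Odd f.natDegree
  · rw [if_pos hodd, one_mul]
    by_cases hpS : p ∈ S
    · have e : PT.ind S p = 1 := if_pos hpS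
      have h1 := elfib_rts g p I (hS p hpS)
      have h2 : nu g p I = dg g I := by omega
      rw [e, h1, h2]
      have := elfib_pow4 (dg g I) hm3
      linarith
    · have e : PT.ind S p = 0 := if_neg hpS
      rw [e]
      have h1 := elfib_pow1 (nu g p I) (by omega)
      have h2 : (rts g I p : ℝ) ≤ nu g p I := by exact_mod_cast hn1
      linarith
  · rw [if_neg hodd]
    have hev := elfib_par hg p hp I hodd
    have hm4 : 4 ≤ dg g I := by
      rcases Nat.lt_or_ge (dg g I) 4 with h | h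
      · have h3 : dg g I = 3 := by omega
        rw [h3] at hev
        exact absurd hev (by decide)
      · exact h
    by_cases hpS : p ∈ S
    · have e : PT.ind S p = 1 := if_pos hpS
      have h1 := elfib_rts g p I (hS p hpS)
      have h2 : nu g p I = dg g I := by omega
      have hI' : I = univ := by
        apply Finset.eq_univ_of_forall
        intro i
        by_contra hi
        exact hodd ⟨i, hi, elfib_odd hg p hp i (hS p hpS i)⟩
      have h6 : 6 ≤ dg g I := by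
        rw [hI']; exact hg.six
      rw [e, h1, h2]
      have := elfib_pow5 (dg g I) h6
      linarith
    · have e : PT.ind S p = 0 := if_neg hpS
      rw [e]
      by_cases hr : rts g I p = dg g I
      · have h2 : nu g p I = dg g I := by omega
        rw [hr, h2]
        have := elfib_pow3 (dg g I) hm4
        linarith
      · have h3 := hn3 hr
        have h4 := elfib_pow2 (rts g I p)
        have h5 : (2 : ℝ) ^ (rts g I p) ≤ 2 ^ (nu g p I - 1) := pow_le_pow_right₀ (by norm_num) (by omega)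
        linarith

theorem fib_rel {ι : Type} [Fintype ι] [DecidableEq ι] {g : ι → ℤ[X]} (hg : Fam g) (h3 : ∀ i, 3 ≤ (g i).natDegree)
    (S : Set ℕ) (hS : ∀ p ∈ S, ∀ i, PT.rt (g i) p = (g i).natDegree) :
    ∃ C0 : ℝ, 0 ≤ C0 ∧ ∀ p : ℕ, GoodP g p → ∀ I : Finset ι, I.Nonempty → ∀ y : Co g → ZMod p,
      (Nat.card {w : Co g → ZMod p // Al g p w ∧ ∀ c : Co g, c.1 ∉ I → w c = y c} : ℝ) ≤
        (p : ℝ) ^ dg g I *
          (1 - (((rts g I p : ℝ) - PT.ind (RP g) p + PT.ind S p / 4) / p - C0 / (p : ℝ) ^ 2)) := by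
  classical
  refine ⟨((∑ i, (g i).natDegree : ℕ) : ℝ) ^ 2, by positivity, ?_⟩
  intro p hp I hI y
  have : Fact p.Prime := ⟨hp.prime⟩
  obtain ⟨hn1, hn2, hn3, hn4⟩ := nu_facts hg p hp I
  refine (fib hg p hp I y).trans ?_
  have hbig : 8 * ((∑ i, (g i).natDegree : ℕ) : ℝ) ^ 2 ≤ p := by exact_mod_cast hp.big
  have hi1 : PT.ind S p ≤ 1 := by unfold PT.ind; split_ifs <;> norm_num
  have he0 : 0 ≤ PT.ind (RP g) p := by unfold PT.ind; split_ifs <;> norm_num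
  have h6 := hg.six
  have hI1 : 1 ≤ I.card := Finset.card_pos.2 hI
  have hm3 := elfib_three h3 I hI
  have hv : 2 ≤ nu g p I ∨ nu g p I = 1 ∧ rts g I p = 0 ∧ PT.ind S p = 0 := by
    rcases Nat.lt_or_ge (nu g p I) 2 with h | h
    · right
      have h1 : rts g I p ≠ dg g I := by omega
      have h2 := hn3 h1
      refine ⟨by omega, by omega, ?_⟩
      refine if_neg ?_
      intro hpS
      exact h1 (elfib_rts g p I (hS p hpS))
    · exact Or.inl h
  exact elfib_core (∑ i, (g i).natDegree) (dg g I) (rts g I p) (nu g p I) _ (p : ℝ) (PT.ind (RP g) p) (PT.ind S p)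
    (by omega) hbig hn1 hn2 (elfib_dg_le g I) hv he0 hi1 (elfib_kap hg h3 S hS p hp I hI)

end EL
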