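import Pool.Agent.Lib.MP_10e784_ag.EL.ELDefs
import Pool.Agent.Lib.MP_10e784_ag.PT.PTRtSum
import Pool.Agent.Lib.MP_10e784_ag.TW.TWRtLow

/-! JOB ELMert.  Comparison of the prime sums.

`PT.rt X p = 1` for primes `p`, so `PT.rt_sum X` and `TW.rt_low X` give `|PS 1 x - log log x| ≤ A` for `x ≥ 2` (`X` is monic and irreducible over `ℚ`).
`PS (ind R) y - PS (ind R) x = ∑_{x < p ≤ y, p ∈ R} 1 / p ≤ ∑_{x < p ≤ y} 1 / p = PS 1 y - PS 1 x ≤ log log y - log log x + 2 A`.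
`ps_pow`: for `2 ≤ x` and `a ≥ 1`: `log log (x ^ a) = log a + log log x`.
`ps_del`: the primes dividing `M` contribute at most `∑_{p ∣ M} 1/p ≤ M` (as many as `M` terms, each at most one). -/

namespace EL

open Polynomial Finset

private theorem elmert_rtX (p : ℕ) (hp : p.Prime) : PT.rt (X : ℤ[X]) p = 1 := by
  have : Fact p.Prime := ⟨hp⟩
  unfold PT.rt
  simp only [Polynomial.map_X, eval_X]
  rw [Nat.card_unique]

private theorem elmert_PS (x : ℝ) : PT.PS (fun p => (PT.rt (X : ℤ[X]) p : ℝ)) x = PT.PS (fun _ => 1) x := by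
  unfold PT.PS
  refine Finset.sum_congr rfl fun p hp => ?_
  simp only [Finset.mem_filter] at hp
  simp only [elmert_rtX p hp.2, Nat.cast_one]

private theorem elmert_one : ∃ A : ℝ, 0 ≤ A ∧ ∀ x : ℝ, 2 ≤ x →
    PT.PS (fun _ => 1) x ≤ Real.log (Real.log x) + A ∧ Real.log (Real.log x) - A ≤ PT.PS (fun _ => 1) x := by
  have hirr : Irreducible ((X : ℤ[X]).map (Int.castRingHom ℚ)) := by rw [Polynomial.map_X]; exact irreducible_X
  obtain ⟨C1, hC1⟩ := PT.rt_sum (X : ℤ[X]) hirr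
  obtain ⟨C2, hC2⟩ := TW.rt_low (X : ℤ[X]) monic_X hirr
  refine ⟨|C1| + |C2|, by positivity, fun x hx => ?_⟩
  have h1 := hC1 x hx
  have h2 := hC2 x hx
  rw [elmert_PS] at h1 h2
  constructor
  · linarith [le_abs_self C1, abs_nonneg C2]
  · linarith [le_abs_self C2, abs_nonneg C1]

private theorem elmert_split (a : ℕ → ℝ) (x y : ℝ) (hxy : x ≤ y) :
    PT.PS a y = PT.PS a x + ∑ p ∈ (Ioc ⌊x⌋₊ ⌊y⌋₊).filter Nat.Prime, a p / p := by
  unfold PT.PS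
  have h1 : ⌊x⌋₊ ≤ ⌊y⌋₊ := Nat.floor_le_floor hxy
  have h2 : (Icc 1 ⌊y⌋₊).filter Nat.Prime = (Icc 1 ⌊x⌋₊).filter Nat.Prime ∪ (Ioc ⌊x⌋₊ ⌊y⌋₊).filter Nat.Prime := by
    ext p
    simp only [mem_filter, mem_Icc, mem_union, mem_Ioc]
    constructor
    · rintro ⟨⟨h3, h4⟩, h5⟩
      rcases le_or_gt p ⌊x⌋₊ with h6 | h6
      · exact Or.inl ⟨⟨h3, h6⟩, h5⟩
      · exact Or.inr ⟨⟨h6, h4⟩, h5⟩
    · rintro (⟨⟨h3, h4⟩, h5⟩ | ⟨⟨h3, h4⟩, h5⟩)
      · exact ⟨⟨h3, h4.trans h1⟩, h5⟩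
      · exact ⟨⟨by omega, h4⟩, h5⟩
  rw [h2, Finset.sum_union]
  rw [Finset.disjoint_left]
  intro p hp hp'
  simp only [mem_filter, mem_Icc, mem_Ioc] at hp hp'
  omega

private theorem elmert_ind (R : Set ℕ) (p : ℕ) : 0 ≤ PT.ind R p ∧ PT.ind R p ≤ 1 := by
  unfold PT.ind
  split_ifs <;> norm_num

theorem ps_shift : ∃ A : ℝ, 0 ≤ A ∧ ∀ (R : Set ℕ) (x y : ℝ), 2 ≤ x → x ≤ y →
    PT.PS (PT.ind R) y ≤ PT.PS (PT.ind R) x + Real.log (Real.log y) - Real.log (Real.log x) + A := by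
  obtain ⟨A, hA, h⟩ := elmert_one
  refine ⟨2 * A, by linarith, fun R x y hx hxy => ?_⟩
  rw [elmert_split (PT.ind R) x y hxy]
  have h1 := (h x hx).2
  have h2 := (h y (hx.trans hxy)).1
  rw [elmert_split (fun _ => 1) x y hxy] at h2
  have h3 : ∑ p ∈ (Ioc ⌊x⌋₊ ⌊y⌋₊).filter Nat.Prime, PT.ind R p / p ≤
      ∑ p ∈ (Ioc ⌊x⌋₊ ⌊y⌋₊).filter Nat.Prime, (1 : ℝ) / p := by
    apply Finset.sum_le_sum
    intro p _
    exact div_le_div_of_nonneg_right (elmert_ind R p).2 (Nat.cast_nonneg p)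
  linarith

theorem ps_mono (R : Set ℕ) (x y : ℝ) (hxy : x ≤ y) : PT.PS (PT.ind R) x ≤ PT.PS (PT.ind R) y := by
  rw [elmert_split (PT.ind R) x y hxy]
  have h3 : 0 ≤ ∑ p ∈ (Ioc ⌊x⌋₊ ⌊y⌋₊).filter Nat.Prime, PT.ind R p / p := by
    apply Finset.sum_nonneg
    intro p _
    exact div_nonneg (elmert_ind R p).1 (Nat.cast_nonneg p)
  linarith

theorem ps_pow : ∃ A : ℝ, 0 ≤ A ∧ ∀ (R : Set ℕ) (x a : ℝ), 2 ≤ x → 1 ≤ a →
    PT.PS (PT.ind R) (x ^ a) ≤ PT.PS (PT.ind R) x + Real.log a + A := by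
  obtain ⟨A, hA, h⟩ := ps_shift
  refine ⟨A, hA, fun R x a hx ha => ?_⟩
  have hx1 : 1 ≤ x := by linarith
  have h1 := h R x (x ^ a) hx (by simpa using Real.rpow_le_rpow_of_exponent_le hx1 ha)
  have h2 : Real.log (Real.log (x ^ a)) = Real.log a + Real.log (Real.log x) := by
    rw [Real.log_rpow (by linarith), Real.log_mul (by linarith)]
    exact (Real.log_pos (by linarith)).ne'
  rw [h2] at h1
  linarith

theorem ps_del (R : Set ℕ) (M : ℕ) (hM : M ≠ 0) (x : ℝ) :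
    PT.PS (PT.ind R) x ≤ PT.PS (PT.ind {p | p ∈ R ∧ ¬ p ∣ M}) x + M := by
  unfold PT.PS
  have h1 : ∀ p ∈ (Icc 1 ⌊x⌋₊).filter Nat.Prime, PT.ind R p / p ≤
      PT.ind {p | p ∈ R ∧ ¬ p ∣ M} p / p + (if p ∣ M then 1 else 0) := by
    intro p hp
    simp only [mem_filter, mem_Icc] at hp
    have hp1 : (1 : ℝ) ≤ p := by exact_mod_cast hp.1.1
    by_cases hpM : p ∣ M
    · rw [if_pos hpM]
      have h2 : PT.ind R p / p ≤ 1 := by
        rw [div_le_one (by linarith)]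
        linarith [(elmert_ind R p).2]
      have h3 : 0 ≤ PT.ind {p | p ∈ R ∧ ¬ p ∣ M} p / p := div_nonneg (elmert_ind _ p).1 (by linarith)
      linarith
    · rw [if_neg hpM, add_zero]
      apply le_of_eq
      congr 1
      unfold PT.ind
      by_cases hpR : p ∈ R
      · rw [if_pos hpR, if_pos (show p ∈ {p | p ∈ R ∧ ¬ p ∣ M} from ⟨hpR, hpM⟩)]
      · rw [if_neg hpR, if_neg (fun h : p ∈ {p | p ∈ R ∧ ¬ p ∣ M} => hpR h.1)]
  refine (Finset.sum_le_sum h1).trans ?_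
  rw [Finset.sum_add_distrib, Finset.sum_ite, Finset.sum_const_zero, add_zero, Finset.sum_const, nsmul_eq_mul, mul_one]
  have h2 : (((Icc 1 ⌊x⌋₊).filter Nat.Prime).filter (fun p => p ∣ M)).card ≤ M := by
    calc (((Icc 1 ⌊x⌋₊).filter Nat.Prime).filter (fun p => p ∣ M)).card ≤ (Icc 1 M).card := by
          apply Finset.card_le_card
          intro p hp
          simp only [Finset.mem_filter, Finset.mem_Icc] at hp ⊢
          exact ⟨hp.1.1.1, Nat.le_of_dvd (Nat.pos_of_ne_zero hM) hp.2⟩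
      _ = M := by simp
  have h3 : ((((Icc 1 ⌊x⌋₊).filter Nat.Prime).filter (fun p => p ∣ M)).card : ℝ) ≤ M := by exact_mod_cast h2
  linarith

end EL
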