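import Pool.Agent.Lib.MP_10e784_ag.EL.ELDefs

/-! JOB ELSumJ.  The sum over the layers.

Let `k = Fintype.card ι`, `T = ∑ j i`, `m = univ.sup j`, `T0 = Nat.log 2 N`, `H = ∑_{a ≤ T0} 1 / (1 + a) ≤ 1 + log (1 + T0)`.
If `k ≥ 1`: `1 + T ≤ k (1 + m)`, so `(1 + m) ^ (-δ) ≤ k ^ δ (1 + T) ^ (-δ)`; and `1 + T ≤ ∑ i₀, (1 + j i₀)`, so
`∏ (1 + j i)⁻¹ ≤ (1 + T)⁻¹ ∑ i₀, ∏_{i ≠ i₀} (1 + j i)⁻¹`.  For fixed `i₀` the map `j ↦ (T, j with j i₀ replaced by 0)` is injective,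
so the sum is at most `k ^ (1 + δ) H ^ k ∑_{T ≤ T0} 2 ^ T (1 + T) ^ (-(1 + δ))`.
`∑_{T ≤ n} 2 ^ T (1 + T) ^ (-c) ≤ B 2 ^ n (1 + n) ^ (-c)` by induction (the ratio of consecutive terms is at least `4/3` eventually),
`H ^ k ≤ C (1 + T0) ^ (δ / 2)`, `2 ^ T0 ≤ N` and `log N ≤ 1 + T0`. -/

namespace EL

open Finset

private theorem elsumj_geom (c : ℝ) (hc : 0 < c) : ∃ B : ℝ, 0 < B ∧ ∀ n : ℕ,
    ∑ T ∈ range (n + 1), (2 : ℝ) ^ T * (1 + T : ℝ) ^ (-c) ≤ B * ((2 : ℝ) ^ n * (1 + n : ℝ) ^ (-c)) := by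
  have hpos : ∀ n : ℕ, 0 < (2 : ℝ) ^ n * (1 + n : ℝ) ^ (-c) := fun n => by positivity
  have hlog : 0 < Real.log (3 / 2) := Real.log_pos (by norm_num)
  obtain ⟨n0, hn0⟩ := exists_nat_ge (c / Real.log (3 / 2))
  have hstep : ∀ n : ℕ, n0 ≤ n → 4 * ((2 : ℝ) ^ n * (1 + n : ℝ) ^ (-c)) ≤
      3 * ((2 : ℝ) ^ (n + 1) * (1 + (n + 1 : ℕ) : ℝ) ^ (-c)) := by
    intro n hn
    have h1 : (0 : ℝ) < 1 + n := by positivity
    have h2 : (0 : ℝ) < 1 + (n + 1 : ℕ) := by positivity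
    have hratio : (1 + (n + 1 : ℕ) : ℝ) ^ c ≤ 3 / 2 * (1 + n : ℝ) ^ c := by
      have e1 : (1 + (n + 1 : ℕ) : ℝ) = (1 + n) * (1 + 1 / (1 + n)) := by
        push_cast
        field_simp
        ring
      rw [e1, Real.mul_rpow h1.le (by positivity), mul_comm]
      refine mul_le_mul_of_nonneg_right ?_ (by positivity)
      have h3 : (1 + 1 / (1 + (n : ℝ))) ^ c ≤ Real.exp (c / (1 + n)) := by
        have h4 : 1 + 1 / (1 + (n : ℝ)) ≤ Real.exp (1 / (1 + n)) := by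
          have := Real.add_one_le_exp (1 / (1 + (n : ℝ)))
          linarith
        refine (Real.rpow_le_rpow (by positivity) h4 hc.le).trans (le_of_eq ?_)
        rw [← Real.exp_mul]
        congr 1
        field_simp
      refine h3.trans ?_
      rw [← Real.le_log_iff_exp_le (by norm_num)]
      rw [div_le_iff₀ h1]
      rw [div_le_iff₀ hlog] at hn0
      have h5 : (n0 : ℝ) ≤ 1 + n := by
        have : (n0 : ℝ) ≤ n := by exact_mod_cast hn
        linarith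
      calc c ≤ n0 * Real.log (3 / 2) := hn0
        _ ≤ (1 + n) * Real.log (3 / 2) := mul_le_mul_of_nonneg_right h5 hlog.le
        _ = Real.log (3 / 2) * (1 + n) := mul_comm _ _
    rw [Real.rpow_neg h1.le, Real.rpow_neg h2.le, pow_succ]
    have h6 : 0 < (1 + n : ℝ) ^ c := by positivity
    have h7 : 0 < (1 + (n + 1 : ℕ) : ℝ) ^ c := by positivity
    have h8 : ((1 + n : ℝ) ^ c)⁻¹ ≤ 3 / 2 * ((1 + (n + 1 : ℕ) : ℝ) ^ c)⁻¹ := by
      rw [← div_eq_mul_inv, le_div_iff₀ h7, inv_mul_le_iff₀ h6]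
      linarith
    have h9 : (0 : ℝ) < 2 ^ n := by positivity
    calc 4 * ((2 : ℝ) ^ n * ((1 + n : ℝ) ^ c)⁻¹)
        ≤ 4 * ((2 : ℝ) ^ n * (3 / 2 * ((1 + (n + 1 : ℕ) : ℝ) ^ c)⁻¹)) := by
          refine mul_le_mul_of_nonneg_left (mul_le_mul_of_nonneg_left h8 h9.le) (by norm_num)
      _ = 3 * ((2 : ℝ) ^ n * 2 * ((1 + (n + 1 : ℕ) : ℝ) ^ c)⁻¹) := by ring
  let S : ℕ → ℝ := fun n => ∑ T ∈ range (n + 1), (2 : ℝ) ^ T * (1 + T : ℝ) ^ (-c)
  have hS : ∀ n, 0 ≤ S n := fun n => sum_nonneg fun T _ => (hpos T).le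
  let B : ℝ := 4 + ∑ n ∈ range (n0 + 1), S n / ((2 : ℝ) ^ n * (1 + n : ℝ) ^ (-c))
  have hB4 : 4 ≤ B := by
    have : 0 ≤ ∑ n ∈ range (n0 + 1), S n / ((2 : ℝ) ^ n * (1 + n : ℝ) ^ (-c)) :=
      sum_nonneg fun n _ => div_nonneg (hS n) (hpos n).le
    simp only [B]
    linarith
  have hsmall : ∀ n, n ≤ n0 → S n ≤ B * ((2 : ℝ) ^ n * (1 + n : ℝ) ^ (-c)) := by
    intro n hn
    rw [← div_le_iff₀ (hpos n)]
    have h1 := single_le_sum (f := fun n : ℕ => S n / ((2 : ℝ) ^ n * (1 + n : ℝ) ^ (-c)))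
      (fun i _ => div_nonneg (hS i) (hpos i).le) (mem_range.2 (Nat.lt_succ_of_le hn))
    simp only [B]
    linarith
  refine ⟨B, by linarith, fun n => ?_⟩
  change S n ≤ _
  rcases le_total n n0 with h | h
  · exact hsmall n h
  · induction n, h using Nat.le_induction with
    | base => exact hsmall n0 le_rfl
    | succ n hn ih =>
      have h1 : S (n + 1) = S n + (2 : ℝ) ^ (n + 1) * (1 + (n + 1 : ℕ) : ℝ) ^ (-c) := by
        simp only [S]
        rw [sum_range_succ]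
      rw [h1]
      have h2 := hstep n hn
      have h3 := hpos (n + 1)
      have h4 := hpos n
      have h5 : B * ((2 : ℝ) ^ n * (1 + n : ℝ) ^ (-c)) ≤
          B * (3 / 4 * ((2 : ℝ) ^ (n + 1) * (1 + (n + 1 : ℕ) : ℝ) ^ (-c))) :=
        mul_le_mul_of_nonneg_left (by linarith) (by linarith)
      nlinarith [mul_le_mul_of_nonneg_right hB4 h3.le]

private theorem elsumj_harm (k : ℕ) (δ : ℝ) (hδ : 0 < δ) : ∃ C : ℝ, 0 < C ∧ ∀ n : ℕ,
    (∑ a ∈ range (n + 1), (1 + a : ℝ)⁻¹) ^ k ≤ C * (1 + n : ℝ) ^ (δ / 2) := by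
  rcases Nat.eq_zero_or_pos k with hk | hk
  · subst hk
    refine ⟨1, one_pos, fun n => ?_⟩
    rw [pow_zero, one_mul]
    exact Real.one_le_rpow (by have : (0 : ℝ) ≤ n := n.cast_nonneg
                               linarith) (by linarith)
  · have hkR : (0 : ℝ) < k := by exact_mod_cast hk
    have hε : 0 < δ / (2 * k) := by positivity
    refine ⟨(1 + 1 / (δ / (2 * k))) ^ k, by positivity, fun n => ?_⟩
    have h1 : (0 : ℝ) < 1 + n := by positivity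
    have hone : (1 : ℝ) ≤ (1 + n : ℝ) ^ (δ / (2 * k)) :=
      Real.one_le_rpow (by have : (0 : ℝ) ≤ n := n.cast_nonneg
                           linarith) hε.le
    have hH : ∑ a ∈ range (n + 1), (1 + a : ℝ)⁻¹ ≤ 1 + Real.log (1 + n) := by
      have h2 := harmonic_le_one_add_log (n + 1)
      rw [harmonic] at h2
      push_cast at h2
      rw [show (1 + n : ℝ) = n + 1 by ring]
      refine le_trans (le_of_eq ?_) h2
      exact sum_congr rfl fun a _ => by rw [add_comm]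
    have hlog : Real.log (1 + n) ≤ (1 + n : ℝ) ^ (δ / (2 * k)) / (δ / (2 * k)) :=
      Real.log_le_rpow_div h1.le hε
    have h3 : ∑ a ∈ range (n + 1), (1 + a : ℝ)⁻¹ ≤
        (1 + 1 / (δ / (2 * k))) * (1 + n : ℝ) ^ (δ / (2 * k)) := by
      calc ∑ a ∈ range (n + 1), (1 + a : ℝ)⁻¹ ≤ 1 + Real.log (1 + n) := hH
        _ ≤ (1 + n : ℝ) ^ (δ / (2 * k)) + (1 + n : ℝ) ^ (δ / (2 * k)) / (δ / (2 * k)) :=
          add_le_add hone hlog
        _ = _ := by ring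
    calc (∑ a ∈ range (n + 1), (1 + a : ℝ)⁻¹) ^ k
        ≤ ((1 + 1 / (δ / (2 * k))) * (1 + n : ℝ) ^ (δ / (2 * k))) ^ k :=
          pow_le_pow_left₀ (sum_nonneg fun a _ => by positivity) h3 k
      _ = (1 + 1 / (δ / (2 * k))) ^ k * (1 + n : ℝ) ^ (δ / 2) := by
          rw [mul_pow, ← Real.rpow_natCast ((1 + n : ℝ) ^ (δ / (2 * k))) k, ← Real.rpow_mul h1.le]
          congr 2
          field_simp

private theorem elsumj_term (ι : Type) [Fintype ι] [DecidableEq ι] [Nonempty ι] (δ : ℝ) (hδ : 0 < δ)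
    (j : ι → ℕ) :
    (2 : ℝ) ^ (∑ i, j i) * (∏ i, (1 + j i : ℝ)⁻¹) * (1 + ((univ.sup j : ℕ) : ℝ)) ^ (-δ) ≤
      (Fintype.card ι : ℝ) ^ δ * ∑ i0, ((2 : ℝ) ^ (∑ i, j i) * (1 + (∑ i, j i : ℕ) : ℝ) ^ (-(1 + δ)) *
        ∏ i, (1 + (Function.update j i0 0 i : ℕ) : ℝ)⁻¹) := by
  have hk : (1 : ℝ) ≤ Fintype.card ι := by exact_mod_cast Fintype.card_pos
  have hT : (0 : ℝ) < 1 + (∑ i, j i : ℕ) := by positivity
  have hm : (0 : ℝ) < 1 + ((univ.sup j : ℕ) : ℝ) := by positivity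
  have hsup : (1 + (∑ i, j i : ℕ) : ℝ) ≤ Fintype.card ι * (1 + ((univ.sup j : ℕ) : ℝ)) := by
    have h1 : ∑ i, j i ≤ Fintype.card ι * univ.sup j := by
      calc ∑ i, j i ≤ ∑ _i : ι, univ.sup j := sum_le_sum fun i hi => le_sup (f := j) hi
        _ = Fintype.card ι * univ.sup j := by simp
    have h2 : ((∑ i, j i : ℕ) : ℝ) ≤ Fintype.card ι * ((univ.sup j : ℕ) : ℝ) := by exact_mod_cast h1
    linarith
  have hδm : (1 + ((univ.sup j : ℕ) : ℝ)) ^ (-δ) ≤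
      (Fintype.card ι : ℝ) ^ δ * (1 + (∑ i, j i : ℕ) : ℝ) ^ (-δ) := by
    rw [Real.rpow_neg hm.le, Real.rpow_neg hT.le, ← div_eq_mul_inv, le_div_iff₀ (by positivity),
      inv_mul_le_iff₀ (by positivity), mul_comm ((1 + ((univ.sup j : ℕ) : ℝ)) ^ δ),
      ← Real.mul_rpow (by positivity) hm.le]
    exact Real.rpow_le_rpow hT.le hsup hδ.le
  have hprod : ∀ i0, ∏ i, (1 + (Function.update j i0 0 i : ℕ) : ℝ)⁻¹ =
      (1 + j i0) * ∏ i, (1 + j i : ℝ)⁻¹ := by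
    intro i0
    rw [← mul_prod_erase univ _ (mem_univ i0), ← mul_prod_erase univ (fun i => (1 + j i : ℝ)⁻¹) (mem_univ i0)]
    have h1 : ∏ i ∈ univ.erase i0, (1 + (Function.update j i0 0 i : ℕ) : ℝ)⁻¹ =
        ∏ i ∈ univ.erase i0, (1 + j i : ℝ)⁻¹ :=
      prod_congr rfl fun i hi => by rw [Function.update_of_ne (ne_of_mem_erase hi)]
    rw [h1, Function.update_self]
    have h2 : (1 + j i0 : ℝ) ≠ 0 := by positivity
    field_simp
    simp
  have hsum : (1 + (∑ i, j i : ℕ) : ℝ) * ∏ i, (1 + j i : ℝ)⁻¹ ≤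
      ∑ i0, ∏ i, (1 + (Function.update j i0 0 i : ℕ) : ℝ)⁻¹ := by
    rw [sum_congr rfl fun i0 _ => hprod i0, ← sum_mul]
    refine mul_le_mul_of_nonneg_right ?_ (by positivity)
    rw [sum_add_distrib]
    push_cast
    simp only [sum_const, card_univ, nsmul_eq_mul, mul_one]
    linarith
  rw [← mul_sum]
  have hP : ∏ i, (1 + j i : ℝ)⁻¹ ≤ (1 + (∑ i, j i : ℕ) : ℝ)⁻¹ *
      ∑ i0, ∏ i, (1 + (Function.update j i0 0 i : ℕ) : ℝ)⁻¹ := by
    rw [← div_eq_inv_mul, le_div_iff₀ hT, mul_comm]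
    exact hsum
  have hexp : (1 + (∑ i, j i : ℕ) : ℝ) ^ (-(1 + δ)) = (1 + (∑ i, j i : ℕ) : ℝ)⁻¹ * (1 + (∑ i, j i : ℕ) : ℝ) ^ (-δ) := by
    rw [neg_add, Real.rpow_add hT, Real.rpow_neg_one]
  rw [hexp]
  have hQ : 0 ≤ ∑ i0, ∏ i, (1 + (Function.update j i0 0 i : ℕ) : ℝ)⁻¹ :=
    sum_nonneg fun _ _ => prod_nonneg fun _ _ => by positivity
  calc (2 : ℝ) ^ (∑ i, j i) * (∏ i, (1 + j i : ℝ)⁻¹) * (1 + ((univ.sup j : ℕ) : ℝ)) ^ (-δ)
      ≤ (2 : ℝ) ^ (∑ i, j i) * ((1 + (∑ i, j i : ℕ) : ℝ)⁻¹ *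
          ∑ i0, ∏ i, (1 + (Function.update j i0 0 i : ℕ) : ℝ)⁻¹) *
          ((Fintype.card ι : ℝ) ^ δ * (1 + (∑ i, j i : ℕ) : ℝ) ^ (-δ)) := by
        refine mul_le_mul (mul_le_mul_of_nonneg_left hP (by positivity)) hδm (by positivity) ?_
        exact mul_nonneg (by positivity) (mul_nonneg (by positivity) hQ)
    _ = _ := by ring

private theorem elsumj_inj (ι : Type) [Fintype ι] [DecidableEq ι] (i0 : ι) (j j' : ι → ℕ)
    (h1 : ∑ i, j i = ∑ i, j' i) (h2 : Function.update j i0 0 = Function.update j' i0 0) : j = j' := by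
  have h3 : ∀ i, i ≠ i0 → j i = j' i := by
    intro i hi
    have := congrFun h2 i
    rwa [Function.update_of_ne hi, Function.update_of_ne hi] at this
  have h4 : j i0 = j' i0 := by
    rw [← add_sum_erase univ j (mem_univ i0), ← add_sum_erase univ j' (mem_univ i0)] at h1
    have h5 : ∑ i ∈ univ.erase i0, j i = ∑ i ∈ univ.erase i0, j' i :=
      sum_congr rfl fun i hi => h3 i (ne_of_mem_erase hi)
    omega
  funext i
  by_cases hi : i = i0
  · rw [hi, h4]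
  · exact h3 i hi

private theorem elsumj_sub {α β : Type} [DecidableEq β] (s : Finset α) (t : Finset β) (g : α → β) (f : β → ℝ)
    (hf : ∀ x, 0 ≤ f x) (hg : ∀ x y, g x = g y → x = y) (hst : ∀ x ∈ s, g x ∈ t) :
    ∑ x ∈ s, f (g x) ≤ ∑ y ∈ t, f y := by
  rw [← sum_image (f := f) (g := g) (fun x _ y _ h => hg x y h)]
  exact sum_le_sum_of_subset_of_nonneg (image_subset_iff.2 hst) fun x _ _ => hf x

private theorem elsumj_final (δ : ℝ) (hδ : 0 < δ) (N T0 : ℕ) (hN : 2 ≤ N) (hT0 : T0 = Nat.log 2 N) :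
    (2 : ℝ) ^ T0 * ((1 + T0 : ℝ) ^ (1 + δ / 2))⁻¹ ≤ N * (Real.log N ^ (1 + δ / 2))⁻¹ := by
  have hNR : (2 : ℝ) ≤ N := by exact_mod_cast hN
  have hlogpos : 0 < Real.log N := Real.log_pos (by linarith)
  have hT0pos : (0 : ℝ) < 1 + T0 := by positivity
  have hlogle : Real.log N ≤ 1 + T0 := by
    have h1 : N < 2 ^ (T0 + 1) := by
      rw [hT0]
      exact Nat.lt_pow_succ_log_self Nat.one_lt_two N
    have h2 : (N : ℝ) ≤ 2 ^ (T0 + 1) := by exact_mod_cast h1.le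
    have h3 : Real.log N ≤ Real.log (2 ^ (T0 + 1)) := Real.log_le_log (by linarith) h2
    rw [Real.log_pow] at h3
    have h4 : Real.log 2 ≤ 1 := by
      have := Real.log_le_sub_one_of_pos (show (0 : ℝ) < 2 by norm_num)
      linarith
    push_cast at h3
    nlinarith
  have hpow : (2 : ℝ) ^ T0 ≤ N := by
    have h1 : 2 ^ T0 ≤ N := by
      rw [hT0]
      exact Nat.pow_log_le_self 2 (by omega)
    exact_mod_cast h1
  refine mul_le_mul hpow ?_ (by positivity) (by positivity)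
  refine inv_anti₀ (by positivity) ?_
  exact Real.rpow_le_rpow hlogpos.le hlogle (by linarith)

theorem sum_rel (ι : Type) [Fintype ι] [DecidableEq ι] (δ : ℝ) (hδ : 0 < δ) : ∃ A : ℝ, 0 < A ∧ ∀ N : ℕ, 2 ≤ N →
    ∑ j ∈ (Fintype.piFinset fun _ : ι => range (N + 1)).filter (fun j => 2 ^ (∑ i, j i) ≤ N),
      (2 : ℝ) ^ (∑ i, j i) * (∏ i, (1 + j i : ℝ)⁻¹) * (1 + ((univ.sup j : ℕ) : ℝ)) ^ (-δ) ≤
      A * N / Real.log N ^ (1 + δ / 2) := by
  obtain ⟨B, hB, hgeom⟩ := elsumj_geom (1 + δ) (by linarith)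
  obtain ⟨C, hC, hharm⟩ := elsumj_harm (Fintype.card ι) δ hδ
  obtain ⟨K, hK⟩ : ∃ K : ℝ, K = (Fintype.card ι : ℝ) ^ δ * Fintype.card ι + 1 := ⟨_, rfl⟩
  have hKpos : 1 ≤ K := by
    rw [hK]
    have : 0 ≤ (Fintype.card ι : ℝ) ^ δ * Fintype.card ι := by positivity
    linarith
  have hKpos' : 0 < K := by linarith
  refine ⟨K * (C * B), by positivity, fun N hN => ?_⟩
  obtain ⟨T0, hT0⟩ : ∃ T0, T0 = Nat.log 2 N := ⟨_, rfl⟩
  obtain ⟨H, hH⟩ : ∃ H : ℝ, H = ∑ a ∈ range (T0 + 1), (1 + a : ℝ)⁻¹ := ⟨_, rfl⟩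
  obtain ⟨Sg, hSg⟩ : ∃ Sg : ℝ, Sg = ∑ T ∈ range (T0 + 1), (2 : ℝ) ^ T * (1 + T : ℝ) ^ (-(1 + δ)) := ⟨_, rfl⟩
  have hH1 : 1 ≤ H := by
    rw [hH, sum_range_succ']
    have : 0 ≤ ∑ k ∈ range T0, (1 + (k + 1 : ℕ) : ℝ)⁻¹ := sum_nonneg fun _ _ => by positivity
    simp only [Nat.cast_zero, add_zero, inv_one]
    linarith
  have hSg1 : 1 ≤ Sg := by
    rw [hSg, sum_range_succ']
    have : 0 ≤ ∑ k ∈ range T0, (2 : ℝ) ^ (k + 1) * (1 + (k + 1 : ℕ) : ℝ) ^ (-(1 + δ)) :=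
      sum_nonneg fun _ _ => by positivity
    simp only [Nat.cast_zero, add_zero, pow_zero, Real.one_rpow, mul_one]
    linarith
  have hT0pos : (0 : ℝ) < 1 + T0 := by positivity
  have hSg0 : 0 ≤ Sg := by linarith
  have hmain : ∑ j ∈ (Fintype.piFinset fun _ : ι => range (N + 1)).filter (fun j => 2 ^ (∑ i, j i) ≤ N),
      (2 : ℝ) ^ (∑ i, j i) * (∏ i, (1 + j i : ℝ)⁻¹) * (1 + ((univ.sup j : ℕ) : ℝ)) ^ (-δ) ≤
      K * (H ^ (Fintype.card ι) * Sg) := by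
    rcases isEmpty_or_nonempty ι with he | he
    · have hone : 1 ≤ H ^ (Fintype.card ι) * Sg := by
        have := one_le_pow₀ (n := Fintype.card ι) hH1
        nlinarith
      have h1 : ∀ j ∈ (Fintype.piFinset fun _ : ι => range (N + 1)).filter (fun j => 2 ^ (∑ i, j i) ≤ N),
          (2 : ℝ) ^ (∑ i, j i) * (∏ i, (1 + j i : ℝ)⁻¹) * (1 + ((univ.sup j : ℕ) : ℝ)) ^ (-δ) ≤ 1 := by
        intro j _
        simp
      refine (sum_le_card_nsmul _ _ 1 h1).trans ?_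
      have h2 : ((Fintype.piFinset fun _ : ι => range (N + 1)).filter (fun j => 2 ^ (∑ i, j i) ≤ N)).card ≤ 1 :=
        card_le_one.2 fun a _ b _ => Subsingleton.elim a b
      have h3 : ((((Fintype.piFinset fun _ : ι => range (N + 1)).filter
          (fun j => 2 ^ (∑ i, j i) ≤ N)).card : ℕ) : ℝ) ≤ 1 := by exact_mod_cast h2
      rw [nsmul_eq_mul, mul_one]
      nlinarith
    · refine (sum_le_sum fun j _ => elsumj_term ι δ hδ j).trans ?_
      rw [← mul_sum, sum_comm]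
      have hi0 : ∀ i0 : ι, ∑ j ∈ (Fintype.piFinset fun _ : ι => range (N + 1)).filter
          (fun j => 2 ^ (∑ i, j i) ≤ N), ((2 : ℝ) ^ (∑ i, j i) * (1 + (∑ i, j i : ℕ) : ℝ) ^ (-(1 + δ)) *
          ∏ i, (1 + (Function.update j i0 0 i : ℕ) : ℝ)⁻¹) ≤ H ^ (Fintype.card ι) * Sg := by
        intro i0
        obtain ⟨F, hF⟩ : ∃ F : ℕ × (ι → ℕ) → ℝ, ∀ x, F x = (2 : ℝ) ^ x.1 * (1 + (x.1 : ℕ) : ℝ) ^ (-(1 + δ)) *
            ∏ i, (1 + (x.2 i : ℕ) : ℝ)⁻¹ := ⟨_, fun _ => rfl⟩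
        have hF0 : ∀ x, 0 ≤ F x := fun x => by
          rw [hF]
          positivity
        have h1 := elsumj_sub ((Fintype.piFinset fun _ : ι => range (N + 1)).filter
          (fun j => 2 ^ (∑ i, j i) ≤ N)) (range (T0 + 1) ×ˢ Fintype.piFinset (fun _ : ι => range (T0 + 1)))
          (fun j : ι → ℕ => ((∑ i, j i : ℕ), Function.update j i0 0)) F hF0
          (fun j j' h => by
            rw [Prod.mk.injEq] at h
            exact elsumj_inj ι i0 j j' h.1 h.2)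
          (fun j hj => by
            rw [mem_filter] at hj
            have hT : ∑ i, j i ≤ T0 := by
              rw [hT0]
              exact Nat.le_log_of_pow_le Nat.one_lt_two hj.2
            rw [mem_product, Fintype.mem_piFinset]
            refine ⟨mem_range.2 (Nat.lt_succ_of_le hT), fun i => ?_⟩
            rw [mem_range]
            by_cases hi : i = i0
            · subst hi
              simp
            · simp only [Function.update_of_ne hi]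
              have := single_le_sum (f := j) (fun i _ => Nat.zero_le _) (mem_univ i)
              omega)
        refine le_trans (le_of_eq (sum_congr rfl fun j _ => (hF (∑ i, j i, Function.update j i0 0)).symm)) (h1.trans (le_of_eq ?_))
        rw [sum_congr rfl fun x _ => hF x]
        rw [sum_product, hH, hSg]
        have h2 : (∑ a ∈ range (T0 + 1), (1 + a : ℝ)⁻¹) ^ (Fintype.card ι) =
            ∑ y ∈ Fintype.piFinset (fun _ : ι => range (T0 + 1)), ∏ i, (1 + (y i : ℕ) : ℝ)⁻¹ := by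
          rw [← prod_univ_sum (fun _ : ι => range (T0 + 1)) (fun _ a => (1 + (a : ℕ) : ℝ)⁻¹)]
          rw [prod_const, card_univ]
        rw [h2, sum_mul_sum, sum_comm]
        exact sum_congr rfl fun T _ => sum_congr rfl fun y _ => mul_comm _ _
      refine (mul_le_mul_of_nonneg_left (sum_le_sum fun i0 _ => hi0 i0) (by positivity)).trans ?_
      calc (Fintype.card ι : ℝ) ^ δ * ∑ _i : ι, (H ^ (Fintype.card ι) * Sg)
        _ = (Fintype.card ι : ℝ) ^ δ * Fintype.card ι * (H ^ (Fintype.card ι) * Sg) := by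
            rw [sum_const, card_univ, nsmul_eq_mul]
            ring
        _ ≤ K * (H ^ (Fintype.card ι) * Sg) := by
            refine mul_le_mul_of_nonneg_right ?_ (by positivity)
            rw [hK]
            linarith
  refine hmain.trans ?_
  clear hmain
  have h1 : H ^ (Fintype.card ι) * Sg ≤ (C * (1 + T0 : ℝ) ^ (δ / 2)) *
      (B * ((2 : ℝ) ^ T0 * (1 + T0 : ℝ) ^ (-(1 + δ)))) := by
    refine mul_le_mul ?_ ?_ hSg0 (by positivity)
    · rw [hH]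
      exact hharm T0
    · rw [hSg]
      exact hgeom T0
  have h2 : (C * (1 + T0 : ℝ) ^ (δ / 2)) * (B * ((2 : ℝ) ^ T0 * (1 + T0 : ℝ) ^ (-(1 + δ)))) =
      (C * B) * ((2 : ℝ) ^ T0 * ((1 + T0 : ℝ) ^ (1 + δ / 2))⁻¹) := by
    have h3 : (1 + T0 : ℝ) ^ (δ / 2) * (1 + T0 : ℝ) ^ (-(1 + δ)) = ((1 + T0 : ℝ) ^ (1 + δ / 2))⁻¹ := by
      rw [← Real.rpow_add hT0pos, ← Real.rpow_neg hT0pos.le]
      congr 1
      ring
    rw [← h3]
    ring
  have h4 := elsumj_final δ hδ N T0 hN hT0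
  calc K * (H ^ (Fintype.card ι) * Sg) ≤ K * ((C * B) * ((2 : ℝ) ^ T0 * ((1 + T0 : ℝ) ^ (1 + δ / 2))⁻¹)) := by
        refine mul_le_mul_of_nonneg_left ?_ hKpos'.le
        rw [← h2]
        exact h1
    _ ≤ K * ((C * B) * (N * (Real.log N ^ (1 + δ / 2))⁻¹)) :=
        mul_le_mul_of_nonneg_left (mul_le_mul_of_nonneg_left h4 (by positivity)) hKpos'.le
    _ = K * (C * B) * N / Real.log N ^ (1 + δ / 2) := by
        rw [div_eq_mul_inv]
        ring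

end EL
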