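import Pool.Agent.Lib.MP_10e784_ag.EL.ELLoc
import Pool.Agent.Lib.MP_10e784_ag.EL.ELComb
import Pool.Agent.Lib.MP_10e784_ag.EL.ELUp
import Pool.Agent.Lib.MP_10e784_ag.TW.TWGen
import Pool.Agent.Lib.MP_10e784_ag.TW.TWRed

/-! JOB ELFin.  The final theorem.

`low`: `Q` from `local_sol`, `Q' = Q * D0.natAbs`, `c, y0` from `comb` for `Q'`.  For `N` large let `y = N / |D0| ≥ y0`; every `m` counted by `comb` gives `D = D0 * m`: squarefree (`m` squarefree and coprime to `D0`), `|D| ≤ N`, `ELS F D` (`local_sol`), injectively.  So the count is at least `c * (y / log y) * exp (TT g y)`, `y = N / |D0|`, `log y ≤ log N`, and `TT g N ≤ TT g y + log log N - log log y + A ≤ TT g y + A + 1` for large `N` (`ps_shift`; `log N ≤ 2 log y` for `y ≥ |D0|`).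
`fin`: `q, g, M, c` from `TW.gen_fam f` (`hroot` holds since `f` has no rational root: a root `x` gives the irreducible factor `X - C x` of degree one).  `3 ≤ natDegree (g i)`: `natDegree (g i) = natDegree (q i)` (`natDegree_qq`, `natDegree_scaleRoots`), an irreducible factor of `q i` (nonconstant since `qq (g i)` is irreducible) divides `f`, so has degree `≥ 3`.
A rational point `D y ^ 2 = f(x)` gives `u, v` as in `upper` with `a = c.num * c.den` (`TW.gen_pt` with `y := 1`, `hq_one`; `f(x) ≠ 0`), so `#sol(N) ≤ A N / (log N) ^ (1 + δ) * exp (TT g N)` for `N ≥ 2`.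
Every `D` with a rational point is `ELS` (cast the point to `ℝ` and `ℚ_[p]`), so `#sol(N) ≤ #ELS(N)` (finite sets).  If there is no squarefree `D0` with `ELS f D0` then `#sol(N) = 0` for all `N`.  Otherwise `low` gives for `N ≥ N0`: `#sol(N) ≤ (A / c) (log N) ^ (-δ) #ELS(N)`; for `2 ≤ N < N0` use `#sol ≤ #ELS` and a constant `≥ (log N0) ^ δ`. -/

namespace EL

open Polynomial Finset TW

private theorem elfin_finite (N : ℕ) (P : ℤ → Prop) (h : ∀ D, P D → |D| ≤ (N : ℤ)) : Finite {D : ℤ // P D} := by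
  have h1 : {D : ℤ | P D} ⊆ ↑(Icc (-(N : ℤ)) N) := by
    intro D hD
    rw [Finset.coe_Icc, Set.mem_Icc]
    exact abs_le.1 (h D hD)
  exact (Finset.finite_toSet _).subset h1

private theorem elfin_card_le (N : ℕ) (P R : ℤ → Prop) (hR : ∀ D, R D → |D| ≤ (N : ℤ)) (h : ∀ D, P D → R D) :
    Nat.card {D : ℤ // P D} ≤ Nat.card {D : ℤ // R D} := by
  have := elfin_finite N R hR
  refine Nat.card_le_card_of_injective (fun D : {D : ℤ // P D} => (⟨D.1, h D.1 D.2⟩ : {D : ℤ // R D})) ?_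
  intro D D' hDD
  exact Subtype.ext (congrArg (fun x : {D : ℤ // R D} => x.1) hDD)

/-- the comparison of the real quantities -/
private theorem elfin_real (A c d y N : ℝ) (T T' K : ℝ) (hc : 0 < c) (hd : 1 ≤ d) (hN : N = d * y) (hy : 2 ≤ y)
    (hdy : d ≤ y) (hT : T' ≤ T + Real.log (Real.log N) - Real.log (Real.log y) + A)
    (hK : c * (y / Real.log y) * Real.exp T ≤ K) :
    c / d * Real.exp (-(A + 1)) * (N / Real.log N) * Real.exp T' ≤ K := by
  have hd0 : 0 < d := by linarith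
  have hy0 : 0 < y := by linarith
  have hly : 0 < Real.log y := Real.log_pos (by linarith)
  have hN0 : 0 < N := by rw [hN]; positivity
  have hyN : y ≤ N := by rw [hN]; nlinarith
  have hlN : Real.log y ≤ Real.log N := Real.log_le_log hy0 hyN
  have hlN0 : 0 < Real.log N := by linarith
  have h2 : Real.log N ≤ 2 * Real.log y := by
    rw [hN, Real.log_mul hd0.ne' hy0.ne']
    have := Real.log_le_log hd0 hdy
    linarith
  have h3 : Real.log (Real.log N) ≤ 1 + Real.log (Real.log y) := by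
    have h4 := Real.log_le_log hlN0 h2
    rw [Real.log_mul (by norm_num) hly.ne'] at h4
    have h5 : Real.log 2 ≤ 1 := by
      have := Real.log_two_lt_d9
      linarith
    linarith
  have h6 : Real.exp T' ≤ Real.exp T * Real.exp (A + 1) := by
    rw [← Real.exp_add]
    exact Real.exp_le_exp.2 (by linarith)
  have h7 : N / Real.log N ≤ d * (y / Real.log y) := by
    rw [hN, mul_div_assoc, ← hN]
    exact mul_le_mul_of_nonneg_left (div_le_div_of_nonneg_left hy0.le hly hlN) hd0.le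
  refine le_trans ?_ hK
  calc c / d * Real.exp (-(A + 1)) * (N / Real.log N) * Real.exp T'
      ≤ c / d * Real.exp (-(A + 1)) * (d * (y / Real.log y)) * (Real.exp T * Real.exp (A + 1)) := by
        apply mul_le_mul (mul_le_mul_of_nonneg_left h7 (by positivity)) h6 (Real.exp_pos _).le (by positivity)
    _ = c * (y / Real.log y) * Real.exp T * (Real.exp (-(A + 1)) * Real.exp (A + 1)) := by
        field_simp
    _ = c * (y / Real.log y) * Real.exp T := by
        rw [← Real.exp_add, neg_add_cancel, Real.exp_zero, mul_one]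

theorem low {n : ℕ} (F : ℚ[X]) (hdeg : Even F.natDegree) (q : Fin n → ℚ[X]) (g : Fin n → ℤ[X]) (M : ℤ) (c : ℚ)
    (hM : M ≠ 0) (hc : c ≠ 0) (hg0 : Fam g) (hmon : ∀ i, (q i).Monic) (hF : F = C c * ∏ i, q i)
    (hg : ∀ i, qq (g i) = (q i).scaleRoots (M : ℚ)) (D0 : ℤ) (hD0 : Squarefree D0) (hels : ELS F D0) :
    ∃ (a : ℝ) (N0 : ℕ), 0 < a ∧ 2 ≤ N0 ∧ ∀ N : ℕ, N0 ≤ N → a * (N / Real.log N) * Real.exp (TT g N) ≤
      (Nat.card {D : ℤ // Squarefree D ∧ |D| ≤ (N : ℤ) ∧ ELS F D} : ℝ) := by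
  obtain ⟨Q, hQ, hloc⟩ := local_sol F hdeg q g M c hM hc hg0 hmon hF hg
  have hD00 : D0 ≠ 0 := hD0.ne_zero
  have hd0 : D0.natAbs ≠ 0 := Int.natAbs_ne_zero.2 hD00
  obtain ⟨c1, y0, hc1, hy0, hcomb⟩ := comb hg0 (Q * D0.natAbs) (mul_ne_zero hQ hd0)
  obtain ⟨A, hA, hshift⟩ := ps_shift
  set d : ℕ := D0.natAbs with hd
  have hd1 : (1 : ℝ) ≤ d := by
    have : 1 ≤ d := Nat.one_le_iff_ne_zero.2 hd0
    exact_mod_cast this
  have hdpos : (0 : ℝ) < d := by linarith
  refine ⟨c1 / d * Real.exp (-(A + 1)), max (d * ⌈y0⌉₊) (max (d * d) 2), by positivity, ?_, ?_⟩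
  · exact (le_max_right _ _).trans (le_max_right _ _)
  · intro N hN
    have hN1 : d * ⌈y0⌉₊ ≤ N := (le_max_left _ _).trans hN
    have hN2 : d * d ≤ N := ((le_max_left _ _).trans (le_max_right _ _)).trans hN
    have hN1' : (d : ℝ) * y0 ≤ N := by
      have h1 : (d : ℝ) * ⌈y0⌉₊ ≤ N := by exact_mod_cast hN1
      have h2 : y0 ≤ ⌈y0⌉₊ := Nat.le_ceil y0
      nlinarith
    have hN2' : (d : ℝ) * d ≤ N := by exact_mod_cast hN2
    set y : ℝ := N / d with hy
    have hNy : (N : ℝ) = d * y := by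
      rw [hy]
      field_simp
    have hyy0 : y0 ≤ y := by
      rw [hy, le_div_iff₀ hdpos]
      linarith
    have hdy : (d : ℝ) ≤ y := by
      rw [hy, le_div_iff₀ hdpos]
      linarith
    have hy2 : 2 ≤ y := hy0.trans hyy0
    have hyN : y ≤ N := by
      rw [hNy]
      nlinarith
    refine elfin_real A c1 d y N (TT g y) (TT g N) _ hc1 hd1 hNy hy2 hdy
      (hshift (RP g) y N hy2 hyN) ((hcomb y hyy0).trans ?_)
    have := elfin_finite N (fun D => Squarefree D ∧ |D| ≤ (N : ℤ) ∧ ELS F D) (fun D h => h.2.1)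
    have hmap : ∀ m : ℕ, ((m : ℝ) ≤ y ∧ Squarefree m ∧ m.Coprime (Q * d) ∧ IsSquare (m : ZMod (Q * d)) ∧
        ∀ p : ℕ, p.Prime → p ∣ m → p ∈ RP g) →
        (Squarefree (D0 * (m : ℤ)) ∧ |D0 * (m : ℤ)| ≤ (N : ℤ) ∧ ELS F (D0 * (m : ℤ))) := by
      rintro m ⟨h1, h2, h3, h4, h5⟩
      refine ⟨?_, ?_, hloc D0 hD00 hels m h2.ne_zero h3 h4 h5⟩
      · rw [← Int.squarefree_natAbs, Int.natAbs_mul, Int.natAbs_natCast, ← hd]
        have h6 : Nat.Coprime d m := (Nat.Coprime.coprime_mul_left_right h3).symm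
        rw [Nat.squarefree_mul h6]
        exact ⟨Int.squarefree_natAbs.2 hD0, h2⟩
      · have h6 : (D0 * (m : ℤ)).natAbs ≤ N := by
          rw [Int.natAbs_mul, Int.natAbs_natCast, ← hd]
          have h7 : (d : ℝ) * m ≤ N := by
            rw [hNy]
            exact mul_le_mul_of_nonneg_left h1 hdpos.le
          exact_mod_cast h7
        rw [← Int.natCast_natAbs]
        exact_mod_cast h6
    have h1 := Nat.card_le_card_of_injective
      (fun m : {m : ℕ // (m : ℝ) ≤ y ∧ Squarefree m ∧ m.Coprime (Q * d) ∧ IsSquare (m : ZMod (Q * d)) ∧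
        ∀ p : ℕ, p.Prime → p ∣ m → p ∈ RP g} =>
        (⟨D0 * (m.1 : ℤ), hmap m.1 m.2⟩ : {D : ℤ // Squarefree D ∧ |D| ≤ (N : ℤ) ∧ ELS F D})) (by
        intro m m' hmm
        have h2 : D0 * (m.1 : ℤ) = D0 * (m'.1 : ℤ) := congrArg Subtype.val hmm
        have h3 := mul_left_cancel₀ hD00 h2
        exact Subtype.ext (by exact_mod_cast h3))
    exact_mod_cast h1

/-- a rational point is a point over all completions -/
private theorem elfin_els (f : ℚ[X]) (D : ℤ) (h : ∃ x y : ℚ, (D : ℚ) * y ^ 2 = f.eval x) : ELS f D := by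
  obtain ⟨x, y, h⟩ := h
  have key : ∀ (K : Type) [Field K] [CharZero K], (D : K) * (y : K) ^ 2 = aeval (x : K) f := by
    intro K _ _
    have h1 : aeval (x : K) f = ((f.eval x : ℚ) : K) := by
      have h2 := Polynomial.aeval_algebraMap_apply K x f
      rw [eq_ratCast] at h2
      rw [h2, eq_ratCast]
      simp
    rw [h1, ← h]
    push_cast
    ring
  exact ⟨⟨x, y, key ℝ⟩, fun p _ => ⟨x, y, key ℚ_[p]⟩⟩

theorem fin (f : ℚ[X]) (hf : Squarefree f) (hdeg : Even f.natDegree) (h6 : 6 ≤ f.natDegree)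
    (h3 : ∀ q : ℚ[X], Irreducible q → q ∣ f → 3 ≤ q.natDegree) :
    ∃ A δ : ℝ, 0 < δ ∧ ∀ N : ℕ, 2 ≤ N →
      (Nat.card {D : ℤ // Squarefree D ∧ |D| ≤ (N : ℤ) ∧ ∃ x y : ℚ, (D : ℚ) * y ^ 2 = f.eval x} : ℝ) ≤
        A / Real.log N ^ δ * (Nat.card {D : ℤ // Squarefree D ∧ |D| ≤ (N : ℤ) ∧ ELS f D} : ℝ) := by
  have hroot : ∀ x : ℚ, f.eval x ≠ 0 := by
    intro x hx
    have h1 := h3 (X - C x) (irreducible_X_sub_C x) (dvd_iff_isRoot.2 hx)
    rw [natDegree_X_sub_C] at h1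
    omega
  obtain ⟨n, q, g, M, c, hM, hc, hFam, hmon, hF, hg⟩ := gen_fam f hf hdeg h6
    (fun x y hx _ => absurd hx (hroot x))
  have hden : (c.den : ℤ) ≠ 0 := by exact_mod_cast c.den_ne_zero
  have h3' : ∀ i, 3 ≤ (g i).natDegree := by
    intro i
    have h1 : (g i).natDegree = (q i).natDegree := by
      rw [← natDegree_qq, hg i, natDegree_scaleRoots]
    have h2 : 0 < (q i).natDegree := by
      rw [← h1, ← natDegree_qq]
      exact (hFam.irr i).natDegree_pos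
    have h4 : ¬ IsUnit (q i) := fun h => by
      rw [natDegree_eq_zero_of_isUnit h] at h2
      exact lt_irrefl 0 h2
    obtain ⟨r, hr, hrq⟩ := WfDvdMonoid.exists_irreducible_factor h4 (hmon i).ne_zero
    have h5 : q i ∣ f := by
      rw [hF]
      exact dvd_mul_of_dvd_right (Finset.dvd_prod_of_mem q (Finset.mem_univ i)) _
    rw [h1]
    exact (h3 r hr (hrq.trans h5)).trans (natDegree_le_of_dvd hrq (hmon i).ne_zero)
  obtain ⟨A, δ, hA, hδ, hup⟩ := upper hFam h3' (c.num * c.den) (mul_ne_zero (Rat.num_ne_zero.2 hc) hden)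
  have hsu : ∀ N : ℕ, 2 ≤ N →
      (Nat.card {D : ℤ // Squarefree D ∧ |D| ≤ (N : ℤ) ∧ ∃ x y : ℚ, (D : ℚ) * y ^ 2 = f.eval x} : ℝ) ≤
        A * (N / Real.log N ^ (1 + δ)) * Real.exp (TT g N) := by
    intro N hN
    refine le_trans ?_ (hup N hN)
    have h1 := elfin_card_le N (fun D => Squarefree D ∧ |D| ≤ (N : ℤ) ∧ ∃ x y : ℚ, (D : ℚ) * y ^ 2 = f.eval x)
      (fun D => Squarefree D ∧ |D| ≤ (N : ℤ) ∧ ∃ u v : ℤ, IsCoprime u v ∧
        (∀ i, PT.hom (g i) u v ≠ 0) ∧ IsSquare (D * (c.num * c.den) * ∏ i, PT.hom (g i) u v)) (fun D h => h.2.1) (by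
        rintro D ⟨h4, h5, x, w, h⟩
        obtain ⟨u, v, l, huv, -, -, -, h1, h2⟩ := gen_pt f hdeg q g M c hM hc hmon hF hg D x 1 w
          (Or.inr one_ne_zero) (by rw [hq_one]; exact hroot x) (by rw [hq_one]; exact h)
        exact ⟨h4, h5, u, v, huv, h1, h2⟩)
    exact_mod_cast h1
  have hse : ∀ N : ℕ, Nat.card {D : ℤ // Squarefree D ∧ |D| ≤ (N : ℤ) ∧ ∃ x y : ℚ, (D : ℚ) * y ^ 2 = f.eval x} ≤
      Nat.card {D : ℤ // Squarefree D ∧ |D| ≤ (N : ℤ) ∧ ELS f D} := fun N =>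
    elfin_card_le N (fun D => Squarefree D ∧ |D| ≤ (N : ℤ) ∧ ∃ x y : ℚ, (D : ℚ) * y ^ 2 = f.eval x)
      (fun D => Squarefree D ∧ |D| ≤ (N : ℤ) ∧ ELS f D) (fun D h => h.2.1)
      (fun D h => ⟨h.1, h.2.1, elfin_els f D h.2.2⟩)
  by_cases hex : ∃ D0 : ℤ, Squarefree D0 ∧ ELS f D0
  · obtain ⟨D0, hD0, hels⟩ := hex
    obtain ⟨a, N0, ha, hN0, hlow⟩ := low f hdeg q g M c hM hc hFam hmon hF hg D0 hD0 hels
    have hlN0 : 0 ≤ Real.log N0 := Real.log_natCast_nonneg N0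
    refine ⟨A / a + Real.log N0 ^ δ, δ, hδ, fun N hN => ?_⟩
    have hN2 : (2 : ℝ) ≤ N := by exact_mod_cast hN
    have hlN : 0 < Real.log N := Real.log_pos (by linarith)
    have hlp : 0 < Real.log N ^ δ := Real.rpow_pos_of_pos hlN δ
    rcases le_or_gt N0 N with h | h
    · have h1 := hsu N hN
      have h2 := hlow N h
      calc (Nat.card {D : ℤ // Squarefree D ∧ |D| ≤ (N : ℤ) ∧ ∃ x y : ℚ, (D : ℚ) * y ^ 2 = f.eval x} : ℝ)
          ≤ A * (N / Real.log N ^ (1 + δ)) * Real.exp (TT g N) := h1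
        _ = A / a / Real.log N ^ δ * (a * (N / Real.log N) * Real.exp (TT g N)) := by
            rw [Real.rpow_add hlN, Real.rpow_one]
            field_simp
        _ ≤ A / a / Real.log N ^ δ * (Nat.card {D : ℤ // Squarefree D ∧ |D| ≤ (N : ℤ) ∧ ELS f D} : ℝ) :=
            mul_le_mul_of_nonneg_left h2 (by positivity)
        _ ≤ _ := by
            apply mul_le_mul_of_nonneg_right _ (Nat.cast_nonneg _)
            apply div_le_div_of_nonneg_right _ hlp.le
            have : 0 ≤ Real.log N0 ^ δ := Real.rpow_nonneg hlN0 δ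
            linarith
    · have h1 : (Nat.card {D : ℤ // Squarefree D ∧ |D| ≤ (N : ℤ) ∧ ∃ x y : ℚ, (D : ℚ) * y ^ 2 = f.eval x} : ℝ) ≤
          (Nat.card {D : ℤ // Squarefree D ∧ |D| ≤ (N : ℤ) ∧ ELS f D} : ℝ) := by exact_mod_cast hse N
      refine h1.trans ?_
      have h2 : 1 ≤ (A / a + Real.log N0 ^ δ) / Real.log N ^ δ := by
        rw [le_div_iff₀ hlp, one_mul]
        have h4 : Real.log N ≤ Real.log N0 :=
          Real.log_le_log (by linarith) (by exact_mod_cast h.le)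
        have h5 := Real.rpow_le_rpow hlN.le h4 hδ.le
        have h7 : 0 ≤ A / a := by positivity
        linarith
      calc (Nat.card {D : ℤ // Squarefree D ∧ |D| ≤ (N : ℤ) ∧ ELS f D} : ℝ)
          = 1 * (Nat.card {D : ℤ // Squarefree D ∧ |D| ≤ (N : ℤ) ∧ ELS f D} : ℝ) := (one_mul _).symm
        _ ≤ _ := mul_le_mul_of_nonneg_right h2 (Nat.cast_nonneg _)
  · refine ⟨1, δ, hδ, fun N hN => ?_⟩
    have h1 : Nat.card {D : ℤ // Squarefree D ∧ |D| ≤ (N : ℤ) ∧ ELS f D} = 0 := by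
      have : IsEmpty {D : ℤ // Squarefree D ∧ |D| ≤ (N : ℤ) ∧ ELS f D} :=
        ⟨fun D => hex ⟨D.1, D.2.1, D.2.2.2⟩⟩
      exact Nat.card_of_isEmpty
    have h2 := hse N
    rw [h1] at h2
    have h4 : Nat.card {D : ℤ // Squarefree D ∧ |D| ≤ (N : ℤ) ∧ ∃ x y : ℚ, (D : ℚ) * y ^ 2 = f.eval x} = 0 :=
      Nat.le_zero.1 h2
    rw [h1, h4]
    simp

end EL
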