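import Mathlib

/-! JOB ELHens.  Hensel's lemma for roots and squares.

`hens_root`: `hensels_lemma` (Mathlib `NumberTheory/Padics/Hensel`) for `F` and the approximate root `a`: `‖F(a)‖ ≤ 1/p < 1 = ‖F'(a)‖ ^ 2` (`PadicInt.norm_int_lt_one_iff_dvd`).
`hens_sq_odd`: `hens_root` for `X ^ 2 - C u` at an integer `a` with `a ^ 2 ≡ u`; the derivative `2 a` is not divisible by `p`.
`hens_sq`: for odd `p` map the square root along `ZMod Q → ZMod p` (`ZMod.castHom`), `hens_sq_odd` (`p ∤ m` because `m` is coprime to `Q`).  For `p = 2`: along `ZMod Q → ZMod 8`; `m` is odd, so `m ≡ 1 (mod 8)` (`decide`), and `hensels_lemma` for `X ^ 2 - C m` at `1`: `‖1 - m‖ ≤ 2 ^ (-3) < 2 ^ (-2) = ‖2‖ ^ 2`. -/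

namespace EL

open Polynomial

private theorem elhens_aeval (p : ℕ) [Fact p.Prime] (F : ℤ[X]) (a : ℤ) :
    aeval ((a : ℤ) : ℤ_[p]) F = ((F.eval a : ℤ) : ℤ_[p]) := by
  have h := Polynomial.aeval_algebraMap_apply ℤ_[p] a F
  rw [coe_aeval_eq_eval] at h
  exact_mod_cast h

theorem hens_root (p : ℕ) [Fact p.Prime] (F : ℤ[X]) (a : ℤ) (h1 : (p : ℤ) ∣ F.eval a)
    (h2 : ¬ (p : ℤ) ∣ (derivative F).eval a) : ∃ z : ℤ_[p], aeval z F = 0 := by
  have h3 : ‖aeval ((a : ℤ) : ℤ_[p]) F‖ < ‖aeval ((a : ℤ) : ℤ_[p]) (derivative F)‖ ^ 2 := by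
    rw [elhens_aeval, elhens_aeval]
    have h4 : ‖(((derivative F).eval a : ℤ) : ℤ_[p])‖ = 1 := by
      apply le_antisymm (PadicInt.norm_le_one _)
      rw [← not_lt, PadicInt.norm_int_lt_one_iff_dvd]
      exact h2
    rw [h4, one_pow]
    exact (PadicInt.norm_int_lt_one_iff_dvd _).2 h1
  obtain ⟨z, hz, -⟩ := hensels_lemma h3
  exact ⟨z, hz⟩

theorem hens_sq_odd (p : ℕ) [Fact p.Prime] (hp2 : p ≠ 2) (u : ℤ) (hu : ¬ (p : ℤ) ∣ u) (h : IsSquare (u : ZMod p)) :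
    ∃ z : ℤ_[p], z ^ 2 = (u : ℤ_[p]) := by
  obtain ⟨r, hr⟩ := h
  obtain ⟨a, rfl⟩ := ZMod.intCast_surjective r
  have h1 : (p : ℤ) ∣ (X ^ 2 - C u : ℤ[X]).eval a := by
    rw [← ZMod.intCast_zmod_eq_zero_iff_dvd _ p]
    simp only [eval_sub, eval_pow, eval_X, eval_C]
    push_cast
    rw [hr]
    ring
  have h2 : ¬ (p : ℤ) ∣ (derivative (X ^ 2 - C u : ℤ[X])).eval a := by
    have h3 : (derivative (X ^ 2 - C u : ℤ[X])).eval a = 2 * a := by
      simp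
    rw [h3]
    intro h4
    have hpp : Prime (p : ℤ) := Nat.prime_iff_prime_int.1 (Fact.out : p.Prime)
    rcases hpp.dvd_or_dvd h4 with h5 | h5
    · have h6 : p ∣ 2 := by exact_mod_cast h5
      exact hp2 ((Nat.prime_dvd_prime_iff_eq (Fact.out : p.Prime) Nat.prime_two).1 h6)
    · apply hu
      rw [← ZMod.intCast_zmod_eq_zero_iff_dvd _ p, hr, (ZMod.intCast_zmod_eq_zero_iff_dvd _ p).2 h5, mul_zero]
  obtain ⟨z, hz⟩ := hens_root p (X ^ 2 - C u) a h1 h2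
  refine ⟨z, ?_⟩
  simp only [map_sub, map_pow, aeval_X, aeval_C] at hz
  rw [sub_eq_zero] at hz
  rw [hz]
  simp

theorem hens_sq (p : ℕ) [Fact p.Prime] (Q m : ℕ) (h8 : 8 ∣ Q) (hp : p ∣ Q) (hc : m.Coprime Q)
    (h : IsSquare (m : ZMod Q)) : ∃ z : ℤ_[p], z ^ 2 = (m : ℤ_[p]) := by
  have hpp : p.Prime := Fact.out
  obtain ⟨r, hr⟩ := h
  by_cases hp2 : p = 2
  · subst hp2
    have h1 : (m : ZMod 8) = (ZMod.castHom h8 (ZMod 8) r) * (ZMod.castHom h8 (ZMod 8) r) := by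
      rw [← map_mul, ← hr, map_natCast]
    have h2 : ¬ 2 ∣ m := by
      intro h3
      have h4 : 2 ∣ Nat.gcd m Q := Nat.dvd_gcd h3 hp
      rw [hc] at h4
      omega
    have h5 : (m : ZMod 8) = 1 := by
      have h6 : ∀ s : ZMod 8, s * s = 1 ∨ (s * s) * 4 = 0 := by decide
      rcases h6 (ZMod.castHom h8 (ZMod 8) r) with h7 | h7
      · rw [h1, h7]
      · exfalso
        rw [← h1] at h7
        have h8' : ((m * 4 : ℕ) : ZMod 8) = 0 := by push_cast; exact h7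
        rw [ZMod.natCast_eq_zero_iff] at h8'
        omega
    have h6 : (8 : ℤ) ∣ 1 - m := by
      have h7 : (((1 - m : ℤ)) : ZMod 8) = 0 := by
        push_cast
        rw [h5]
        ring
      exact (ZMod.intCast_zmod_eq_zero_iff_dvd _ 8).1 h7
    have h9 : ‖aeval ((1 : ℤ) : ℤ_[2]) (X ^ 2 - C (m : ℤ) : ℤ[X])‖ <
        ‖aeval ((1 : ℤ) : ℤ_[2]) (derivative (X ^ 2 - C (m : ℤ) : ℤ[X]))‖ ^ 2 := by
      rw [elhens_aeval, elhens_aeval]
      have h10 : (X ^ 2 - C (m : ℤ) : ℤ[X]).eval 1 = 1 - m := by simp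
      have h11 : (derivative (X ^ 2 - C (m : ℤ) : ℤ[X])).eval 1 = 2 := by simp
      rw [h10, h11]
      have h12 : ‖(((1 - m : ℤ)) : ℤ_[2])‖ ≤ ((2 : ℕ) : ℝ) ^ (-((3 : ℕ) : ℤ)) := by
        rw [PadicInt.norm_int_le_pow_iff_dvd]
        exact_mod_cast h6
      have h13 : ‖((2 : ℤ) : ℤ_[2])‖ = (2 : ℝ)⁻¹ := by
        have := PadicInt.norm_p (p := 2)
        exact_mod_cast this
      rw [h13]
      refine lt_of_le_of_lt h12 ?_
      norm_num
    obtain ⟨z, hz, -⟩ := hensels_lemma h9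
    refine ⟨z, ?_⟩
    simp only [map_sub, map_pow, aeval_X, aeval_C] at hz
    rw [sub_eq_zero] at hz
    rw [hz]
    simp
  · have h1 : ((m : ℤ) : ZMod p) = (ZMod.castHom hp (ZMod p) r) * (ZMod.castHom hp (ZMod p) r) := by
      rw [← map_mul, ← hr, map_natCast, Int.cast_natCast]
    have h2 : ¬ (p : ℤ) ∣ (m : ℤ) := by
      intro h3
      have h3' : p ∣ m := by exact_mod_cast h3
      have h4 : p ∣ Nat.gcd m Q := Nat.dvd_gcd h3' hp
      rw [hc] at h4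
      exact hpp.one_lt.ne' (Nat.dvd_one.1 h4)
    obtain ⟨z, hz⟩ := hens_sq_odd p hp2 m h2 ⟨_, h1⟩
    exact ⟨z, by rw [hz, Int.cast_natCast]⟩

end EL
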