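import Pool.Agent.Lib.MP_10e784_ag.EL.ELRepr

/-! JOB ELLat.  Lattice points of an ideal in a cube.

Let `b = RingOfIntegers.basis K`, `n = finrank ℚ K = card (Ix K) ≥ 1`, `A = absNorm 𝔞 ≥ 1`, `a = A ^ (1/n) ≥ 1`, `R = ⌈R0 a⌉₊` (so `R ≤ 2 R0 a`), `rr : 𝓞 K ⧸ 𝔞 → 𝓞 K` a choice of representatives with coordinates `≤ R` in absolute value (`rep_short`), `V` the set counted by `cnt K t h 𝔞`.
Upper bound: `(y, c) ↦ (y_i + (b.repr (rr c)) i)_i` is an injective map from `V × (𝓞 K ⧸ 𝔞)` to the integer vectors with coordinates in `[-R, h - 1 + R]`: if `(y, c)`, `(y', c')` have the same image then `al y + rr c = al y' + rr c'`, and `t + al y ∈ 𝔞`, `t + al y' ∈ 𝔞` give `rr c ≡ rr c'`, `c = c'`, then `y = y'`.  Hence `cnt * A ≤ (h + 2 R) ^ n`.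
Lower bound: for an integer vector `z` with all coordinates in `[R, h - 1 - R]` let `c` be the class of `t + ∑ z_i b_i` and `w = z - b.repr (rr c)`: `0 ≤ w_i ≤ h - 1` and `t + ∑ w_i b_i ∈ 𝔞`; `z ↦ (w, c)` is injective, so `(h - 2 R) ^ n ≤ cnt * A` (natural subtraction).
`(h + 2 R) ^ n ≤ h ^ n + n (2 R) (h + 2 R) ^ (n - 1)` and `h + 2 R ≤ h + 4 R0 a ≤ (1 + 4 R0 B) h` (`a ≤ (B h ^ n) ^ (1/n) ≤ B h` as `B ≥ 1`); `(h - 2 R) ^ n ≥ h ^ n - n (2 R) h ^ (n - 1)` (Bernoulli; trivial if `h ≤ 2 R`).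
So `|cnt * A - h ^ n| ≤ n (4 R0 a) (1 + 4 R0 B) ^ (n - 1) h ^ (n - 1)`; divide by `A`. -/

namespace EL

open NumberField Finset

private theorem ellat_card (K : Type) [Field K] [NumberField K] :
    Fintype.card (Ix K) = Module.finrank ℚ K := by
  rw [← RingOfIntegers.rank K, Module.finrank_eq_card_basis (RingOfIntegers.basis K)]

private theorem ellat_co (K : Type) [Field K] [NumberField K] (y : Ix K → ℕ) (i : Ix K) :
    (RingOfIntegers.basis K).repr (al K y) i = y i := by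
  have h1 : al K y = ∑ i, (y i : ℤ) • RingOfIntegers.basis K i := by
    unfold al
    refine Finset.sum_congr rfl fun i _ => ?_
    rw [zsmul_eq_mul, Int.cast_natCast]
  rw [h1, Module.Basis.repr_sum_self]

private theorem ellat_ext (K : Type) [Field K] [NumberField K] (x x' : 𝓞 K)
    (h : ∀ i, (RingOfIntegers.basis K).repr x i = (RingOfIntegers.basis K).repr x' i) : x = x' := by
  apply (RingOfIntegers.basis K).repr.injective
  exact Finsupp.ext h

/-- both counting inequalities -/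
private theorem ellat_two (K : Type) [Field K] [NumberField K] (𝔞 : Ideal (𝓞 K)) (ha : 𝔞 ≠ ⊥) (R : ℕ)
    (hR : ∀ z : 𝓞 K, ∃ r : 𝓞 K, z - r ∈ 𝔞 ∧ ∀ i, |(RingOfIntegers.basis K).repr r i| ≤ (R : ℤ)) (t : 𝓞 K) (h : ℕ) :
    cnt K t h 𝔞 * Ideal.absNorm 𝔞 ≤ (h + 2 * R) ^ Module.finrank ℚ K ∧
      (h - 2 * R) ^ Module.finrank ℚ K ≤ cnt K t h 𝔞 * Ideal.absNorm 𝔞 := by
  classical
  have hfin : Finite (𝓞 K ⧸ 𝔞) := Ideal.finiteQuotientOfFreeOfNeBot 𝔞 ha
  let _ : Fintype (𝓞 K ⧸ 𝔞) := Fintype.ofFinite _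
  have hcardQ : Fintype.card (𝓞 K ⧸ 𝔞) = Ideal.absNorm 𝔞 := by
    rw [Ideal.absNorm_apply, Submodule.cardQuot_apply, ← Nat.card_eq_fintype_card]
  have hrr : ∀ c : 𝓞 K ⧸ 𝔞, ∃ r : 𝓞 K, Ideal.Quotient.mk 𝔞 r = c ∧
      ∀ i, |(RingOfIntegers.basis K).repr r i| ≤ (R : ℤ) := by
    intro c
    obtain ⟨z, rfl⟩ := Ideal.Quotient.mk_surjective c
    obtain ⟨r, h1, h2⟩ := hR z
    exact ⟨r, (Ideal.Quotient.eq.2 h1).symm, h2⟩
  choose rr hrr1 hrr2 using hrr
  set V : Finset (Ix K → ℕ) := (Fintype.piFinset fun _ : Ix K => range h).filter fun y => t + al K y ∈ 𝔞 with hV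
  have hcnt : cnt K t h 𝔞 = V.card := by
    unfold cnt
    rw [hV]
  have hprod : V.card * Ideal.absNorm 𝔞 = (V ×ˢ (univ : Finset (𝓞 K ⧸ 𝔞))).card := by
    rw [card_product, Finset.card_univ, hcardQ]
  rw [hcnt, hprod]
  constructor
  · set Z : Finset (Ix K → ℤ) := Fintype.piFinset fun _ : Ix K => Ico (-(R : ℤ)) (h + R) with hZ
    have hZcard : Z.card = (h + 2 * R) ^ Module.finrank ℚ K := by
      rw [hZ, Fintype.card_piFinset]
      simp only [Int.card_Ico, Finset.prod_const, Finset.card_univ]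
      rw [ellat_card K]
      congr 1
      omega
    rw [← hZcard]
    apply Finset.card_le_card_of_injOn (fun yc => fun i => (yc.1 i : ℤ) + (RingOfIntegers.basis K).repr (rr yc.2) i)
    · rintro ⟨y, c⟩ hyc
      have h1 := (mem_product.1 (Finset.mem_coe.1 hyc)).1
      rw [hV, mem_filter, Fintype.mem_piFinset] at h1
      apply Finset.mem_coe.2
      rw [hZ, Fintype.mem_piFinset]
      intro i
      have h2 := h1.1 i
      rw [mem_range] at h2
      have h3 := abs_le.1 (hrr2 c i)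
      rw [mem_Ico]
      constructor
      · have : (0 : ℤ) ≤ y i := Int.natCast_nonneg _
        simp only
        linarith
      · have : (y i : ℤ) < h := by exact_mod_cast h2
        simp only
        linarith
    · rintro ⟨y, c⟩ hyc ⟨y', c'⟩ hyc' heq
      have h1 := (mem_product.1 (Finset.mem_coe.1 hyc)).1
      have h1' := (mem_product.1 (Finset.mem_coe.1 hyc')).1
      rw [hV, mem_filter] at h1 h1'
      have h2 : al K y + rr c = al K y' + rr c' := by
        apply ellat_ext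
        intro i
        rw [map_add, map_add, Finsupp.add_apply, Finsupp.add_apply, ellat_co, ellat_co]
        exact congrFun heq i
      have h3 : c = c' := by
        rw [← hrr1 c, ← hrr1 c', Ideal.Quotient.eq]
        have h4 : rr c - rr c' = (t + al K y') - (t + al K y) := by
          linear_combination h2
        rw [h4]
        exact 𝔞.sub_mem h1'.2 h1.2
      subst h3
      have h5 : al K y = al K y' := add_right_cancel h2
      have h6 : y = y' := by
        funext i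
        have h7 := ellat_co K y i
        rw [h5, ellat_co] at h7
        exact_mod_cast h7.symm
      rw [h6]
  · set Z : Finset (Ix K → ℕ) := Fintype.piFinset fun _ : Ix K => Ico R (h - R) with hZ
    have hZcard : Z.card = (h - 2 * R) ^ Module.finrank ℚ K := by
      rw [hZ, Fintype.card_piFinset]
      simp only [Nat.card_Ico, Finset.prod_const, Finset.card_univ]
      rw [ellat_card K]
      congr 1
      omega
    rw [← hZcard]
    -- the map
    set F : (Ix K → ℕ) → (Ix K → ℕ) × (𝓞 K ⧸ 𝔞) := fun z =>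
      (fun i => ((z i : ℤ) - (RingOfIntegers.basis K).repr (rr (Ideal.Quotient.mk 𝔞 (t + al K z))) i).toNat,
        Ideal.Quotient.mk 𝔞 (t + al K z)) with hF
    have hpos : ∀ z ∈ Z, ∀ i, (((F z).1 i : ℕ) : ℤ) =
        (z i : ℤ) - (RingOfIntegers.basis K).repr (rr (Ideal.Quotient.mk 𝔞 (t + al K z))) i := by
      intro z hz i
      rw [hZ, Fintype.mem_piFinset] at hz
      have h1 := hz i
      rw [mem_Ico] at h1
      have h2 := abs_le.1 (hrr2 (Ideal.Quotient.mk 𝔞 (t + al K z)) i)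
      simp only [hF]
      rw [Int.toNat_of_nonneg]
      have : (R : ℤ) ≤ z i := by exact_mod_cast h1.1
      linarith
    apply Finset.card_le_card_of_injOn F
    · intro z hz
      have hz' := Finset.mem_coe.1 hz
      apply Finset.mem_coe.2
      rw [mem_product]
      refine ⟨?_, mem_univ _⟩
      rw [hV, mem_filter, Fintype.mem_piFinset]
      constructor
      · intro i
        rw [mem_range]
        have h1 := hpos z hz' i
        rw [hZ, Fintype.mem_piFinset] at hz'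
        have h2 := hz' i
        rw [mem_Ico] at h2
        have h3 := abs_le.1 (hrr2 (Ideal.Quotient.mk 𝔞 (t + al K z)) i)
        have h4 : (z i : ℤ) + R < h := by
          have : z i + R < h := by omega
          exact_mod_cast this
        have h5 : (((F z).1 i : ℕ) : ℤ) < h := by
          rw [h1]
          linarith
        exact_mod_cast h5
      · have h1 : al K (F z).1 = al K z - rr (Ideal.Quotient.mk 𝔞 (t + al K z)) := by
          apply ellat_ext
          intro i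
          rw [map_sub, Finsupp.sub_apply, ellat_co, ellat_co]
          exact hpos z hz' i
        rw [h1, ← add_sub_assoc]
        rw [← Ideal.Quotient.eq_zero_iff_mem, map_sub, hrr1, sub_self]
    · intro z hz z' hz' heq
      have h1 := hpos z (Finset.mem_coe.1 hz)
      have h2 := hpos z' (Finset.mem_coe.1 hz')
      have h3 : Ideal.Quotient.mk 𝔞 (t + al K z) = Ideal.Quotient.mk 𝔞 (t + al K z') := congrArg Prod.snd heq
      funext i
      have h4 := h1 i
      have h5 := h2 i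
      rw [heq] at h4
      rw [h3] at h4
      have h6 : (z i : ℤ) = z' i := by linarith
      exact_mod_cast h6

private theorem ellat_pow_up (n : ℕ) (x u : ℝ) (hx : 0 ≤ x) (hu : 0 ≤ u) :
    (x + u) ^ n ≤ x ^ n + n * u * (x + u) ^ (n - 1) := by
  induction n with
  | zero => simp
  | succ n ih =>
    rcases Nat.eq_zero_or_pos n with h0 | h0
    · subst h0
      simp
    · obtain ⟨m, rfl⟩ : ∃ m, n = m + 1 := ⟨n - 1, by omega⟩
      simp only [Nat.add_sub_cancel] at ih ⊢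
      have h1 : (x + u) ^ (m + 1 + 1) = (x + u) ^ (m + 1) * x + u * (x + u) ^ (m + 1) := by ring
      have h2 := mul_le_mul_of_nonneg_right ih hx
      have h3 : x ≤ x + u := by linarith
      have h4 : 0 ≤ ((m + 1 : ℕ) : ℝ) * u * (x + u) ^ m := by positivity
      have h5 := mul_le_mul_of_nonneg_left h3 h4
      rw [h1]
      push_cast at *
      have h6 : (x ^ (m + 1) + (↑m + 1) * u * (x + u) ^ m) * x = x ^ (m + 1 + 1) + (↑m + 1) * u * (x + u) ^ m * x := by
        ring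
      have h7 : (↑m + 1) * u * (x + u) ^ m * (x + u) = (↑m + 1) * u * (x + u) ^ (m + 1) := by ring
      rw [h6] at h2
      rw [h7] at h5
      linarith

private theorem ellat_pow_low (n : ℕ) (x u : ℝ) (hx : 0 ≤ x) (hu : 0 ≤ u) (hux : u ≤ x) :
    x ^ n - n * u * x ^ (n - 1) ≤ (x - u) ^ n := by
  induction n with
  | zero => simp
  | succ n ih =>
    rcases Nat.eq_zero_or_pos n with h0 | h0
    · subst h0
      simp
    · obtain ⟨m, rfl⟩ : ∃ m, n = m + 1 := ⟨n - 1, by omega⟩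
      simp only [Nat.add_sub_cancel] at ih ⊢
      have h1 : (x - u) ^ (m + 1 + 1) = (x - u) ^ (m + 1) * (x - u) := by ring
      have h2 := mul_le_mul_of_nonneg_right ih (sub_nonneg.2 hux)
      rw [h1]
      refine le_trans ?_ h2
      have h4 : 0 ≤ ((m + 1 : ℕ) : ℝ) * u * x ^ m * u := by positivity
      push_cast at *
      have h5 : (x ^ (m + 1) - (↑m + 1) * u * x ^ m) * (x - u) =
        x ^ (m + 1 + 1) - (↑m + 1 + 1) * u * x ^ (m + 1) + (↑m + 1) * u * x ^ m * u := by ring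
      rw [h5]
      linarith

theorem lat (K : Type) [Field K] [NumberField K] (B : ℝ) (hB : 1 ≤ B) :
    ∃ K0 : ℝ, 0 < K0 ∧ ∀ 𝔞 : Ideal (𝓞 K), 𝔞 ≠ ⊥ → ∀ (t : 𝓞 K) (h : ℕ), 1 ≤ h →
      ((Ideal.absNorm 𝔞 : ℕ) : ℝ) ≤ B * (h : ℝ) ^ Module.finrank ℚ K →
      |(cnt K t h 𝔞 : ℝ) - (h : ℝ) ^ Module.finrank ℚ K / (Ideal.absNorm 𝔞 : ℕ)| ≤
        K0 * (h : ℝ) ^ (Module.finrank ℚ K - 1) *
          (((Ideal.absNorm 𝔞 : ℕ) : ℝ) ^ ((1 : ℝ) / Module.finrank ℚ K) / (Ideal.absNorm 𝔞 : ℕ)) := by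
  obtain ⟨R0, hR0, hrep⟩ := rep_short K
  set n := Module.finrank ℚ K with hn
  have hn0 : 0 < n := Module.finrank_pos
  have hnR : (0 : ℝ) < n := by exact_mod_cast hn0
  refine ⟨n * (4 * R0) * (1 + 4 * R0 * B) ^ (n - 1), by positivity, fun 𝔞 ha t h hh hA => ?_⟩
  set A : ℕ := Ideal.absNorm 𝔞 with hAdef
  have hA0 : A ≠ 0 := by
    rw [hAdef]
    exact Ideal.absNorm_ne_zero_iff_mem_nonZeroDivisors.2 (mem_nonZeroDivisors_of_ne_zero ha)
  have hA1 : (1 : ℝ) ≤ A := by exact_mod_cast Nat.one_le_iff_ne_zero.2 hA0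
  have hA' : (0 : ℝ) < A := by linarith
  set a : ℝ := (A : ℝ) ^ ((1 : ℝ) / n) with haa
  have ha1 : 1 ≤ a := Real.one_le_rpow hA1 (by positivity)
  have hhR : (1 : ℝ) ≤ h := by exact_mod_cast hh
  set R : ℕ := ⌈R0 * a⌉₊ with hR
  have hRge : R0 * a ≤ R := Nat.le_ceil _
  have hRle : (R : ℝ) ≤ 2 * R0 * a := by
    have h1 := (Nat.ceil_lt_add_one (show 0 ≤ R0 * a by positivity)).le
    rw [← hR] at h1
    nlinarith
  have hRz : ∀ z : 𝓞 K, ∃ r : 𝓞 K, z - r ∈ 𝔞 ∧ ∀ i, |(RingOfIntegers.basis K).repr r i| ≤ (R : ℤ) := by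
    intro z
    obtain ⟨r, h1, h2⟩ := hrep 𝔞 ha z
    refine ⟨r, h1, fun i => ?_⟩
    have h3 := (h2 i).trans hRge
    exact_mod_cast h3
  obtain ⟨hup, hlow⟩ := ellat_two K 𝔞 ha R hRz t h
  rw [← hn, ← hAdef] at hup hlow
  have haB : a ≤ B * h := by
    have h1 : (A : ℝ) ≤ (B * h) ^ n := by
      refine hA.trans ?_
      rw [mul_pow]
      apply mul_le_mul_of_nonneg_right _ (by positivity)
      exact le_self_pow₀ hB hn0.ne'
    have h2 : a ≤ ((B * h) ^ n) ^ ((1 : ℝ) / n) :=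
      Real.rpow_le_rpow (Nat.cast_nonneg _) h1 (by positivity)
    rw [← Real.rpow_natCast, ← Real.rpow_mul (by positivity), mul_one_div_cancel hnR.ne', Real.rpow_one] at h2
    exact h2
  have hupR : (cnt K t h 𝔞 : ℝ) * A ≤ ((h : ℝ) + 2 * R) ^ n := by exact_mod_cast hup
  have hR2 : (2 : ℝ) * R ≤ 4 * R0 * a := by linarith
  have hRnn : (0 : ℝ) ≤ 2 * R := by positivity
  have h1 : ((h : ℝ) + 2 * R) ^ n ≤ (h : ℝ) ^ n + n * (2 * R) * ((h : ℝ) + 2 * R) ^ (n - 1) :=
    ellat_pow_up n h (2 * R) (by positivity) hRnn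
  have h2 : (h : ℝ) + 2 * R ≤ (1 + 4 * R0 * B) * h := by
    have h3 : 4 * R0 * a ≤ 4 * R0 * (B * h) := mul_le_mul_of_nonneg_left haB (by positivity)
    nlinarith
  have h4 : ((h : ℝ) + 2 * R) ^ (n - 1) ≤ (1 + 4 * R0 * B) ^ (n - 1) * (h : ℝ) ^ (n - 1) := by
    rw [← mul_pow]
    exact pow_le_pow_left₀ (by positivity) h2 _
  have hE : (n : ℝ) * (2 * R) * ((h : ℝ) + 2 * R) ^ (n - 1) ≤
      n * (4 * R0) * (1 + 4 * R0 * B) ^ (n - 1) * (h : ℝ) ^ (n - 1) * a := by
    calc (n : ℝ) * (2 * R) * ((h : ℝ) + 2 * R) ^ (n - 1)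
        ≤ n * (4 * R0 * a) * ((1 + 4 * R0 * B) ^ (n - 1) * (h : ℝ) ^ (n - 1)) := by
          apply mul_le_mul _ h4 (by positivity) (by positivity)
          exact mul_le_mul_of_nonneg_left hR2 (by positivity)
      _ = _ := by ring
  have hlowR : (h : ℝ) ^ n - n * (4 * R0) * (1 + 4 * R0 * B) ^ (n - 1) * (h : ℝ) ^ (n - 1) * a ≤
      (cnt K t h 𝔞 : ℝ) * A := by
    have h5 : (n : ℝ) * (2 * R) * (h : ℝ) ^ (n - 1) ≤
        n * (4 * R0) * (1 + 4 * R0 * B) ^ (n - 1) * (h : ℝ) ^ (n - 1) * a := by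
      refine le_trans ?_ hE
      apply mul_le_mul_of_nonneg_left _ (by positivity)
      exact pow_le_pow_left₀ (by positivity) (by linarith) _
    rcases le_or_gt (2 * R) h with h6 | h6
    · have h7 : (((h - 2 * R : ℕ)) : ℝ) = (h : ℝ) - 2 * R := by
        rw [Nat.cast_sub h6]
        push_cast
        ring
      have h8 : ((h : ℝ) - 2 * R) ^ n ≤ (cnt K t h 𝔞 : ℝ) * A := by
        rw [← h7]
        exact_mod_cast hlow
      have h9 := ellat_pow_low n (h : ℝ) (2 * R) (by positivity) hRnn (by exact_mod_cast h6)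
      linarith
    · have h7 : (h : ℝ) ≤ 2 * R := by exact_mod_cast h6.le
      have h8 : (h : ℝ) ^ n ≤ n * (2 * R) * (h : ℝ) ^ (n - 1) := by
        have h9 : (h : ℝ) ^ n = h * (h : ℝ) ^ (n - 1) := by
          rw [← pow_succ']
          congr 1
          omega
        rw [h9]
        apply mul_le_mul_of_nonneg_right _ (by positivity)
        have h10 : (1 : ℝ) ≤ n := by exact_mod_cast hn0
        nlinarith
      have h11 : (0 : ℝ) ≤ (cnt K t h 𝔞 : ℝ) * A := by positivity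
      linarith
  have h12 : (cnt K t h 𝔞 : ℝ) - (h : ℝ) ^ n / A = ((cnt K t h 𝔞 : ℝ) * A - (h : ℝ) ^ n) / A := by
    field_simp
  rw [h12, abs_div, abs_of_pos hA', mul_div_assoc']
  apply div_le_div_of_nonneg_right _ hA'.le
  rw [abs_le]
  constructor
  · linarith
  · linarith

end EL
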