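import Pool.Agent.Lib.MP_10e784_ag.EL.ELStep
import Pool.Agent.Lib.MP_10e784_ag.EL.ELHens
import Pool.Agent.Lib.MP_10e784_ag.TW.TWGood
import Pool.Agent.Lib.MP_10e784_ag.TW.TWRed

/-! JOB ELLoc.  Local points on the twist by `D0 * m`.

Let `N = ∑ natDegree (g i) = F.natDegree` (even), `M1` from `TW.good_exists hg0`, `P0` from `stepanov N`, `Q = 8 * M1 * M.natAbs * c.num.natAbs * c.den * P0!` (or the product of the primes below `P0`), all nonzero.
Scaling identity: for `x` in a field of characteristic zero: `M ^ N * F(x) = c * ∏ i, g i (M x)` (`qq (g i) = (q i).scaleRoots M` and `scaleRoots_eval₂_mul`/`scaleRoots_aeval_eq_zero`: `(q i).scaleRoots M` at `M x` is `M ^ natDegree (q i) * q i (x)`; `q i` monic, `∑ natDegree (q i) = natDegree F = N`).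
Put `D = D0 * m`.
 * Real place: `D0 y0 ^ 2 = F(x0)`; take `y = y0 / sqrt m` (`m > 0`).
 * `p ∣ Q * D0`: `m = z ^ 2` in `ℤ_[p]` (`hens_sq` for the modulus `Q * D0.natAbs`, divisible by `8`), `z ≠ 0`, take `y = y0 / z` from the point of the twist by `D0` over `ℚ_[p]`.
 * `p ∣ m`, `p ∤ Q * D0` (`p` is good, `p ∤ M`): `p ∈ RP g`, so some `g i` has a root `t` modulo `p` (`rts ≥ 1`, `PT.rt` is the number of roots); it is simple because `red p (∏ i, g i)` is squarefree (`GoodP.sqf`; a squarefree polynomial over the perfect field `ZMod p` is separable, or: `(X - t) ^ 2` would divide it).  `hens_root` gives `z : ℤ_[p]` with `g i (z) = 0`; `x = z / M`, `y = 0`: `F(x) = 0` by the scaling identity.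
 * `p ∤ m * Q * D0`: `p ≥ P0` (all smaller primes divide `Q`), `f = red p (∏ i, g i)` is squarefree of degree `N`, `u = D * c.num * c.den` is nonzero modulo `p`.  `stepanov`: `X0 : ℤ` with `u * ∏ i, g i (X0)` a nonzero square modulo `p`; by `hens_sq_odd` (`p ≠ 2`) it is `z ^ 2` in `ℤ_[p]`.  Put `x = X0 / M`: `F(x) = M ^ (-N) * c * ∏ g i (X0)`, so `D F(x) = M ^ (-N) * (c.den) ^ (-2) * z ^ 2` and, `N` being even, `F(x) = D * y ^ 2` with `y = z / (D * c.den * M ^ (N/2))`. -/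

namespace EL

open Polynomial Finset TW

/-- the twist `D y ^ 2 = f(x)` has points over `ℝ` and over all `ℚ_[p]` -/
def ELS (f : ℚ[X]) (D : ℤ) : Prop :=
  (∃ x y : ℝ, (D : ℝ) * y ^ 2 = aeval x f) ∧
    ∀ (p : ℕ) [Fact p.Prime], ∃ x y : ℚ_[p], (D : ℚ_[p]) * y ^ 2 = aeval x f

private theorem elloc_scale {K : Type} [Field K] [Algebra ℚ K] {n : ℕ} (F : ℚ[X]) (q : Fin n → ℚ[X]) (g : Fin n → ℤ[X]) (M : ℤ) (c : ℚ)
    (hc : c ≠ 0) (hmon : ∀ i, (q i).Monic) (hF : F = C c * ∏ i, q i)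
    (hg : ∀ i, qq (g i) = (q i).scaleRoots (M : ℚ)) (x : K) :
    (M : K) ^ F.natDegree * aeval x F = algebraMap ℚ K c * ∏ i, aeval ((M : K) * x) (g i) := by
  have h1 : ∀ i, aeval ((M : K) * x) (g i) = (M : K) ^ (q i).natDegree * aeval x (q i) := by
    intro i
    have h2 := scaleRoots_eval₂_mul (p := q i) (algebraMap ℚ K) x (M : ℚ)
    rw [← hg i, qq, eval₂_map] at h2
    have h3 : (algebraMap ℚ K).comp (Int.castRingHom ℚ) = algebraMap ℤ K := RingHom.ext_int _ _
    rw [h3, map_intCast] at h2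
    exact h2
  have h4 : ∑ i, (q i).natDegree = F.natDegree := by
    rw [hF, natDegree_C_mul hc, natDegree_prod_of_monic _ _ (fun i _ => hmon i)]
  rw [Finset.prod_congr rfl fun i _ => h1 i, Finset.prod_mul_distrib, Finset.prod_pow_eq_pow_sum, h4, hF,
    map_mul, map_prod, aeval_C]
  ring

private theorem elloc_root {p : ℕ} [Fact p.Prime] (G : ℤ[X]) (z : ℤ_[p]) (h : aeval z G = 0) :
    aeval (z : ℚ_[p]) G = 0 := by
  have h1 := Polynomial.aeval_algebraMap_apply ℚ_[p] z G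
  rw [h, map_zero] at h1
  exact h1

private theorem elloc_int {K : Type} [Field K] (G : ℤ[X]) (a : ℤ) : aeval (a : K) G = ((G.eval a : ℤ) : K) := by
  have h := Polynomial.aeval_algebraMap_apply K a G
  rw [coe_aeval_eq_eval] at h
  exact_mod_cast h

private theorem elloc_red {p : ℕ} (G : ℤ[X]) (a : ℤ) : (red p G).eval (a : ZMod p) = ((G.eval a : ℤ) : ZMod p) := by
  rw [red, eval_intCast_map]
  simp

theorem local_sol {n : ℕ} (F : ℚ[X]) (hdeg : Even F.natDegree) (q : Fin n → ℚ[X]) (g : Fin n → ℤ[X]) (M : ℤ) (c : ℚ)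
    (hM : M ≠ 0) (hc : c ≠ 0) (hg0 : Fam g) (hmon : ∀ i, (q i).Monic) (hF : F = C c * ∏ i, q i)
    (hg : ∀ i, qq (g i) = (q i).scaleRoots (M : ℚ)) :
    ∃ Q : ℕ, Q ≠ 0 ∧ ∀ D0 : ℤ, D0 ≠ 0 → ELS F D0 → ∀ m : ℕ, m ≠ 0 → m.Coprime (Q * D0.natAbs) →
      IsSquare (m : ZMod (Q * D0.natAbs)) → (∀ p : ℕ, p.Prime → p ∣ m → p ∈ RP g) → ELS F (D0 * m) := by
  classical
  obtain ⟨M1, hM1, hgood⟩ := good_exists hg0
  have hNN : (∏ i, g i).natDegree = F.natDegree := by
    have h1 : ∀ i, (g i).natDegree = (q i).natDegree := by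
      intro i
      rw [← natDegree_qq, hg i, natDegree_scaleRoots]
    rw [natDegree_prod_of_monic _ _ (fun i _ => hg0.monic i), hF, natDegree_C_mul hc,
      natDegree_prod_of_monic _ _ (fun i _ => hmon i)]
    exact Finset.sum_congr rfl fun i _ => h1 i
  have hN1 : 1 ≤ F.natDegree := by
    have h6 := hg0.six
    rw [← hNN, natDegree_prod_of_monic _ _ (fun i _ => hg0.monic i)]
    omega
  obtain ⟨P0, hP0⟩ := stepanov F.natDegree hN1
  have hcn : c.num ≠ 0 := Rat.num_ne_zero.2 hc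
  set Q : ℕ := 8 * M1 * M.natAbs * c.num.natAbs * c.den * P0.factorial with hQ
  refine ⟨Q, ?_, ?_⟩
  · rw [hQ]
    exact mul_ne_zero (mul_ne_zero (mul_ne_zero (mul_ne_zero (mul_ne_zero (by norm_num) hM1)
      (Int.natAbs_ne_zero.2 hM)) (Int.natAbs_ne_zero.2 hcn)) c.den_ne_zero) (Nat.factorial_ne_zero _)
  intro D0 hD0 hels m hm hcop hsq hRP
  refine ⟨?_, ?_⟩
  · obtain ⟨x, y, hxy⟩ := hels.1
    refine ⟨x, y / Real.sqrt m, ?_⟩
    have hm0 : (0 : ℝ) < m := by exact_mod_cast Nat.pos_of_ne_zero hm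
    rw [div_pow, Real.sq_sqrt hm0.le, ← hxy]
    push_cast
    field_simp
  intro p hp
  have hpp : p.Prime := hp.out
  have hmp : (m : ℚ_[p]) ≠ 0 := by exact_mod_cast hm
  have hMp : (M : ℚ_[p]) ≠ 0 := by exact_mod_cast hM
  by_cases hA : p ∣ Q * D0.natAbs
  · obtain ⟨z, hz⟩ := hens_sq p (Q * D0.natAbs) m (by
      rw [hQ]
      exact Dvd.dvd.mul_right (Dvd.intro (M1 * M.natAbs * c.num.natAbs * c.den * P0.factorial) (by ring)) _) hA hcop hsq
    obtain ⟨x, y, hxy⟩ := hels.2 p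
    have hz' : (z : ℚ_[p]) ^ 2 = (m : ℚ_[p]) := by exact_mod_cast congrArg (fun t : ℤ_[p] => (t : ℚ_[p])) hz
    refine ⟨x, y / z, ?_⟩
    rw [div_pow, hz', ← hxy]
    push_cast
    field_simp
  have hpQ : ¬ p ∣ Q := fun h => hA (Dvd.dvd.mul_right h _)
  have hpD0 : ¬ p ∣ D0.natAbs := fun h => hA (Dvd.dvd.mul_left h _)
  have hpM1 : ¬ p ∣ M1 := fun h => hpQ (h.trans (Dvd.intro (8 * M.natAbs * c.num.natAbs * c.den * P0.factorial) (by rw [hQ]; ring)))
  have hpcn : ¬ p ∣ c.num.natAbs := fun h => hpQ (h.trans (Dvd.intro (8 * M1 * M.natAbs * c.den * P0.factorial) (by rw [hQ]; ring)))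
  have hpcd : ¬ p ∣ c.den := fun h => hpQ (h.trans (Dvd.intro (8 * M1 * M.natAbs * c.num.natAbs * P0.factorial) (by rw [hQ]; ring)))
  have hpP0 : ¬ p ∣ P0.factorial := fun h => hpQ (h.trans (Dvd.intro (8 * M1 * M.natAbs * c.num.natAbs * c.den) (by rw [hQ]; ring)))
  have hp2 : p ≠ 2 := by
    intro h
    exact hpQ (by rw [h, hQ]; exact Dvd.intro (4 * M1 * M.natAbs * c.num.natAbs * c.den * P0.factorial) (by ring))
  have hG := hgood p hpp hpM1
  have hredmon : (red p (∏ i, g i)).Monic := (monic_prod_of_monic _ _ fun i _ => hg0.monic i).map _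
  by_cases hB : p ∣ m
  · -- a root of some `g i`
    have h1 : 1 ≤ rts g univ p := hRP p hpp hB
    obtain ⟨i, -, hi⟩ : ∃ i ∈ (univ : Finset (Fin n)), PT.rt (g i) p ≠ 0 := by
      by_contra hcon
      push Not at hcon
      rw [rts, Finset.sum_eq_zero hcon] at h1
      omega
    have hne : Nonempty {ρ : ZMod p // ((g i).map (Int.castRingHom (ZMod p))).eval ρ = 0} := by
      by_contra hcon
      rw [not_nonempty_iff] at hcon
      exact hi (by rw [PT.rt]; exact Nat.card_of_isEmpty)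
    obtain ⟨ρ, hρ⟩ := hne
    obtain ⟨a, rfl⟩ := ZMod.intCast_surjective ρ
    have hρ' : (red p (g i)).eval (a : ZMod p) = 0 := hρ
    have hsf : Squarefree (red p (g i)) := by
      refine Squarefree.squarefree_of_dvd ?_ hG.sqf
      rw [red, red, Polynomial.map_prod]
      exact Finset.dvd_prod_of_mem _ (Finset.mem_univ i)
    have hsep : (red p (g i)).Separable := (PerfectField.separable_iff_squarefree).2 hsf
    have hder : (derivative (red p (g i))).eval (a : ZMod p) ≠ 0 := by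
      have h2 := hsep.aeval_derivative_ne_zero (x := (a : ZMod p)) (by rw [coe_aeval_eq_eval]; exact hρ')
      rwa [coe_aeval_eq_eval] at h2
    obtain ⟨z, hz⟩ := hens_root p (g i) a
      (by
        rw [← ZMod.intCast_zmod_eq_zero_iff_dvd _ p, ← elloc_red]
        exact hρ')
      (by
        rw [← ZMod.intCast_zmod_eq_zero_iff_dvd _ p, ← elloc_red]
        rw [red, ← derivative_map]
        exact hder)
    refine ⟨(z : ℚ_[p]) / M, 0, ?_⟩
    have h2 := elloc_scale F q g M c hc hmon hF hg ((z : ℚ_[p]) / M)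
    rw [mul_div_cancel₀ _ hMp, Finset.prod_eq_zero (Finset.mem_univ i) (elloc_root (g i) z hz), mul_zero] at h2
    have h3 := (mul_eq_zero.1 h2).resolve_left (pow_ne_zero _ hMp)
    rw [h3]
    ring
  · -- Stepanov
    have hpP : P0 ≤ p := by
      by_contra hlt
      exact hpP0 ((Nat.Prime.dvd_factorial hpp).2 (by omega))
    set U0 : ℤ := (D0 * m) * c.num * c.den with hU0
    have hpi : Prime (p : ℤ) := Nat.prime_iff_prime_int.1 hpp
    have hU0p : ¬ (p : ℤ) ∣ U0 := by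
      rw [hU0]
      intro h
      rcases hpi.dvd_or_dvd h with h | h
      · rcases hpi.dvd_or_dvd h with h | h
        · rcases hpi.dvd_or_dvd h with h | h
          · exact hpD0 (Int.natCast_dvd.1 h)
          · exact hB (by exact_mod_cast h)
        · exact hpcn (Int.natCast_dvd.1 h)
      · exact hpcd (by exact_mod_cast h)
    have hU0z : (U0 : ZMod p) ≠ 0 := by
      intro h
      exact hU0p ((ZMod.intCast_zmod_eq_zero_iff_dvd _ p).1 h)
    obtain ⟨x, hx0, hxs⟩ := hP0 p hpP (red p (∏ i, g i)) hG.sqf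
      (by rw [← hNN]; exact (monic_prod_of_monic _ _ fun i _ => hg0.monic i).natDegree_map _) (U0 : ZMod p) hU0z
    obtain ⟨a, rfl⟩ := ZMod.intCast_surjective x
    rw [elloc_red] at hx0 hxs
    have hnd : ¬ (p : ℤ) ∣ U0 * (∏ i, g i).eval a := by
      intro h
      rcases hpi.dvd_or_dvd h with h | h
      · exact hU0p h
      · exact hx0 ((ZMod.intCast_zmod_eq_zero_iff_dvd _ p).2 h)
    obtain ⟨z, hz⟩ := hens_sq_odd p hp2 (U0 * (∏ i, g i).eval a) hnd (by push_cast; exact hxs)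
    have hz' : (z : ℚ_[p]) ^ 2 = ((U0 * (∏ i, g i).eval a : ℤ) : ℚ_[p]) := by
      exact_mod_cast congrArg (fun t : ℤ_[p] => (t : ℚ_[p])) hz
    obtain ⟨r, hr⟩ := hdeg
    have hDp : (D0 : ℚ_[p]) ≠ 0 := by exact_mod_cast hD0
    have hcdp : (c.den : ℚ_[p]) ≠ 0 := by exact_mod_cast c.den_ne_zero
    refine ⟨(a : ℚ_[p]) / M, (z : ℚ_[p]) / (D0 * m * c.den * (M : ℚ_[p]) ^ r), ?_⟩
    have h2 := elloc_scale F q g M c hc hmon hF hg ((a : ℚ_[p]) / M)
    rw [mul_div_cancel₀ _ hMp, Finset.prod_congr rfl fun i _ => elloc_int (g i) a, ← Int.cast_prod, ← eval_prod, hr] at h2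
    have hcc : (algebraMap ℚ ℚ_[p] c) * c.den = c.num := by
      have h3 := congrArg (algebraMap ℚ ℚ_[p]) (Rat.mul_den_eq_num c)
      rw [map_mul, map_natCast, map_intCast] at h3
      exact h3
    have hMr : (M : ℚ_[p]) ^ (r + r) ≠ 0 := pow_ne_zero _ hMp
    apply mul_left_cancel₀ hMr
    rw [h2, div_pow, hz', hU0]
    push_cast
    rw [← hcc]
    field_simp
    try ring

end EL
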