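import Pool.Agent.Lib.MP_10e784_ag.EL.ELDefs

/-! JOB ELLogN.  The logarithm of the norm as a sum over prime ideal powers.

`|N α| = absNorm (span {α})` (`Ideal.absNorm_span_singleton`).  `span {α} = ∏_P P ^ (v P)` over the prime ideals dividing it (`UniqueFactorizationMonoid`/`Ideal.prod_normalizedFactors_eq_self`, ideals of the Dedekind domain `𝓞 K`), and `absNorm` is multiplicative, so `log |N α| = ∑_P v P * log (absNorm P)`.
Every `P` with `v P ≥ 1` is prime, `≠ ⊥`, and `absNorm P ∣ |N α|`, so it is at most `x`: `P ∈ PP K x`.  For `P ∈ PP K x`: `#{k ∈ Icc 1 k0 | α ∈ P ^ k} = v P`: `α ∈ P ^ k ↔ P ^ k ∣ span {α} ↔ k ≤ v P`, and `v P ≤ k0` because `2 ^ (v P) ≤ (absNorm P) ^ (v P) ≤ |N α| ≤ x < 2 ^ (k0 + 1)` (`absNorm P ≥ 2`). -/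

namespace EL

open NumberField Finset

open UniqueFactorizationMonoid in
open Classical in
private theorem mem_pow_iff_count (K : Type) [Field K] [NumberField K] (α : 𝓞 K) (hα : α ≠ 0)
    (P : Ideal (𝓞 K)) (hP : P.IsPrime) (hb : P ≠ ⊥) (k : ℕ) :
    α ∈ P ^ k ↔ k ≤ (normalizedFactors (Ideal.span {α})).count P := by
  have hI : Ideal.span {α} ≠ (0 : Ideal (𝓞 K)) := by
    rw [Ne, Ideal.zero_eq_bot, Ideal.span_singleton_eq_bot]
    exact hα
  have hPp : Prime P := Ideal.prime_of_isPrime hb hP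
  have hPk : P ^ k ≠ 0 := pow_ne_zero k (by rwa [Ideal.zero_eq_bot])
  rw [← Ideal.dvd_span_singleton, dvd_iff_normalizedFactors_le_normalizedFactors hPk hI,
    normalizedFactors_pow, normalizedFactors_irreducible hPp.irreducible, normalize_eq,
    Multiset.nsmul_singleton, Multiset.le_count_iff_replicate_le]

private theorem two_le_absNorm (K : Type) [Field K] [NumberField K]
    (P : Ideal (𝓞 K)) (hP : P.IsPrime) (hb : P ≠ ⊥) : 2 ≤ Ideal.absNorm P := by
  have h0 : Ideal.absNorm P ≠ 0 := by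
    rwa [Ne, Ideal.absNorm_eq_zero_iff]
  have h1 : Ideal.absNorm P ≠ 1 := by
    rw [Ne, Ideal.absNorm_eq_one_iff]
    exact hP.ne_top
  omega

open UniqueFactorizationMonoid in
open Classical in
theorem log_norm (K : Type) [Field K] [NumberField K] (α : 𝓞 K) (hα : α ≠ 0) (x : ℝ)
    (hx : ((Algebra.norm ℤ α).natAbs : ℝ) ≤ x) (k0 : ℕ) (hk : x < 2 ^ (k0 + 1)) :
    Real.log (Algebra.norm ℤ α).natAbs =
      ∑ P ∈ PP K x, ∑ k ∈ Icc 1 k0, if α ∈ P ^ k then Real.log (Ideal.absNorm P : ℕ) else 0 := by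
  have hx0 : 0 ≤ x := (Nat.cast_nonneg _).trans hx
  have hI : Ideal.span {α} ≠ (0 : Ideal (𝓞 K)) := by
    rw [Ne, Ideal.zero_eq_bot, Ideal.span_singleton_eq_bot]
    exact hα
  have hN0 : Ideal.absNorm (Ideal.span {α}) ≠ 0 := by
    rwa [Ne, Ideal.absNorm_eq_zero_iff, ← Ideal.zero_eq_bot]
  rw [← Ideal.absNorm_span_singleton] at hx ⊢
  set I := Ideal.span {α} with hIdef
  set F := normalizedFactors I with hF
  have hprod : F.prod = I := Ideal.prod_normalizedFactors_eq_self hI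
  have hmem : ∀ P ∈ F, P.IsPrime ∧ P ≠ ⊥ ∧ ((Ideal.absNorm P : ℕ) : ℝ) ≤ x := by
    intro P hPF
    have hpr : Prime P := prime_of_normalized_factor P hPF
    have hdvd : P ∣ I := dvd_of_mem_normalizedFactors hPF
    refine ⟨Ideal.isPrime_of_prime hpr, hpr.ne_zero, ?_⟩
    refine le_trans ?_ hx
    have := Nat.le_of_dvd (Nat.pos_of_ne_zero hN0) (map_dvd Ideal.absNorm hdvd)
    exact_mod_cast this
  -- the inner sum
  have hinner : ∀ P ∈ PP K x, (∑ k ∈ Icc 1 k0, if α ∈ P ^ k then Real.log (Ideal.absNorm P : ℕ) else 0) =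
      (F.count P : ℝ) * Real.log (Ideal.absNorm P : ℕ) := by
    intro P hP
    obtain ⟨hPp, hPb, hPx⟩ := (mem_PP hx0).mp hP
    have hc : F.count P ≤ k0 := by
      have h1 : P ^ F.count P ∣ I := by
        rw [hIdef, Ideal.dvd_span_singleton]
        exact (mem_pow_iff_count K α hα P hPp hPb _).mpr le_rfl
      have h2 : Ideal.absNorm (P ^ F.count P) ≤ Ideal.absNorm I :=
        Nat.le_of_dvd (Nat.pos_of_ne_zero hN0) (map_dvd Ideal.absNorm h1)
      rw [map_pow] at h2
      have h3 : 2 ^ F.count P ≤ Ideal.absNorm I :=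
        (Nat.pow_le_pow_left (two_le_absNorm K P hPp hPb) _).trans h2
      have h4 : ((2 : ℝ)) ^ F.count P < 2 ^ (k0 + 1) := by
        refine lt_of_le_of_lt ?_ hk
        refine le_trans ?_ hx
        exact_mod_cast h3
      have h5 : F.count P < k0 + 1 := (pow_lt_pow_iff_right₀ (by norm_num : (1 : ℝ) < 2)).mp h4
      omega
    rw [← Finset.sum_filter, Finset.sum_const, nsmul_eq_mul]
    congr 2
    have hset : (Icc 1 k0).filter (fun k => α ∈ P ^ k) = Icc 1 (F.count P) := by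
      ext k
      simp only [Finset.mem_filter, Finset.mem_Icc]
      rw [mem_pow_iff_count K α hα P hPp hPb k]
      constructor
      · rintro ⟨⟨h1, _⟩, h2⟩
        exact ⟨h1, h2⟩
      · rintro ⟨h1, h2⟩
        exact ⟨⟨h1, h2.trans hc⟩, h2⟩
    rw [hset, Nat.card_Icc]
    omega
  rw [Finset.sum_congr rfl hinner]
  have hsub : F.toFinset ⊆ PP K x := by
    intro P hP
    exact (mem_PP hx0).mpr (hmem P (Multiset.mem_toFinset.mp hP))
  rw [← Finset.sum_subset hsub (fun P _ hP => by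
    rw [Multiset.mem_toFinset] at hP
    rw [Multiset.count_eq_zero_of_notMem hP]
    simp)]
  have hn : Ideal.absNorm I = ∏ P ∈ F.toFinset, Ideal.absNorm P ^ F.count P := by
    conv_lhs => rw [← hprod, Finset.prod_multiset_count, map_prod]
    refine Finset.prod_congr rfl fun P _ => ?_
    rw [map_pow]
  rw [hn]
  push_cast
  rw [Real.log_prod]
  · refine Finset.sum_congr rfl fun P _ => ?_
    rw [Real.log_pow]
  · intro P hP
    obtain ⟨hPp, hPb, _⟩ := hmem P (Multiset.mem_toFinset.mp hP)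
    have := two_le_absNorm K P hPp hPb
    have h0 : ((Ideal.absNorm P : ℕ) : ℝ) ≠ 0 := by
      have : Ideal.absNorm P ≠ 0 := by omega
      exact_mod_cast this
    exact pow_ne_zero _ h0

end EL
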