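import Pool.Agent.Lib.MP_10e784_ag.EL.ELLat
import Pool.Agent.Lib.MP_10e784_ag.EL.ELBox
import Pool.Agent.Lib.MP_10e784_ag.EL.ELLogN
import Pool.Agent.Lib.MP_10e784_ag.EL.ELChe

/-! JOB ELMer.  Mertens' first theorem for the prime ideals of prime norm.

Let `n = finrank ℚ K`, `κ, B` from `box`, `K0` from `lat` for `B ^ n`, `A_a, A_b` from `che_a`, `che_b`; for `h ≥ 1`: `t = κ h`, `α_y = t + al K y` (`y` in the cube `Q_h = Fintype.piFinset (fun _ => range h)`, `h ^ n` elements), `V(𝔞) = cnt K t h 𝔞`, `D(x) = ∑_{P ∈ PP K x, absNorm P prime} log (absNorm P) / absNorm P` (monotone in `x`).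
Lower bound.  `Y = (B h) ^ n`, `k0` with `Y < 2 ^ (k0 + 1)`.  `log |N α_y| ≥ n log h` (`box`), so by `log_norm` (`x = Y`) and interchanging the sums `h ^ n * n log h ≤ ∑_{P ∈ PP K Y} ∑_{k ≤ k0} log (absNorm P) V(P ^ k)`.  `V(P ^ k) = 0` if `absNorm P ^ k > Y` (`α_y ∈ P ^ k`, `α_y ≠ 0` implies `absNorm P ^ k ∣ |N α_y| ≤ Y`).
For the others `V(P ^ k) ≤ h ^ n / absNorm P ^ k + K0 h ^ (n - 1) (absNorm P ^ k) ^ (1/n) / absNorm P ^ k` (`lat`; `absNorm` is multiplicative; `Y = B ^ n h ^ n`).  So by `che_a`, `che_b`: `h ^ n n log h ≤ h ^ n (D(Y) + A_b) + K0 h ^ (n - 1) A_a B h`, i.e. `D((B h) ^ n) ≥ n log h - A_b - K0 A_a B`.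
For `x ≥ 2` take `h = ⌊x ^ (1/n) / B⌋₊`: if `h ≥ 1` then `(B h) ^ n ≤ x` and `h ≥ x ^ (1/n) / (2 B)`, so `D(x) ≥ log x - n log (2 B) - ...`; if `h = 0` then `log x ≤ n log B` and `D(x) ≥ 0`.
Upper bound.  `h = ⌈x ^ (1/n)⌉₊`, so `x ≤ h ^ n`, `x ^ (1/n) ≤ h ≤ 2 x ^ (1/n)`, and `Y = (B h) ^ n ≥ x`.  `h ^ n n log (B h) ≥ ∑_y log |N α_y| ≥ ∑_{P ∈ PP K x, prime norm} log (absNorm P) V(P)` (in `log_norm` with `x := Y` keep only `k = 1` and these `P`; all terms are nonnegative; `k0 ≥ 1`), and `V(P) ≥ h ^ n / absNorm P - K0 h ^ (n - 1) (absNorm P) ^ (1/n) / absNorm P`, so by `che_a` (with `k0 = 1`) `D(x) ≤ n log (B h) + K0 A_a ≤ log x + n log (2 B) + K0 A_a`. -/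

namespace EL

open NumberField Finset

private noncomputable def elmerD (K : Type) [Field K] [NumberField K] (x : ℝ) : ℝ :=
  ∑ P ∈ (PP K x).filter (fun P => (Ideal.absNorm P).Prime),
      Real.log (Ideal.absNorm P : ℕ) / (Ideal.absNorm P : ℕ)

/-- the property of the constants given by `box` -/
private def elmerBox (K : Type) [Field K] [NumberField K] (κ B : ℕ) : Prop :=
  ∀ h : ℕ, 1 ≤ h → ∀ y : Ix K → ℕ, (∀ i, y i < h) →
      h ^ Module.finrank ℚ K ≤ (Algebra.norm ℤ (((κ * h : ℕ) : 𝓞 K) + al K y)).natAbs ∧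
      (Algebra.norm ℤ (((κ * h : ℕ) : 𝓞 K) + al K y)).natAbs ≤ (B * h) ^ Module.finrank ℚ K

private theorem elmer_pos {K : Type} [Field K] [NumberField K] {P : Ideal (𝓞 K)} (hP : P ≠ ⊥) :
    (0 : ℝ) < (Ideal.absNorm P : ℕ) := by
  have h := Ideal.absNorm_ne_zero_iff_mem_nonZeroDivisors.2 (mem_nonZeroDivisors_of_ne_zero hP)
  exact_mod_cast Nat.pos_of_ne_zero h

private theorem elmer_card (K : Type) [Field K] [NumberField K] (h : ℕ) :
    (Fintype.piFinset (fun _ : Ix K => range h)).card = h ^ Module.finrank ℚ K := by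
  rw [Fintype.card_piFinset]
  simp only [card_range, Finset.prod_const, Finset.card_univ]
  rw [← RingOfIntegers.rank K, Module.finrank_eq_card_basis (RingOfIntegers.basis K)]

private theorem elmer_sum (K : Type) [Field K] [NumberField K] (κ B : ℕ) (hbox : elmerBox K κ B)
    (h : ℕ) (hh : 1 ≤ h) (k0 : ℕ) (hk : (((B * h) ^ Module.finrank ℚ K : ℕ) : ℝ) < 2 ^ (k0 + 1)) :
    ∑ y ∈ Fintype.piFinset (fun _ : Ix K => range h),
        Real.log (Algebra.norm ℤ (((κ * h : ℕ) : 𝓞 K) + al K y)).natAbs =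
      ∑ P ∈ PP K (((B * h) ^ Module.finrank ℚ K : ℕ) : ℝ), ∑ k ∈ Icc 1 k0,
        Real.log (Ideal.absNorm P : ℕ) * (cnt K ((κ * h : ℕ) : 𝓞 K) h (P ^ k) : ℝ) := by
  classical
  have h1 : ∀ y ∈ Fintype.piFinset (fun _ : Ix K => range h),
      Real.log (Algebra.norm ℤ (((κ * h : ℕ) : 𝓞 K) + al K y)).natAbs =
        ∑ P ∈ PP K (((B * h) ^ Module.finrank ℚ K : ℕ) : ℝ), ∑ k ∈ Icc 1 k0,
          if ((κ * h : ℕ) : 𝓞 K) + al K y ∈ P ^ k then Real.log (Ideal.absNorm P : ℕ) else 0 := by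
    intro y hy
    have hy' : ∀ i, y i < h := fun i => mem_range.1 (Fintype.mem_piFinset.1 hy i)
    obtain ⟨h2, h3⟩ := hbox h hh y hy'
    refine log_norm K _ ?_ _ (by exact_mod_cast h3) k0 hk
    intro h0
    rw [h0, Algebra.norm_zero] at h2
    have h4 : 0 < h ^ Module.finrank ℚ K := pow_pos (by omega) _
    simp only [Int.natAbs_zero] at h2
    omega
  rw [sum_congr rfl h1, sum_comm]
  refine sum_congr rfl fun P _ => ?_
  rw [sum_comm]
  refine sum_congr rfl fun k _ => ?_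
  rw [← sum_filter, sum_const, nsmul_eq_mul, mul_comm]
  rfl

private theorem elmer_zero (K : Type) [Field K] [NumberField K] (κ B : ℕ) (hbox : elmerBox K κ B)
    (h : ℕ) (hh : 1 ≤ h) (𝔞 : Ideal (𝓞 K)) (hY : (B * h) ^ Module.finrank ℚ K < Ideal.absNorm 𝔞) :
    cnt K ((κ * h : ℕ) : 𝓞 K) h 𝔞 = 0 := by
  classical
  unfold cnt
  rw [card_eq_zero, filter_eq_empty_iff]
  intro y hy hmem
  have hy' : ∀ i, y i < h := fun i => mem_range.1 (Fintype.mem_piFinset.1 hy i)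
  obtain ⟨h2, h3⟩ := hbox h hh y hy'
  have h4 := Ideal.absNorm_dvd_norm_of_mem hmem
  have h5 : Ideal.absNorm 𝔞 ∣ (Algebra.norm ℤ (((κ * h : ℕ) : 𝓞 K) + al K y)).natAbs := Int.natCast_dvd.1 h4
  have h7 : 0 < h ^ Module.finrank ℚ K := pow_pos (by omega) _
  have h6 := Nat.le_of_dvd (by omega) h5
  omega

open Classical in
private theorem elmer_split (K : Type) [Field K] [NumberField K] (x : ℝ) (k0 : ℕ) (A : ℝ)
    (hA : ∑ P ∈ PP K x, ∑ k ∈ Icc 1 k0, (if k = 1 ∧ (Ideal.absNorm P).Prime then 0 else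
      Real.log (Ideal.absNorm P : ℕ) / ((Ideal.absNorm P : ℕ) : ℝ) ^ k) ≤ A) :
    ∑ P ∈ PP K x, ∑ k ∈ Icc 1 k0, Real.log (Ideal.absNorm P : ℕ) / ((Ideal.absNorm P : ℕ) : ℝ) ^ k ≤
      elmerD K x + A := by
  refine le_trans ?_ (add_le_add_right hA _)
  unfold elmerD
  rw [sum_filter, ← sum_add_distrib]
  refine sum_le_sum fun P _ => ?_
  have hf0 : ∀ k : ℕ, 0 ≤ Real.log (Ideal.absNorm P : ℕ) / ((Ideal.absNorm P : ℕ) : ℝ) ^ k := fun k =>
    div_nonneg (Real.log_natCast_nonneg _) (by positivity)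
  by_cases hp : (Ideal.absNorm P).Prime
  · rw [if_pos hp]
    have h1 : ∀ k ∈ Icc 1 k0, Real.log (Ideal.absNorm P : ℕ) / ((Ideal.absNorm P : ℕ) : ℝ) ^ k =
        (if k = 1 then Real.log (Ideal.absNorm P : ℕ) / ((Ideal.absNorm P : ℕ) : ℝ) ^ k else 0) +
        (if k = 1 ∧ (Ideal.absNorm P).Prime then 0 else
          Real.log (Ideal.absNorm P : ℕ) / ((Ideal.absNorm P : ℕ) : ℝ) ^ k) := by
      intro k _
      by_cases hk : k = 1
      · rw [if_pos hk, if_pos ⟨hk, hp⟩, add_zero]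
      · rw [if_neg hk, if_neg (fun h => hk h.1), zero_add]
    rw [sum_congr rfl h1, sum_add_distrib]
    refine add_le_add_left ?_ _
    rw [sum_ite_eq']
    by_cases h2 : 1 ∈ Icc 1 k0
    · rw [if_pos h2, pow_one]
    · rw [if_neg h2]
      have := hf0 1
      rwa [pow_one] at this
  · rw [if_neg hp, zero_add]
    refine sum_le_sum fun k _ => ?_
    rw [if_neg (fun h => hp h.2)]

private theorem elmer_Droot (B h n : ℕ) (hn : n ≠ 0) :
    (((B * h) ^ n : ℕ) : ℝ) ^ ((1 : ℝ) / n) = B * h := by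
  rw [one_div]
  push_cast
  exact Real.pow_rpow_inv_natCast (by positivity) hn

private theorem elmer_low (K : Type) [Field K] [NumberField K] (κ B : ℕ) (hB : 1 ≤ B) (hbox : elmerBox K κ B)
    (K0 Aa Ab : ℝ) (hK0 : 0 < K0)
    (hlat : ∀ 𝔞 : Ideal (𝓞 K), 𝔞 ≠ ⊥ → ∀ (t : 𝓞 K) (h : ℕ), 1 ≤ h →
      ((Ideal.absNorm 𝔞 : ℕ) : ℝ) ≤ ((B : ℝ) ^ Module.finrank ℚ K) * (h : ℝ) ^ Module.finrank ℚ K →
      |(cnt K t h 𝔞 : ℝ) - (h : ℝ) ^ Module.finrank ℚ K / (Ideal.absNorm 𝔞 : ℕ)| ≤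
        K0 * (h : ℝ) ^ (Module.finrank ℚ K - 1) *
          (((Ideal.absNorm 𝔞 : ℕ) : ℝ) ^ ((1 : ℝ) / Module.finrank ℚ K) / (Ideal.absNorm 𝔞 : ℕ)))
    (ha : ∀ (x : ℝ) (k0 : ℕ), 1 ≤ x →
      ∑ P ∈ PP K x, ∑ k ∈ (Icc 1 k0).filter (fun k => (((Ideal.absNorm P : ℕ) : ℝ)) ^ k ≤ x),
        Real.log (Ideal.absNorm P : ℕ) *
        ((((Ideal.absNorm P : ℕ) : ℝ) ^ k) ^ ((1 : ℝ) / Module.finrank ℚ K) / ((Ideal.absNorm P : ℕ) : ℝ) ^ k) ≤
      Aa * x ^ ((1 : ℝ) / Module.finrank ℚ K))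
    (hb : ∀ (x : ℝ) (k0 : ℕ), 1 ≤ x →
      ∑ P ∈ PP K x, ∑ k ∈ Icc 1 k0, Real.log (Ideal.absNorm P : ℕ) / ((Ideal.absNorm P : ℕ) : ℝ) ^ k ≤
        elmerD K x + Ab) (h : ℕ) (hh : 1 ≤ h) :
    Module.finrank ℚ K * Real.log h ≤
      elmerD K (((B * h) ^ Module.finrank ℚ K : ℕ) : ℝ) + (Ab + K0 * Aa * B) := by
  classical
  set n := Module.finrank ℚ K with hn
  have hn0 : 0 < n := Module.finrank_pos
  have hhR : (0 : ℝ) < h := by exact_mod_cast hh
  set Y : ℝ := (((B * h) ^ n : ℕ) : ℝ) with hY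
  have hBh : 1 ≤ (B * h) ^ n := Nat.one_le_pow _ _ (Nat.mul_pos hB hh)
  have hY1 : 1 ≤ Y := by
    rw [hY]
    exact_mod_cast hBh
  obtain ⟨k0, hk0⟩ := pow_unbounded_of_one_lt Y (one_lt_two : (1 : ℝ) < 2)
  have hk1 : Y < 2 ^ (k0 + 1) := hk0.trans_le (pow_le_pow_right₀ (by norm_num) (by omega))
  have hS := elmer_sum K κ B hbox h hh k0 hk1
  have hlow : (h : ℝ) ^ n * (n * Real.log h) ≤ ∑ y ∈ Fintype.piFinset (fun _ : Ix K => range h),
        Real.log (Algebra.norm ℤ (((κ * h : ℕ) : 𝓞 K) + al K y)).natAbs := by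
    have h1 := card_nsmul_le_sum (Fintype.piFinset (fun _ : Ix K => range h))
      (fun y => Real.log (Algebra.norm ℤ (((κ * h : ℕ) : 𝓞 K) + al K y)).natAbs) (n * Real.log h) ?_
    · rw [elmer_card, nsmul_eq_mul, Nat.cast_pow] at h1
      exact h1
    · intro y hy
      have hy' : ∀ i, y i < h := fun i => mem_range.1 (Fintype.mem_piFinset.1 hy i)
      obtain ⟨h2, _⟩ := hbox h hh y hy'
      rw [← Real.log_pow]
      apply Real.log_le_log (by positivity)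
      exact_mod_cast h2
  rw [hS] at hlow
  have hterm : ∀ P ∈ PP K Y, ∀ k ∈ Icc 1 k0,
      Real.log (Ideal.absNorm P : ℕ) * (cnt K ((κ * h : ℕ) : 𝓞 K) h (P ^ k) : ℝ) ≤
      (h : ℝ) ^ n * (Real.log (Ideal.absNorm P : ℕ) / ((Ideal.absNorm P : ℕ) : ℝ) ^ k) +
        (if (((Ideal.absNorm P : ℕ) : ℝ)) ^ k ≤ Y then K0 * (h : ℝ) ^ (n - 1) *
          (Real.log (Ideal.absNorm P : ℕ) *
          ((((Ideal.absNorm P : ℕ) : ℝ) ^ k) ^ ((1 : ℝ) / n) / ((Ideal.absNorm P : ℕ) : ℝ) ^ k)) else 0) := by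
    intro P hP k _
    obtain ⟨_, hPb, _⟩ := (mem_PP (by linarith)).1 hP
    have hlog : 0 ≤ Real.log (Ideal.absNorm P : ℕ) := Real.log_natCast_nonneg _
    have hPk : P ^ k ≠ ⊥ := pow_ne_zero k hPb
    have hNk : ((Ideal.absNorm (P ^ k) : ℕ) : ℝ) = ((Ideal.absNorm P : ℕ) : ℝ) ^ k := by
      rw [map_pow, Nat.cast_pow]
    by_cases hc : (((Ideal.absNorm P : ℕ) : ℝ)) ^ k ≤ Y
    · rw [if_pos hc]
      have h1 := hlat (P ^ k) hPk ((κ * h : ℕ) : 𝓞 K) h hh (by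
        rw [hNk, ← mul_pow]
        refine hc.trans ?_
        rw [hY]
        push_cast
        exact le_refl _)
      rw [hNk] at h1
      have h2 := (abs_le.1 h1).2
      have h3 : (cnt K ((κ * h : ℕ) : 𝓞 K) h (P ^ k) : ℝ) ≤ (h : ℝ) ^ n / ((Ideal.absNorm P : ℕ) : ℝ) ^ k +
          K0 * (h : ℝ) ^ (n - 1) *
          ((((Ideal.absNorm P : ℕ) : ℝ) ^ k) ^ ((1 : ℝ) / n) / ((Ideal.absNorm P : ℕ) : ℝ) ^ k) := by
        linarith
      refine (mul_le_mul_of_nonneg_left h3 hlog).trans (le_of_eq ?_)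
      ring
    · rw [if_neg hc, add_zero]
      have h1 : cnt K ((κ * h : ℕ) : 𝓞 K) h (P ^ k) = 0 := by
        apply elmer_zero K κ B hbox h hh
        have h2 := not_le.1 hc
        rw [← hNk, hY] at h2
        exact_mod_cast h2
      rw [h1, Nat.cast_zero, mul_zero]
      positivity
  have hsum := sum_le_sum fun P hP => sum_le_sum (hterm P hP)
  have hsplit : ∑ P ∈ PP K Y, ∑ k ∈ Icc 1 k0,
      ((h : ℝ) ^ n * (Real.log (Ideal.absNorm P : ℕ) / ((Ideal.absNorm P : ℕ) : ℝ) ^ k) +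
        (if (((Ideal.absNorm P : ℕ) : ℝ)) ^ k ≤ Y then K0 * (h : ℝ) ^ (n - 1) *
          (Real.log (Ideal.absNorm P : ℕ) *
          ((((Ideal.absNorm P : ℕ) : ℝ) ^ k) ^ ((1 : ℝ) / n) / ((Ideal.absNorm P : ℕ) : ℝ) ^ k)) else 0)) =
      (h : ℝ) ^ n * ∑ P ∈ PP K Y, ∑ k ∈ Icc 1 k0,
        Real.log (Ideal.absNorm P : ℕ) / ((Ideal.absNorm P : ℕ) : ℝ) ^ k +
      K0 * (h : ℝ) ^ (n - 1) * ∑ P ∈ PP K Y, ∑ k ∈ (Icc 1 k0).filter (fun k => (((Ideal.absNorm P : ℕ) : ℝ)) ^ k ≤ Y),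
        Real.log (Ideal.absNorm P : ℕ) *
          ((((Ideal.absNorm P : ℕ) : ℝ) ^ k) ^ ((1 : ℝ) / n) / ((Ideal.absNorm P : ℕ) : ℝ) ^ k) := by
    rw [mul_sum, mul_sum, ← sum_add_distrib]
    refine sum_congr rfl fun P _ => ?_
    rw [mul_sum, mul_sum, sum_add_distrib, sum_filter]
  rw [hsplit] at hsum
  have hA := ha Y k0 hY1
  have hBd := hb Y k0 hY1
  have hroot : Y ^ ((1 : ℝ) / n) = B * h := by
    rw [hY]
    exact elmer_Droot B h n (by omega)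
  rw [hroot] at hA
  have h1 := mul_le_mul_of_nonneg_left hA (show 0 ≤ K0 * (h : ℝ) ^ (n - 1) by positivity)
  have h2 := mul_le_mul_of_nonneg_left hBd (show 0 ≤ (h : ℝ) ^ n by positivity)
  have h3 : K0 * (h : ℝ) ^ (n - 1) * (Aa * (B * h)) = (h : ℝ) ^ n * (K0 * Aa * B) := by
    have h4 : (h : ℝ) ^ (n - 1) * h = (h : ℝ) ^ n := by
      rw [← pow_succ]
      congr 1
      omega
    rw [← h4]
    ring
  rw [h3] at h1
  have h5 : (h : ℝ) ^ n * (n * Real.log h) ≤ (h : ℝ) ^ n * (elmerD K Y + (Ab + K0 * Aa * B)) := by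
    have h6 : (h : ℝ) ^ n * (elmerD K Y + (Ab + K0 * Aa * B)) =
        (h : ℝ) ^ n * (elmerD K Y + Ab) + (h : ℝ) ^ n * (K0 * Aa * B) := by ring
    rw [h6]
    exact hlow.trans (hsum.trans (add_le_add h2 h1))
  exact le_of_mul_le_mul_left h5 (by positivity)

private theorem elmer_up (K : Type) [Field K] [NumberField K] (κ B : ℕ) (hB : 1 ≤ B) (hbox : elmerBox K κ B)
    (K0 Aa : ℝ) (hK0 : 0 < K0) (hAa : 0 < Aa)
    (hlat : ∀ 𝔞 : Ideal (𝓞 K), 𝔞 ≠ ⊥ → ∀ (t : 𝓞 K) (h : ℕ), 1 ≤ h →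
      ((Ideal.absNorm 𝔞 : ℕ) : ℝ) ≤ ((B : ℝ) ^ Module.finrank ℚ K) * (h : ℝ) ^ Module.finrank ℚ K →
      |(cnt K t h 𝔞 : ℝ) - (h : ℝ) ^ Module.finrank ℚ K / (Ideal.absNorm 𝔞 : ℕ)| ≤
        K0 * (h : ℝ) ^ (Module.finrank ℚ K - 1) *
          (((Ideal.absNorm 𝔞 : ℕ) : ℝ) ^ ((1 : ℝ) / Module.finrank ℚ K) / (Ideal.absNorm 𝔞 : ℕ)))
    (ha : ∀ (x : ℝ) (k0 : ℕ), 1 ≤ x →
      ∑ P ∈ PP K x, ∑ k ∈ (Icc 1 k0).filter (fun k => (((Ideal.absNorm P : ℕ) : ℝ)) ^ k ≤ x),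
        Real.log (Ideal.absNorm P : ℕ) *
        ((((Ideal.absNorm P : ℕ) : ℝ) ^ k) ^ ((1 : ℝ) / Module.finrank ℚ K) / ((Ideal.absNorm P : ℕ) : ℝ) ^ k) ≤
      Aa * x ^ ((1 : ℝ) / Module.finrank ℚ K))
    (x : ℝ) (hx : 2 ≤ x) (h : ℕ) (hh : 1 ≤ h) (hxh : x ^ ((1 : ℝ) / Module.finrank ℚ K) ≤ h) :
    elmerD K x ≤ Module.finrank ℚ K * Real.log (B * h) + K0 * Aa := by
  classical
  set n := Module.finrank ℚ K with hn
  have hn0 : 0 < n := Module.finrank_pos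
  have hhR : (0 : ℝ) < h := by exact_mod_cast hh
  have hBR : (1 : ℝ) ≤ B := by exact_mod_cast hB
  have hxn : x ≤ (h : ℝ) ^ n := by
    have h1 := pow_le_pow_left₀ (by positivity) hxh n
    rw [one_div, Real.rpow_inv_natCast_pow (by linarith) (by omega)] at h1
    exact h1
  set Y : ℝ := (((B * h) ^ n : ℕ) : ℝ) with hY
  have hxY : x ≤ Y := by
    rw [hY]
    push_cast
    refine hxn.trans (pow_le_pow_left₀ (by positivity) ?_ n)
    nlinarith
  obtain ⟨k0, hk0⟩ := pow_unbounded_of_one_lt Y (one_lt_two : (1 : ℝ) < 2)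
  have hk1 : Y < 2 ^ (k0 + 1) := hk0.trans_le (pow_le_pow_right₀ (by norm_num) (by omega))
  have hk2 : 1 ≤ k0 := by
    by_contra hcon
    have h1 : k0 = 0 := by omega
    rw [h1, pow_zero] at hk0
    linarith
  have hS := elmer_sum K κ B hbox h hh k0 hk1
  have hup : ∑ y ∈ Fintype.piFinset (fun _ : Ix K => range h),
        Real.log (Algebra.norm ℤ (((κ * h : ℕ) : 𝓞 K) + al K y)).natAbs ≤
        (h : ℝ) ^ n * (n * Real.log (B * h)) := by
    have h1 := sum_le_card_nsmul (Fintype.piFinset (fun _ : Ix K => range h))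
      (fun y => Real.log (Algebra.norm ℤ (((κ * h : ℕ) : 𝓞 K) + al K y)).natAbs) (n * Real.log (B * h)) ?_
    · rw [elmer_card, nsmul_eq_mul, Nat.cast_pow] at h1
      exact h1
    · intro y hy
      have hy' : ∀ i, y i < h := fun i => mem_range.1 (Fintype.mem_piFinset.1 hy i)
      obtain ⟨h2, h3⟩ := hbox h hh y hy'
      rw [← Real.log_pow]
      have h4 : 0 < h ^ Module.finrank ℚ K := pow_pos (by omega) _
      apply Real.log_le_log
      · exact_mod_cast (show 0 < (Algebra.norm ℤ (((κ * h : ℕ) : 𝓞 K) + al K y)).natAbs by omega)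
      · exact_mod_cast h3
  rw [hS] at hup
  have hterm0 : ∀ (P : Ideal (𝓞 K)) (k : ℕ),
      0 ≤ Real.log (Ideal.absNorm P : ℕ) * (cnt K ((κ * h : ℕ) : 𝓞 K) h (P ^ k) : ℝ) := fun P k =>
    mul_nonneg (Real.log_natCast_nonneg _) (Nat.cast_nonneg _)
  have hsub : ∑ P ∈ (PP K x).filter (fun P => (Ideal.absNorm P).Prime),
      Real.log (Ideal.absNorm P : ℕ) * (cnt K ((κ * h : ℕ) : 𝓞 K) h (P ^ 1) : ℝ) ≤
      ∑ P ∈ PP K Y, ∑ k ∈ Icc 1 k0,
        Real.log (Ideal.absNorm P : ℕ) * (cnt K ((κ * h : ℕ) : 𝓞 K) h (P ^ k) : ℝ) := by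
    refine le_trans (sum_le_sum fun P _ => ?_) (sum_le_sum_of_subset_of_nonneg ?_ fun P _ _ =>
      sum_nonneg fun k _ => hterm0 P k)
    · exact single_le_sum (f := fun k => Real.log (Ideal.absNorm P : ℕ) *
        (cnt K ((κ * h : ℕ) : 𝓞 K) h (P ^ k) : ℝ)) (fun k _ => hterm0 P k) (mem_Icc.2 ⟨le_refl _, hk2⟩)
    · intro P hP
      obtain ⟨h1, h2, h3⟩ := (mem_PP (by linarith)).1 (mem_filter.1 hP).1
      exact (mem_PP (by linarith)).2 ⟨h1, h2, h3.trans hxY⟩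
  have hcnt : ∀ P ∈ (PP K x).filter (fun P => (Ideal.absNorm P).Prime),
      (h : ℝ) ^ n * (Real.log (Ideal.absNorm P : ℕ) / (Ideal.absNorm P : ℕ)) -
        K0 * (h : ℝ) ^ (n - 1) * (Real.log (Ideal.absNorm P : ℕ) *
          (((Ideal.absNorm P : ℕ) : ℝ) ^ ((1 : ℝ) / n) / ((Ideal.absNorm P : ℕ) : ℝ))) ≤
      Real.log (Ideal.absNorm P : ℕ) * (cnt K ((κ * h : ℕ) : 𝓞 K) h (P ^ 1) : ℝ) := by
    intro P hP
    obtain ⟨_, h2, h3⟩ := (mem_PP (by linarith)).1 (mem_filter.1 hP).1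
    rw [pow_one]
    have h4 := hlat P h2 ((κ * h : ℕ) : 𝓞 K) h hh (by
      rw [← mul_pow]
      refine h3.trans (hxY.trans ?_)
      rw [hY]
      push_cast
      exact le_refl _)
    have h5 := (abs_le.1 h4).1
    have h6 : (h : ℝ) ^ n / (Ideal.absNorm P : ℕ) - K0 * (h : ℝ) ^ (n - 1) *
        (((Ideal.absNorm P : ℕ) : ℝ) ^ ((1 : ℝ) / n) / (Ideal.absNorm P : ℕ)) ≤
        (cnt K ((κ * h : ℕ) : 𝓞 K) h P : ℝ) := by linarith
    refine le_trans (le_of_eq ?_) (mul_le_mul_of_nonneg_left h6 (Real.log_natCast_nonneg _))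
    ring
  have hsum := sum_le_sum hcnt
  rw [sum_sub_distrib, ← mul_sum, ← mul_sum] at hsum
  have hA := ha x 1 (by linarith)
  have hA2 : ∑ P ∈ (PP K x).filter (fun P => (Ideal.absNorm P).Prime), Real.log (Ideal.absNorm P : ℕ) *
          (((Ideal.absNorm P : ℕ) : ℝ) ^ ((1 : ℝ) / n) / ((Ideal.absNorm P : ℕ) : ℝ)) ≤
      Aa * x ^ ((1 : ℝ) / n) := by
    refine le_trans ?_ hA
    refine le_trans (sum_le_sum fun P hP => ?_) (sum_le_sum_of_subset_of_nonneg (filter_subset _ _)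
      fun P _ _ => sum_nonneg fun k _ => mul_nonneg (Real.log_natCast_nonneg _) (by positivity))
    have h1 := ((mem_PP (by linarith)).1 (mem_filter.1 hP).1).2.2
    have h2 : (Icc 1 1).filter (fun k => (((Ideal.absNorm P : ℕ) : ℝ)) ^ k ≤ x) = {1} := by
      rw [Icc_self, filter_singleton, pow_one, if_pos h1]
    rw [h2, sum_singleton, pow_one]
  have h1 : K0 * (h : ℝ) ^ (n - 1) * (∑ P ∈ (PP K x).filter (fun P => (Ideal.absNorm P).Prime),
      Real.log (Ideal.absNorm P : ℕ) *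
          (((Ideal.absNorm P : ℕ) : ℝ) ^ ((1 : ℝ) / n) / ((Ideal.absNorm P : ℕ) : ℝ))) ≤
      (h : ℝ) ^ n * (K0 * Aa) := by
    have h2 := mul_le_mul_of_nonneg_left (hA2.trans (mul_le_mul_of_nonneg_left hxh hAa.le))
      (show 0 ≤ K0 * (h : ℝ) ^ (n - 1) by positivity)
    have h3 : K0 * (h : ℝ) ^ (n - 1) * (Aa * h) = (h : ℝ) ^ n * (K0 * Aa) := by
      have h4 : (h : ℝ) ^ (n - 1) * h = (h : ℝ) ^ n := by
        rw [← pow_succ]
        congr 1
        omega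
      rw [← h4]
      ring
    rw [h3] at h2
    exact h2
  have h5 : (h : ℝ) ^ n * elmerD K x ≤ (h : ℝ) ^ n * (n * Real.log (B * h) + K0 * Aa) := by
    have h6 : (h : ℝ) ^ n * (n * Real.log (B * h) + K0 * Aa) =
        (h : ℝ) ^ n * (n * Real.log (B * h)) + (h : ℝ) ^ n * (K0 * Aa) := by ring
    rw [h6]
    unfold elmerD
    have h7 := hsum.trans (hsub.trans hup)
    linarith
  exact le_of_mul_le_mul_left h5 (by positivity)

private theorem elmer_mono (K : Type) [Field K] [NumberField K] (x y : ℝ) (hx : 0 ≤ x) (hxy : x ≤ y) :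
    elmerD K x ≤ elmerD K y := by
  unfold elmerD
  refine sum_le_sum_of_subset_of_nonneg ?_ fun P _ _ => div_nonneg (Real.log_natCast_nonneg _) (Nat.cast_nonneg _)
  intro P hP
  rw [mem_filter] at hP ⊢
  obtain ⟨h1, h2, h3⟩ := (mem_PP hx).1 hP.1
  exact ⟨(mem_PP (hx.trans hxy)).2 ⟨h1, h2, h3.trans hxy⟩, hP.2⟩

theorem mer (K : Type) [Field K] [NumberField K] : ∃ A : ℝ, 0 < A ∧ ∀ x : ℝ, 2 ≤ x →
    |(∑ P ∈ (PP K x).filter (fun P => (Ideal.absNorm P).Prime),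
      Real.log (Ideal.absNorm P : ℕ) / (Ideal.absNorm P : ℕ)) - Real.log x| ≤ A := by
  obtain ⟨κ, B, hB, hbox⟩ := box K
  have hn0 : 0 < Module.finrank ℚ K := Module.finrank_pos
  have hBR : (1 : ℝ) ≤ B := by exact_mod_cast hB
  obtain ⟨K0, hK0, hlat⟩ := lat K ((B : ℝ) ^ Module.finrank ℚ K) (one_le_pow₀ hBR)
  obtain ⟨Aa, hAa, ha⟩ := che_a K
  obtain ⟨Ab, hAb, hb⟩ := che_b K
  have hlow := elmer_low K κ B hB hbox K0 Aa Ab hK0 hlat ha
    (fun x k0 hx => elmer_split K x k0 Ab (hb x k0 hx))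
  have hup := elmer_up K κ B hB hbox K0 Aa hK0 hAa hlat ha
  set n := Module.finrank ℚ K with hn
  have hnR : (0 : ℝ) < n := by exact_mod_cast hn0
  have hlog2B : 0 ≤ Real.log (2 * B) := Real.log_nonneg (by linarith)
  refine ⟨n * Real.log (2 * B) + Ab + K0 * Aa * B + K0 * Aa, by positivity, fun x hx => ?_⟩
  have hx0 : (0 : ℝ) < x := by linarith
  set u : ℝ := x ^ ((1 : ℝ) / n) with hu
  have hu1 : 1 ≤ u := Real.one_le_rpow (by linarith) (by positivity)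
  have hun : u ^ n = x := by
    rw [hu, one_div]
    exact Real.rpow_inv_natCast_pow hx0.le (by omega)
  have hlogu : n * Real.log u = Real.log x := by
    rw [← Real.log_pow, hun]
  change |elmerD K x - Real.log x| ≤ _
  have hKA : 0 ≤ K0 * Aa := by positivity
  have hKAB : 0 ≤ K0 * Aa * B := by positivity
  rw [abs_le]
  constructor
  · -- lower bound
    have hfl := Nat.floor_le (show 0 ≤ u / B by positivity)
    have hfl2 := Nat.lt_floor_add_one (u / B)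
    set h := ⌊u / B⌋₊ with hh
    have hBpos : (0 : ℝ) < B := by linarith
    rcases Nat.eq_zero_or_pos h with h0 | h0
    · rw [h0, Nat.cast_zero, zero_add, div_lt_one hBpos] at hfl2
      have h1 : Real.log u ≤ Real.log (2 * B) := Real.log_le_log (by linarith) (by linarith)
      have h2 : 0 ≤ elmerD K x := sum_nonneg fun P _ =>
        div_nonneg (Real.log_natCast_nonneg _) (Nat.cast_nonneg _)
      have h3 := mul_le_mul_of_nonneg_left h1 hnR.le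
      linarith
    · have h1 := hlow h h0
      have hhR : (1 : ℝ) ≤ h := by exact_mod_cast h0
      have h2 : (((B * h) ^ n : ℕ) : ℝ) ≤ x := by
        rw [← hun]
        push_cast
        refine pow_le_pow_left₀ (by positivity) ?_ n
        rw [mul_comm]
        exact (le_div_iff₀ hBpos).1 hfl
      have h3 := elmer_mono K _ x (Nat.cast_nonneg _) h2
      have h4 : u ≤ (2 * B) * h := by
        rw [div_lt_iff₀ hBpos] at hfl2
        nlinarith
      have h5 : Real.log u ≤ Real.log (2 * B) + Real.log h := by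
        rw [← Real.log_mul (by positivity) (by positivity)]
        exact Real.log_le_log (by linarith) h4
      have h6 := mul_le_mul_of_nonneg_left h5 hnR.le
      rw [hlogu, mul_add] at h6
      linarith
  · -- upper bound
    have hc1 := Nat.le_ceil u
    have hc2 := (Nat.ceil_lt_add_one (show 0 ≤ u by linarith)).le
    set h := ⌈u⌉₊ with hh
    have hh1 : 1 ≤ h := by
      have : (0 : ℝ) < h := by linarith
      exact_mod_cast this
    have h1 := hup x hx h hh1 hc1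
    have h2 : (B : ℝ) * h ≤ (2 * B) * u := by nlinarith
    have hhR : (1 : ℝ) ≤ h := by exact_mod_cast hh1
    have h3 : Real.log (B * h) ≤ Real.log (2 * B) + Real.log u := by
      rw [← Real.log_mul (by positivity) (by positivity)]
      exact Real.log_le_log (by positivity) h2
    have h4 := mul_le_mul_of_nonneg_left h3 hnR.le
    rw [mul_add, hlogu] at h4
    linarith

end EL
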