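import Mathlib

/-! JOB ELMt.  The upper bound in Mertens' first theorem.

With `m = ⌊x⌋₊ ≥ 1`: `log m! = ∑_{p ≤ m} v_p(m!) log p ≥ ∑_{p ≤ m} ⌊m / p⌋ log p ≥ ∑_{p ≤ m} (m / p - 1) log p`, so `∑_{p ≤ m} log p / p ≤ (log m! + θ(m)) / m ≤ log m + log 4` (`m! ≤ m ^ m`, `Chebyshev.theta_le_log4_mul_x`). -/

namespace EL

open Finset

private theorem elmt_pow (p : ℕ) (hp : 1 ≤ p) (k : ℕ) : p ^ k ∣ (p * k).factorial := by
  induction k with
  | zero => simp
  | succ k ih =>
    have h1 : (p * k).factorial * p.factorial ∣ (p * k + p).factorial :=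
      Nat.factorial_mul_factorial_dvd_factorial_add _ _
    have h2 : p ∣ p.factorial := Nat.dvd_factorial hp le_rfl
    rw [pow_succ, Nat.mul_succ]
    exact (mul_dvd_mul ih h2).trans h1

private theorem elmt_fact (m : ℕ) :
    ∑ p ∈ (Icc 1 m).filter Nat.Prime, ((m / p : ℕ) : ℝ) * Real.log p ≤ Real.log (m.factorial) := by
  have h1 : Real.log (m.factorial) = ∑ p ∈ m.factorial.primeFactors, (m.factorial.factorization p : ℝ) * Real.log p := by
    have h2 := Real.log_nat_eq_sum_factorization m.factorial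
    rw [h2, Finsupp.sum]
    rfl
  rw [h1]
  have h3 : (Icc 1 m).filter Nat.Prime ⊆ m.factorial.primeFactors := by
    intro p hp
    simp only [mem_filter, mem_Icc] at hp
    rw [Nat.mem_primeFactors]
    exact ⟨hp.2, (Nat.Prime.dvd_factorial hp.2).2 hp.1.2, Nat.factorial_ne_zero m⟩
  calc ∑ p ∈ (Icc 1 m).filter Nat.Prime, ((m / p : ℕ) : ℝ) * Real.log p
      ≤ ∑ p ∈ (Icc 1 m).filter Nat.Prime, (m.factorial.factorization p : ℝ) * Real.log p := by
        apply Finset.sum_le_sum
        intro p hp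
        simp only [mem_filter, mem_Icc] at hp
        apply mul_le_mul_of_nonneg_right _ (Real.log_natCast_nonneg p)
        have h4 : p ^ (m / p) ∣ m.factorial :=
          (elmt_pow p hp.1.1 (m / p)).trans (Nat.factorial_dvd_factorial (Nat.mul_div_le m p))
        have h6 := (hp.2.pow_dvd_iff_le_factorization (Nat.factorial_ne_zero m)).1 h4
        exact_mod_cast h6
    _ ≤ _ := by
        apply Finset.sum_le_sum_of_subset_of_nonneg h3
        intro p _ _
        exact mul_nonneg (Nat.cast_nonneg _) (Real.log_natCast_nonneg p)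

theorem mert1 (x : ℝ) (hx : 1 ≤ x) :
    ∑ p ∈ (Icc 1 ⌊x⌋₊).filter Nat.Prime, Real.log p / p ≤ Real.log x + Real.log 4 := by
  set m : ℕ := ⌊x⌋₊ with hm
  have hx0 : (0 : ℝ) ≤ x := by linarith
  have hm1 : 1 ≤ m := Nat.le_floor (by exact_mod_cast hx)
  have hmR : (0 : ℝ) < m := by exact_mod_cast hm1
  have hmx : (m : ℝ) ≤ x := Nat.floor_le hx0
  have h1 := elmt_fact m
  have h2 : Real.log (m.factorial) ≤ m * Real.log m := by
    have h3 : m.factorial ≤ m ^ m := Nat.factorial_le_pow m
    have h4 : (0 : ℝ) < m.factorial := by exact_mod_cast Nat.factorial_pos m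
    have h5 : Real.log (m.factorial) ≤ Real.log ((m : ℝ) ^ m) :=
      Real.log_le_log h4 (by exact_mod_cast h3)
    rwa [Real.log_pow] at h5
  have h6 : ∑ p ∈ (Icc 1 m).filter Nat.Prime, Real.log p ≤ Real.log 4 * m := by
    have h7 := Chebyshev.theta_le_log4_mul_x (x := (m : ℝ)) hmR.le
    rw [Chebyshev.theta_eq_sum_Icc, Nat.floor_natCast] at h7
    refine le_trans ?_ h7
    apply Finset.sum_le_sum_of_subset_of_nonneg
    · intro p hp
      simp only [mem_filter, mem_Icc] at hp ⊢
      exact ⟨⟨by omega, hp.1.2⟩, hp.2⟩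
    · intro p _ _
      exact Real.log_natCast_nonneg p
  have h8 : ∀ p ∈ (Icc 1 m).filter Nat.Prime, (m : ℝ) * (Real.log p / p) ≤
      ((m / p : ℕ) : ℝ) * Real.log p + Real.log p := by
    intro p hp
    simp only [mem_filter, mem_Icc] at hp
    have hp0 : (0 : ℝ) < p := by exact_mod_cast hp.1.1
    have h9 : (m : ℝ) / p ≤ ((m / p : ℕ) : ℝ) + 1 := by
      rw [← Nat.floor_div_eq_div (K := ℝ)]
      exact (Nat.lt_floor_add_one _).le
    have h10 : (m : ℝ) * (Real.log p / p) = (m : ℝ) / p * Real.log p := by ring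
    rw [h10]
    have h11 := mul_le_mul_of_nonneg_right h9 (Real.log_natCast_nonneg p)
    linarith
  have h12 : (m : ℝ) * ∑ p ∈ (Icc 1 m).filter Nat.Prime, Real.log p / p ≤ m * (Real.log m + Real.log 4) := by
    rw [Finset.mul_sum]
    refine (Finset.sum_le_sum h8).trans ?_
    rw [Finset.sum_add_distrib]
    linarith
  have h13 := le_of_mul_le_mul_left h12 hmR
  have h14 : Real.log m ≤ Real.log x := Real.log_le_log hmR hmx
  linarith

end EL
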