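import Pool.Agent.Lib.MP_10e784_ag.EL.ELFib
import Pool.Agent.Lib.MP_10e784_ag.TW.TWOmega

/-! JOB ELOm.  Forbidden residues for one prime, relative version (adapt `TW/TWOm2.lean`, `omega_one`).

`m = dg g I = (univ.filter fun c : Co g => c.1 ∈ I).card ≥ 3`.  `fib_rel`: the fibres of `{w | Al g p w}` over the coordinates outside `I` have at most `p ^ m (1 - γ0)` elements, `γ0 = (ρ - ind RP + ind S / 4) / p - C0 / p ^ 2`, and trivially at most `p ^ m` elements.  Let `γ = max 0 γ0`, `u = ⌊p ^ m γ⌋₊`: `fibre + u ≤ p ^ m` (real inequality, then cast).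
`choose_omega` with `A = univ.filter (c.1 ∈ I)`; `ω = u / p ^ m`, `γ - 1 / p ^ m ≤ ω ≤ γ` and `1 / p ^ m ≤ 1 / p ^ 2`.  `γ ≤ (ρ + 0) / p`: `ρ - ind RP + ind S / 4 ≤ ρ` because `ind S ≤ ind RP` (for `p ∈ S` all `rt (g i) p = natDegree ≥ 3` and the index type is nonempty by `hg.six`); `ρ ≤ N` (`nu_facts`) and `N / p ≤ 1/2` because `p ≥ 8 N ^ 2 ≥ 2 N`.  `C1 = C0 + 1`. -/

namespace EL

open Polynomial Finset TW

private theorem elom_card {ι : Type} [Fintype ι] [DecidableEq ι] (g : ι → ℤ[X]) (I : Finset ι) :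
    (univ.filter fun c : Co g => c.1 ∈ I).card = dg g I := by
  have h : (univ.filter fun c : Co g => c.1 ∈ I) = I.sigma fun i => (univ : Finset (Fin (g i).natDegree)) := by
    ext c
    simp only [Finset.mem_filter, Finset.mem_univ, true_and, Finset.mem_sigma, and_true]
  rw [h, Finset.card_sigma]
  simp only [Finset.card_univ, Fintype.card_fin]
  rfl

theorem omega_rel {ι : Type} [Fintype ι] [DecidableEq ι] {g : ι → ℤ[X]} (hg : Fam g) (h3 : ∀ i, 3 ≤ (g i).natDegree)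
    (S : Set ℕ) (hS : ∀ p ∈ S, ∀ i, PT.rt (g i) p = (g i).natDegree) :
    ∃ C1 : ℝ, 0 ≤ C1 ∧ ∀ p : ℕ, GoodP g p → ∀ I : Finset ι, I.Nonempty →
      ∃ (Ω : Set (Co g → ZMod p)) (ω : ℝ), (∀ w ∈ Ω, ¬ Al g p w) ∧ 0 ≤ ω ∧ ω ≤ 1 / 2 ∧
        ω ≤ (∑ i, (g i).natDegree : ℕ) / (p : ℝ) ∧
        ((rts g I p : ℝ) - PT.ind (RP g) p + PT.ind S p / 4) / p - C1 / (p : ℝ) ^ 2 ≤ ω ∧
        ∀ y : Co g → ZMod p, (Nat.card {w : Co g → ZMod p // w ∈ Ω ∧ ∀ c : Co g, c.1 ∉ I → w c = y c} : ℝ) =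
          ω * (p : ℝ) ^ (univ.filter fun c : Co g => c.1 ∈ I).card := by
  obtain ⟨C0, hC0, hfib⟩ := fib_rel hg h3 S hS
  refine ⟨C0 + 1, by linarith, ?_⟩
  intro p hp I hI
  have : Fact p.Prime := ⟨hp.prime⟩
  have hpp : (0 : ℝ) < p := by exact_mod_cast hp.prime.pos
  have hp1 : (1 : ℝ) ≤ p := by exact_mod_cast hp.prime.one_lt.le
  obtain ⟨hn1, hn2, -, -⟩ := nu_facts hg p hp I
  have hind : PT.ind S p / 4 ≤ PT.ind (RP g) p := by
    unfold PT.ind
    by_cases hpS : p ∈ S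
    · have hR : p ∈ RP g := by
        show 1 ≤ rts g univ p
        have h1 : rts g univ p = ∑ i, (g i).natDegree := Finset.sum_congr rfl (fun i _ => hS p hpS i)
        rw [h1]
        have h2 := hg.six
        omega
      rw [if_pos hpS, if_pos hR]
      norm_num
    · rw [if_neg hpS]
      split_ifs <;> norm_num
  set N : ℕ := ∑ i, (g i).natDegree with hN
  have hm2 : 2 ≤ dg g I := by
    obtain ⟨i, hi⟩ := hI
    have h1 : (g i).natDegree ≤ dg g I :=
      Finset.single_le_sum (f := fun i => (g i).natDegree) (fun _ _ => Nat.zero_le _) hi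
    have h2 := h3 i
    omega
  have hmN : dg g I ≤ N := Finset.sum_le_sum_of_subset (Finset.subset_univ I)
  have hρN : (rts g I p : ℝ) ≤ N := by exact_mod_cast (hn1.trans hn2).trans hmN
  have hNp : (N : ℝ) / p ≤ 1 / 2 := by
    rw [div_le_div_iff₀ hpp two_pos]
    have h1 : (8 : ℝ) * (N : ℝ) ^ 2 ≤ p := by exact_mod_cast hp.big
    have h2 : (6 : ℝ) ≤ N := by exact_mod_cast hg.six
    nlinarith
  set γ : ℝ := ((rts g I p : ℝ) - PT.ind (RP g) p + PT.ind S p / 4) / p - C0 / (p : ℝ) ^ 2 with hγ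
  have hp2 : (0 : ℝ) < (p : ℝ) ^ 2 := by positivity
  have hC1 : ((rts g I p : ℝ) - PT.ind (RP g) p + PT.ind S p / 4) / p - (C0 + 1) / (p : ℝ) ^ 2 =
      γ - 1 / (p : ℝ) ^ 2 := by
    rw [hγ, add_div]
    ring
  have hinv : (0 : ℝ) < 1 / (p : ℝ) ^ 2 := by positivity
  rcases le_or_gt γ 0 with h0 | h0
  · refine ⟨∅, 0, fun w hw => absurd hw (Set.notMem_empty w), le_rfl, by norm_num, by positivity, ?_, ?_⟩
    · rw [hC1]
      linarith
    · intro y
      rw [zero_mul, Nat.cast_eq_zero, Nat.card_eq_zero]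
      left
      exact ⟨fun w => Set.notMem_empty _ w.2.1⟩
  have hm0 : (0 : ℝ) < (p : ℝ) ^ dg g I := by positivity
  set u : ℕ := ⌊(p : ℝ) ^ dg g I * γ⌋₊ with hu
  have hu1 : (u : ℝ) ≤ (p : ℝ) ^ dg g I * γ := Nat.floor_le (by positivity)
  have hu2 : (p : ℝ) ^ dg g I * γ < u + 1 := Nat.lt_floor_add_one _
  have hA := elom_card g I
  obtain ⟨Ω, hΩ1, hΩ2⟩ := choose_omega p hp.prime {w : Co g → ZMod p | Al g p w} (univ.filter fun c : Co g => c.1 ∈ I) u
    (by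
      intro y
      rw [hA]
      have h1 := hfib p hp I hI y
      have h2 : Nat.card {w : Co g → ZMod p // w ∈ {w : Co g → ZMod p | Al g p w} ∧
          ∀ c, c ∉ (univ.filter fun c : Co g => c.1 ∈ I) → w c = y c} =
          Nat.card {w : Co g → ZMod p // Al g p w ∧ ∀ c : Co g, c.1 ∉ I → w c = y c} := by
        refine Nat.card_congr (Equiv.subtypeEquivRight fun w => ?_)
        simp only [Set.mem_ofPred_eq, Finset.mem_filter, Finset.mem_univ, true_and]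
      rw [h2]
      have h3 : ((Nat.card {w : Co g → ZMod p // Al g p w ∧ ∀ c : Co g, c.1 ∉ I → w c = y c} + u : ℕ) : ℝ) ≤
          ((p ^ dg g I : ℕ) : ℝ) := by
        push_cast
        calc (Nat.card {w : Co g → ZMod p // Al g p w ∧ ∀ c : Co g, c.1 ∉ I → w c = y c} : ℝ) + u
            ≤ (p : ℝ) ^ dg g I * (1 - γ) + (p : ℝ) ^ dg g I * γ := add_le_add h1 hu1
          _ = (p : ℝ) ^ dg g I := by ring
      exact_mod_cast h3)
  have hωγ : (u : ℝ) / (p : ℝ) ^ dg g I ≤ γ := by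
    rw [div_le_iff₀ hm0]
    linarith
  have hγN : γ ≤ N / p := by
    have h1 : ((rts g I p : ℝ) - PT.ind (RP g) p + PT.ind S p / 4) / p ≤ N / p :=
      div_le_div_of_nonneg_right (by linarith) hpp.le
    have h2 : 0 ≤ C0 / (p : ℝ) ^ 2 := by positivity
    rw [hγ]
    linarith
  refine ⟨Ω, u / (p : ℝ) ^ dg g I, fun w hw => hΩ1 w hw, by positivity, by linarith, by linarith, ?_, ?_⟩
  · rw [hC1]
    have h1 : (p : ℝ) ^ 2 ≤ (p : ℝ) ^ dg g I := pow_le_pow_right₀ hp1 hm2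
    have h2 : 1 / (p : ℝ) ^ dg g I ≤ 1 / (p : ℝ) ^ 2 := one_div_le_one_div_of_le hp2 h1
    have h3 : γ ≤ (u : ℝ) / (p : ℝ) ^ dg g I + 1 / (p : ℝ) ^ dg g I := by
      rw [← add_div, le_div_iff₀ hm0]
      linarith
    linarith
  · intro y
    have h1 := hΩ2 y
    have h2 : Nat.card {w : Co g → ZMod p // w ∈ Ω ∧ ∀ c : Co g, c.1 ∉ I → w c = y c} =
        Nat.card {w : Co g → ZMod p // w ∈ Ω ∧
          ∀ c, c ∉ (univ.filter fun c : Co g => c.1 ∈ I) → w c = y c} := by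
      refine Nat.card_congr (Equiv.subtypeEquivRight fun w => ?_)
      simp only [Finset.mem_filter, Finset.mem_univ, true_and]
    rw [h2, h1, hA, div_mul_cancel₀ _ hm0.ne']

end EL
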