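import Pool.Agent.Lib.MP_10e784_ag.EL.ELDefs

/-! JOB ELRepr.  Short representatives of the classes modulo an ideal.

Let `b = RingOfIntegers.basis K`, `n = finrank ℚ K = card (Ix K)` (`RingOfIntegers.rank`), `A = absNorm 𝔞 = Nat.card (𝓞 K ⧸ 𝔞) ≥ 1`, `a = A ^ (1/n)`.
`C1 = ∑_i ∑_σ ‖σ (b i)‖`, over the finitely many `σ : K →+* ℂ`; `C2` with `|(b.repr x i : ℝ)| ≤ C2 R` whenever all `‖σ x‖ ≤ R` (`R ≥ 0`): see the private lemma `twcoord_repr` in `TW/TWCoord.lean`.
(1) There is `0 ≠ β ∈ 𝔞` with `‖σ β‖ ≤ C1 a` for all `σ`: let `k = ⌊a⌋₊`; the `(k + 1) ^ n > A` elements `∑ y_i b_i`, `y_i ∈ {0..k}`, cannot be pairwise incongruent modulo `𝔞` (pigeonhole); the difference of two congruent ones is `β`, its coordinates are at most `k ≤ a` in absolute value.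
(2) For `z : 𝓞 K` write `z / β = ∑ c_i b_i` in `K` with rational `c_i` (`integralBasis K`), `q = ∑ ⌊c_i⌋ b_i ∈ 𝓞 K`, `r = z - β q`.  Then `z - r = β q ∈ 𝔞` and `σ r = σ β * ∑ (c_i - ⌊c_i⌋) σ (b i)`, so `‖σ r‖ ≤ C1 a * C1`.
(3) `|repr r i| ≤ C2 C1 ^ 2 a`.  `R0 = max 1 (C2 C1 ^ 2)`. -/

namespace EL

open NumberField Finset

private theorem elrepr_repr (K : Type) [Field K] [NumberField K] :
    ∃ c : Ix K → ℝ, (∀ j, 0 ≤ c j) ∧ ∀ (x : 𝓞 K) (R : ℝ), 0 ≤ R →
      (∀ σ : K →+* ℂ, ‖σ (x : K)‖ ≤ R) → ∀ j, |((RingOfIntegers.basis K).repr x j : ℝ)| ≤ c j * R := by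
  refine ⟨fun j => ‖LinearMap.toContinuousLinearMap ((canonicalEmbedding.latticeBasis K).coord j)‖,
    fun j => norm_nonneg (LinearMap.toContinuousLinearMap
      ((canonicalEmbedding.latticeBasis K).coord j)), fun x R hR hx j => ?_⟩
  have h1 : (canonicalEmbedding.latticeBasis K).repr (canonicalEmbedding K (x : K)) j =
      (((RingOfIntegers.basis K).repr x j : ℤ) : ℂ) := by
    rw [canonicalEmbedding.integralBasis_repr_apply]
    have h2 := integralBasis_repr_apply K x j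
    have h3 : (algebraMap (𝓞 K) K) x = (x : K) := rfl
    rw [h3] at h2
    rw [h2]
    simp
  have h4 := (LinearMap.toContinuousLinearMap ((canonicalEmbedding.latticeBasis K).coord j)).le_opNorm
    (canonicalEmbedding K (x : K))
  have h5 : (LinearMap.toContinuousLinearMap ((canonicalEmbedding.latticeBasis K).coord j))
      (canonicalEmbedding K (x : K)) = (((RingOfIntegers.basis K).repr x j : ℤ) : ℂ) := by
    rw [← h1]
    rfl
  rw [h5, Complex.norm_intCast] at h4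
  refine h4.trans (mul_le_mul_of_nonneg_left ?_ (norm_nonneg _))
  rw [pi_norm_le_iff_of_nonneg hR]
  intro σ
  rw [canonicalEmbedding.apply_at]
  exact hx σ

private theorem elrepr_card (K : Type) [Field K] [NumberField K] :
    Fintype.card (Ix K) = Module.finrank ℚ K := by
  rw [← RingOfIntegers.rank K, Module.finrank_eq_card_basis (RingOfIntegers.basis K)]

/-- a short nonzero element of an ideal -/
private theorem elrepr_short (K : Type) [Field K] [NumberField K] (𝔞 : Ideal (𝓞 K)) (ha : 𝔞 ≠ ⊥) (C1 : ℝ)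
    (hC1 : ∀ σ : K →+* ℂ, ∑ i, ‖σ ((RingOfIntegers.basis K i : 𝓞 K) : K)‖ ≤ C1) :
    ∃ β : 𝓞 K, β ≠ 0 ∧ β ∈ 𝔞 ∧ ∀ σ : K →+* ℂ,
      ‖σ (β : K)‖ ≤ C1 * ((Ideal.absNorm 𝔞 : ℕ) : ℝ) ^ ((1 : ℝ) / Module.finrank ℚ K) := by
  classical
  set n := Module.finrank ℚ K with hn
  have hn0 : 0 < n := Module.finrank_pos
  have hnR : (0 : ℝ) < n := by exact_mod_cast hn0
  set A : ℕ := Ideal.absNorm 𝔞 with hA
  have hA0 : A ≠ 0 := by
    rw [hA]
    exact Ideal.absNorm_ne_zero_iff_mem_nonZeroDivisors.2 (mem_nonZeroDivisors_of_ne_zero ha)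
  set a : ℝ := (A : ℝ) ^ ((1 : ℝ) / n) with haa
  have ha0 : 0 ≤ a := Real.rpow_nonneg (Nat.cast_nonneg A) _
  have han : a ^ n = A := by
    rw [haa, ← Real.rpow_natCast, ← Real.rpow_mul (Nat.cast_nonneg A)]
    rw [one_div, inv_mul_cancel₀ hnR.ne', Real.rpow_one]
  set k : ℕ := ⌊a⌋₊ with hk
  have hka : (k : ℝ) ≤ a := Nat.floor_le ha0
  have hka1 : a < (k : ℝ) + 1 := Nat.lt_floor_add_one a
  have hcard : A < (k + 1) ^ n := by
    have h1 : (A : ℝ) < ((k : ℝ) + 1) ^ n := by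
      rw [← han]
      exact pow_lt_pow_left₀ hka1 ha0 hn0.ne'
    exact_mod_cast h1
  have hfin : Finite (𝓞 K ⧸ 𝔞) := Ideal.finiteQuotientOfFreeOfNeBot 𝔞 ha
  let _ : Fintype (𝓞 K ⧸ 𝔞) := Fintype.ofFinite _
  have hcardQ : Fintype.card (𝓞 K ⧸ 𝔞) = A := by
    rw [hA, Ideal.absNorm_apply, Submodule.cardQuot_apply, ← Nat.card_eq_fintype_card]
  set Y : Finset (Ix K → ℕ) := Fintype.piFinset fun _ : Ix K => range (k + 1) with hY
  have hYcard : Y.card = (k + 1) ^ n := by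
    rw [hY, Fintype.card_piFinset]
    simp only [Finset.card_range, Finset.prod_const, Finset.card_univ]
    rw [elrepr_card K]
  obtain ⟨y, hy, y', hy', hne, hmap⟩ := Finset.exists_ne_map_eq_of_card_lt_of_maps_to
    (s := Y) (t := (univ : Finset (𝓞 K ⧸ 𝔞))) (f := fun y => Ideal.Quotient.mk 𝔞 (al K y))
    (by rw [Finset.card_univ, hcardQ, hYcard]; exact hcard) (fun y _ => mem_univ _)
  have hco : ∀ y : Ix K → ℕ, ∀ i, (RingOfIntegers.basis K).repr (al K y) i = y i := by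
    intro y i
    have h1 : al K y = ∑ i, (y i : ℤ) • RingOfIntegers.basis K i := by
      unfold al
      refine Finset.sum_congr rfl fun i _ => ?_
      rw [zsmul_eq_mul, Int.cast_natCast]
    rw [h1, Module.Basis.repr_sum_self]
  refine ⟨al K y - al K y', ?_, ?_, ?_⟩
  · intro h0
    apply hne
    have h1 : al K y = al K y' := sub_eq_zero.1 h0
    funext i
    have h2 := hco y i
    rw [h1, hco y' i] at h2
    exact_mod_cast h2.symm
  · exact Ideal.Quotient.eq.1 hmap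
  · intro σ
    have h3 : ∀ y : Ix K → ℕ, σ ((al K y : 𝓞 K) : K) = ∑ i, (y i : ℂ) * σ ((RingOfIntegers.basis K i : 𝓞 K) : K) := by
      intro y
      unfold al
      rw [RingOfIntegers.coe_eq_algebraMap, map_sum, map_sum]
      refine Finset.sum_congr rfl fun i _ => ?_
      rw [map_mul, map_mul, map_natCast, map_natCast]
    have h4 : σ ((al K y - al K y' : 𝓞 K) : K) =
        ∑ i, ((y i : ℂ) - (y' i : ℂ)) * σ ((RingOfIntegers.basis K i : 𝓞 K) : K) := by
      have h5 : ((al K y - al K y' : 𝓞 K) : K) = ((al K y : 𝓞 K) : K) - ((al K y' : 𝓞 K) : K) := by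
        simp
      rw [h5, map_sub, h3, h3, ← Finset.sum_sub_distrib]
      refine Finset.sum_congr rfl fun i _ => ?_
      ring
    rw [h4]
    refine (norm_sum_le _ _).trans ?_
    calc ∑ i, ‖((y i : ℂ) - (y' i : ℂ)) * σ ((RingOfIntegers.basis K i : 𝓞 K) : K)‖
        ≤ ∑ i, a * ‖σ ((RingOfIntegers.basis K i : 𝓞 K) : K)‖ := by
          refine Finset.sum_le_sum fun i _ => ?_
          rw [norm_mul]
          apply mul_le_mul_of_nonneg_right _ (norm_nonneg _)
          have h6 : ((y i : ℂ) - (y' i : ℂ)) = (((y i : ℝ) - (y' i : ℝ) : ℝ) : ℂ) := by push_cast; ring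
          rw [h6, Complex.norm_real, Real.norm_eq_abs]
          have h7 : y i ≤ k := by
            have := Fintype.mem_piFinset.1 hy i
            rw [mem_range] at this
            omega
          have h8 : y' i ≤ k := by
            have := Fintype.mem_piFinset.1 hy' i
            rw [mem_range] at this
            omega
          have h9 : (y i : ℝ) ≤ k := by exact_mod_cast h7
          have h10 : (y' i : ℝ) ≤ k := by exact_mod_cast h8
          rw [abs_le]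
          constructor
          · have : (0 : ℝ) ≤ y i := Nat.cast_nonneg _
            linarith
          · have : (0 : ℝ) ≤ y' i := Nat.cast_nonneg _
            linarith
      _ = a * ∑ i, ‖σ ((RingOfIntegers.basis K i : 𝓞 K) : K)‖ := by rw [Finset.mul_sum]
      _ ≤ a * C1 := mul_le_mul_of_nonneg_left (hC1 σ) ha0
      _ = C1 * a := mul_comm _ _

theorem rep_short (K : Type) [Field K] [NumberField K] :
    ∃ R0 : ℝ, 1 ≤ R0 ∧ ∀ 𝔞 : Ideal (𝓞 K), 𝔞 ≠ ⊥ → ∀ z : 𝓞 K, ∃ r : 𝓞 K, z - r ∈ 𝔞 ∧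
      ∀ i, |((RingOfIntegers.basis K).repr r i : ℝ)| ≤
        R0 * ((Ideal.absNorm 𝔞 : ℕ) : ℝ) ^ ((1 : ℝ) / Module.finrank ℚ K) := by
  classical
  obtain ⟨c, hc0, hc⟩ := elrepr_repr K
  set C1 : ℝ := ∑ σ : K →+* ℂ, ∑ i, ‖σ ((RingOfIntegers.basis K i : 𝓞 K) : K)‖ with hC1def
  have hC1 : ∀ σ : K →+* ℂ, ∑ i, ‖σ ((RingOfIntegers.basis K i : 𝓞 K) : K)‖ ≤ C1 := by
    intro σ
    exact Finset.single_le_sum (f := fun σ : K →+* ℂ => ∑ i, ‖σ ((RingOfIntegers.basis K i : 𝓞 K) : K)‖)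
      (fun _ _ => Finset.sum_nonneg fun _ _ => norm_nonneg _) (mem_univ σ)
  have hC10 : 0 ≤ C1 := Finset.sum_nonneg fun _ _ => Finset.sum_nonneg fun _ _ => norm_nonneg _
  have hcs : 0 ≤ ∑ j, c j := Finset.sum_nonneg fun j _ => hc0 j
  refine ⟨1 + (∑ j, c j) * C1 ^ 2, ?_, fun 𝔞 ha z => ?_⟩
  · have : 0 ≤ (∑ j, c j) * C1 ^ 2 := by positivity
    linarith
  obtain ⟨β, hβ0, hβ, hβn⟩ := elrepr_short K 𝔞 ha C1 hC1
  set a : ℝ := ((Ideal.absNorm 𝔞 : ℕ) : ℝ) ^ ((1 : ℝ) / Module.finrank ℚ K) with haa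
  have ha0 : 0 ≤ a := Real.rpow_nonneg (Nat.cast_nonneg _) _
  have hβK : (β : K) ≠ 0 := by
    rw [RingOfIntegers.coe_eq_algebraMap]
    exact RingOfIntegers.coe_ne_zero_iff.2 hβ0
  set cc : Ix K → ℚ := fun i => (integralBasis K).repr ((z : K) / (β : K)) i with hcc
  have hzb : (z : K) / (β : K) = ∑ i, (cc i : K) * ((RingOfIntegers.basis K i : 𝓞 K) : K) := by
    have h1 := (integralBasis K).sum_repr ((z : K) / (β : K))
    rw [← h1]
    refine Finset.sum_congr rfl fun i _ => ?_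
    rw [integralBasis_apply, Algebra.smul_def]
    simp [hcc]
  set q : 𝓞 K := ∑ i, ((⌊cc i⌋ : ℤ) : 𝓞 K) * RingOfIntegers.basis K i with hq
  have hqK : (q : K) = ∑ i, ((⌊cc i⌋ : ℤ) : K) * ((RingOfIntegers.basis K i : 𝓞 K) : K) := by
    rw [hq, RingOfIntegers.coe_eq_algebraMap, map_sum]
    refine Finset.sum_congr rfl fun i _ => ?_
    rw [map_mul, map_intCast]
  refine ⟨z - β * q, ?_, ?_⟩
  · rw [sub_sub_cancel]
    exact 𝔞.mul_mem_right q hβ
  · intro i
    have hbound : ∀ σ : K →+* ℂ, ‖σ (((z - β * q : 𝓞 K)) : K)‖ ≤ C1 ^ 2 * a := by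
      intro σ
      have h2 : ((z - β * q : 𝓞 K) : K) = (β : K) *
          ∑ i, (((cc i - (⌊cc i⌋ : ℤ) : ℚ)) : K) * ((RingOfIntegers.basis K i : 𝓞 K) : K) := by
        have h3 : ((z - β * q : 𝓞 K) : K) = (z : K) - (β : K) * (q : K) := by simp
        have h4 : (z : K) = (β : K) * ((z : K) / (β : K)) := by field_simp
        rw [h3, h4, hzb, hqK, ← mul_sub, ← Finset.sum_sub_distrib]
        congr 1
        refine Finset.sum_congr rfl fun i _ => ?_
        push_cast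
        ring
      rw [h2, map_mul, norm_mul]
      have h5 : ‖σ (∑ i, (((cc i - (⌊cc i⌋ : ℤ) : ℚ)) : K) * ((RingOfIntegers.basis K i : 𝓞 K) : K))‖ ≤ C1 := by
        rw [map_sum]
        refine (norm_sum_le _ _).trans ?_
        refine le_trans ?_ (hC1 σ)
        refine Finset.sum_le_sum fun i _ => ?_
        rw [map_mul, norm_mul]
        have h6 : ‖σ (((cc i - (⌊cc i⌋ : ℤ) : ℚ)) : K)‖ ≤ 1 := by
          rw [map_ratCast]
          have h7 : ((cc i - (⌊cc i⌋ : ℤ) : ℚ) : ℂ) = (((cc i - (⌊cc i⌋ : ℤ) : ℚ) : ℝ) : ℂ) := by push_cast; ring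
          rw [h7, Complex.norm_real, Real.norm_eq_abs]
          have h8 : 0 ≤ cc i - (⌊cc i⌋ : ℤ) := by
            have := Int.floor_le (cc i)
            linarith
          have h9 : cc i - (⌊cc i⌋ : ℤ) ≤ 1 := by
            have := Int.lt_floor_add_one (cc i)
            linarith
          rw [abs_of_nonneg (by exact_mod_cast h8)]
          exact_mod_cast h9
        calc ‖σ (((cc i - (⌊cc i⌋ : ℤ) : ℚ)) : K)‖ * ‖σ ((RingOfIntegers.basis K i : 𝓞 K) : K)‖
            ≤ 1 * ‖σ ((RingOfIntegers.basis K i : 𝓞 K) : K)‖ := mul_le_mul_of_nonneg_right h6 (norm_nonneg _)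
          _ = _ := one_mul _
      calc ‖σ (β : K)‖ * ‖σ (∑ i, (((cc i - (⌊cc i⌋ : ℤ) : ℚ)) : K) * ((RingOfIntegers.basis K i : 𝓞 K) : K))‖
          ≤ (C1 * a) * C1 := mul_le_mul (hβn σ) h5 (norm_nonneg _) (by positivity)
        _ = C1 ^ 2 * a := by ring
    have h1 := hc (z - β * q) (C1 ^ 2 * a) (by positivity) hbound i
    refine h1.trans ?_
    have h2 : c i ≤ ∑ j, c j := Finset.single_le_sum (fun j _ => hc0 j) (mem_univ i)
    calc c i * (C1 ^ 2 * a) ≤ (∑ j, c j) * (C1 ^ 2 * a) := mul_le_mul_of_nonneg_right h2 (by positivity)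
      _ ≤ (1 + (∑ j, c j) * C1 ^ 2) * a := by nlinarith

end EL
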