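import Pool.Agent.Lib.MP_10e784_ag.EL.ELMt
import Pool.Agent.Lib.MP_10e784_ag.EL.ELMert

/-! JOB ELSm.  The sum of `1 / b` over the squarefree `b ≤ x` composed of primes of a given set (uniform in the set).

For `z ≥ 2` let `P` be the set of the primes `p ≤ z` in `R`, `η = 1 / log z`.
`∏_{p ∈ P} (1 + 1/p) = ∑_{T ⊆ P} 1 / ∏ T` (`Finset.prod_one_add`/`prod_add_one`).  For the `T` with `∏ T ≤ x` the map `T ↦ ∏ T` is injective into the squarefree `b ≤ x` composed of primes of `R`, so they contribute at most the sum in question, `Σ`.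
For the `T` with `∏ T > x`: `1 ≤ (∏ T / x) ^ η`, so they contribute at most `x ^ (-η) ∑_{T ⊆ P} ∏_{p ∈ T} p ^ (η - 1) = x ^ (-η) ∏_{p ∈ P} (1 + p ^ (η - 1)) ≤ x ^ (-η) exp (∑_{p ∈ P} p ^ (η - 1))`, and `p ^ η = exp (η log p) ≤ 1 + 2 η log p` (`0 ≤ η log p ≤ 1`, convexity), so `∑_{p ∈ P} p ^ (η - 1) ≤ ∑_{p ∈ P} 1 / p + 2 η ∑_{p ≤ z} log p / p ≤ ∑_{p ∈ P} 1/p + 2 + 2 (log 4) / (log 2)` (`mert1`, `log z ≥ log 2`) `≤ ∑_{p ∈ P} 1/p + 6`.
`∏_{p ∈ P} (1 + 1/p) ≥ exp (∑_{p ∈ P} 1/p - ∑ 1/p ^ 2) ≥ exp (-1) exp (∑_{p ∈ P} 1/p)` (`log (1 + t) ≥ t - t ^ 2`).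
Take `z = x ^ (1/8)`: `x ^ (-η) = exp (-8)`, so `Σ ≥ (exp (-1) - exp (-8 + 6)) exp (∑_{p ∈ P} 1/p)`, and `exp (-1) > exp (-2)`.  Since `∑_{p ∈ P} 1/p = PS (ind R) z`, `PS (ind R) x ≤ PS (ind R) z + log 8 + A` (`ps_pow`).
If `x ^ (1/8) < 2`: `PS (ind R) x ≤ PS (ind R) 256 ≤ 256` and `Σ ≥ 1` (`b = 1`). -/

namespace EL

open Finset

private theorem elsm_exp_upper {t : ℝ} (h0 : 0 ≤ t) (h1 : t ≤ 1) : Real.exp t ≤ 1 + 2 * t := by
  have h2 := Real.abs_exp_sub_one_sub_id_le (x := t) (by rw [abs_of_nonneg h0]; exact h1)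
  have h3 := (abs_le.1 h2).2
  nlinarith

private theorem elsm_exp_lower {t : ℝ} (h0 : 0 ≤ t) (h1 : t ≤ 1) : Real.exp (t - t ^ 2) ≤ 1 + t := by
  have h4 : 0 ≤ t - t ^ 2 := by nlinarith
  have h5 : t - t ^ 2 ≤ t := by nlinarith
  have h2 := Real.abs_exp_sub_one_sub_id_le (x := t - t ^ 2) (by rw [abs_of_nonneg h4]; linarith)
  have h3 := (abs_le.1 h2).2
  nlinarith

/-- `∑ 1 / n ^ 2 ≤ 1` over `n ≥ 2` -/
private theorem elsm_sq (m : ℕ) (hm : 1 ≤ m) : ∑ n ∈ Icc 2 m, (1 : ℝ) / (n : ℝ) ^ 2 ≤ 1 - 1 / (m : ℝ) := by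
  induction m, hm using Nat.le_induction with
  | base => norm_num
  | succ k hk ih =>
    rw [Finset.sum_Icc_succ_top (by omega)]
    have hk0 : (0 : ℝ) < k := by exact_mod_cast hk
    push_cast
    have h1 : (1 : ℝ) / ((k : ℝ) + 1) ^ 2 ≤ 1 / k - 1 / (k + 1) := by
      rw [div_sub_div _ _ hk0.ne' (by positivity), div_le_div_iff₀ (by positivity) (by positivity)]
      nlinarith
    linarith

private theorem elsm_sq' (P : Finset ℕ) (hP : ∀ p ∈ P, p.Prime) : ∑ p ∈ P, (1 : ℝ) / (p : ℝ) ^ 2 ≤ 1 := by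
  have h1 : P ⊆ Icc 2 (P.sup id + 1) := by
    intro p hp
    rw [mem_Icc]
    have := Finset.le_sup (f := id) hp
    simp only [id] at this
    exact ⟨(hP p hp).two_le, by omega⟩
  refine (Finset.sum_le_sum_of_subset_of_nonneg h1 fun _ _ _ => by positivity).trans ?_
  refine (elsm_sq _ (by omega)).trans ?_
  have : (0 : ℝ) ≤ 1 / ((P.sup id + 1 : ℕ) : ℝ) := by positivity
  linarith

private theorem elsm_prod_low (P : Finset ℕ) (hP : ∀ p ∈ P, p.Prime) :
    Real.exp (∑ p ∈ P, (1 : ℝ) / p - 1) ≤ ∏ p ∈ P, (1 + (1 : ℝ) / p) := by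
  have h1 : ∑ p ∈ P, (1 : ℝ) / p - 1 ≤ ∑ p ∈ P, ((1 : ℝ) / p - ((1 : ℝ) / p) ^ 2) := by
    rw [Finset.sum_sub_distrib]
    have h2 := elsm_sq' P hP
    have h3 : ∑ p ∈ P, ((1 : ℝ) / p) ^ 2 = ∑ p ∈ P, (1 : ℝ) / (p : ℝ) ^ 2 :=
      Finset.sum_congr rfl fun p _ => by rw [one_div_pow]
    rw [h3]
    linarith
  refine (Real.exp_le_exp.2 h1).trans ?_
  rw [Real.exp_sum]
  refine Finset.prod_le_prod (fun _ _ => (Real.exp_pos _).le) fun p hp => ?_
  have hp2 : (1 : ℝ) ≤ p := by exact_mod_cast (hP p hp).one_lt.le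
  refine elsm_exp_lower (by positivity) ?_
  rw [div_le_one (by linarith)]
  exact hp2

private theorem elsm_prod_up (P : Finset ℕ) (f : ℕ → ℝ) (hf : ∀ p ∈ P, 0 ≤ f p) :
    ∏ p ∈ P, (1 + f p) ≤ Real.exp (∑ p ∈ P, f p) := by
  rw [Real.exp_sum]
  refine Finset.prod_le_prod (fun p hp => by have := hf p hp; linarith) fun p _ => ?_
  have := Real.add_one_le_exp (f p)
  linarith

open Classical in
/-- the squarefree numbers composed of primes of `P`, at most `x` -/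
private theorem elsm_inj (R : Set ℕ) (P : Finset ℕ) (hP : ∀ p ∈ P, p.Prime ∧ p ∈ R) (x : ℝ) (_hx : 0 ≤ x) :
    ∑ T ∈ P.powerset.filter (fun T => ((∏ p ∈ T, p : ℕ) : ℝ) ≤ x), (1 : ℝ) / ((∏ p ∈ T, p : ℕ) : ℝ) ≤
      ∑ b ∈ ((Icc 1 ⌊x⌋₊).filter (fun b => Squarefree b ∧ ∀ p : ℕ, p.Prime → p ∣ b → p ∈ R)), (1 : ℝ) / b := by
  have hpr : ∀ T ∈ P.powerset.filter (fun T => ((∏ p ∈ T, p : ℕ) : ℝ) ≤ x), ∀ p ∈ T, p.Prime ∧ p ∈ R := by
    intro T hT p hp
    exact hP p ((Finset.mem_powerset.1 (Finset.mem_filter.1 hT).1) hp)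
  have hinj : Set.InjOn (fun T : Finset ℕ => ∏ p ∈ T, p)
      (P.powerset.filter (fun T => ((∏ p ∈ T, p : ℕ) : ℝ) ≤ x) : Set (Finset ℕ)) := by
    intro T hT T' hT' h
    have h1 := Nat.primeFactors_prod (fun p hp => (hpr T (Finset.mem_coe.1 hT) p hp).1)
    have h2 := Nat.primeFactors_prod (fun p hp => (hpr T' (Finset.mem_coe.1 hT') p hp).1)
    simp only at h
    rw [← h1, h, h2]
  rw [← Finset.sum_image (f := fun b : ℕ => (1 : ℝ) / (b : ℝ)) hinj]
  refine Finset.sum_le_sum_of_subset_of_nonneg ?_ fun _ _ _ => by positivity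
  intro b hb
  obtain ⟨T, hT, rfl⟩ := Finset.mem_image.1 hb
  have hT1 := hpr T hT
  have hT2 : ((∏ p ∈ T, p : ℕ) : ℝ) ≤ x := (Finset.mem_filter.1 hT).2
  rw [Finset.mem_filter, Finset.mem_Icc]
  refine ⟨⟨Nat.one_le_iff_ne_zero.2 (Finset.prod_ne_zero_iff.2 fun p hp => (hT1 p hp).1.ne_zero), Nat.le_floor hT2⟩,
    ?_, ?_⟩
  · refine Finset.squarefree_prod_of_pairwise_isCoprime (fun p hp q hq hpq => ?_)
      fun p hp => (hT1 p hp).1.squarefree
    simp only [Function.onFun, ← Nat.coprime_iff_isRelPrime]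
    exact (Nat.coprime_primes (hT1 p hp).1 (hT1 q hq).1).2 hpq
  · intro p hp hd
    obtain ⟨q, hq, hq2⟩ := (hp.prime.dvd_finsetProd_iff _).1 hd
    rw [(Nat.prime_dvd_prime_iff_eq hp (hT1 q hq).1).1 hq2]
    exact (hT1 q hq).2

open Classical in
private theorem elsm_core (R : Set ℕ) (z : ℝ) (hz : 2 ≤ z) :
    (Real.exp (-1) - Real.exp (-2)) * Real.exp (PT.PS (PT.ind R) z) ≤
      ∑ b ∈ ((Icc 1 ⌊z ^ 8⌋₊).filter (fun b => Squarefree b ∧ ∀ p : ℕ, p.Prime → p ∣ b → p ∈ R)), (1 : ℝ) / b := by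
  set P : Finset ℕ := (Icc 1 ⌊z⌋₊).filter (fun p => p.Prime ∧ p ∈ R) with hPdef
  have hP : ∀ p ∈ P, p.Prime ∧ p ∈ R := fun p hp => (Finset.mem_filter.1 hp).2
  have hPz : ∀ p ∈ P, (p : ℝ) ≤ z := by
    intro p hp
    have h1 := (Finset.mem_Icc.1 (Finset.mem_filter.1 hp).1).2
    exact (Nat.cast_le.2 h1).trans (Nat.floor_le (by linarith))
  have hS : PT.PS (PT.ind R) z = ∑ p ∈ P, (1 : ℝ) / p := by
    unfold PT.PS
    have h1 : P = ((Icc 1 ⌊z⌋₊).filter Nat.Prime).filter (fun p => p ∈ R) := by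
      rw [hPdef, Finset.filter_filter]
    rw [h1, Finset.sum_filter (fun p => p ∈ R)]
    refine Finset.sum_congr rfl fun p _ => ?_
    unfold PT.ind
    split_ifs <;> simp
  rw [hS]
  set S : ℝ := ∑ p ∈ P, (1 : ℝ) / p with hSdef
  have hz0 : 0 < z := by linarith
  have hlog2 : 0 < Real.log 2 := Real.log_pos (by norm_num)
  have hlogz : Real.log 2 ≤ Real.log z := Real.log_le_log (by norm_num) hz
  have hlogz0 : 0 < Real.log z := by linarith
  set η : ℝ := 1 / Real.log z with hη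
  have hη0 : 0 < η := by positivity
  -- the whole product
  have hall : Real.exp (S - 1) ≤ ∑ T ∈ P.powerset, (1 : ℝ) / ((∏ p ∈ T, p : ℕ) : ℝ) := by
    refine (elsm_prod_low P fun p hp => (hP p hp).1).trans ?_
    rw [Finset.prod_one_add]
    refine le_of_eq (Finset.sum_congr rfl fun T _ => ?_)
    rw [Finset.prod_div_distrib, Finset.prod_const_one]
    push_cast
    rfl
  -- the tail
  have htail : ∑ T ∈ P.powerset.filter (fun T => ¬ ((∏ p ∈ T, p : ℕ) : ℝ) ≤ z ^ 8),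
      (1 : ℝ) / ((∏ p ∈ T, p : ℕ) : ℝ) ≤ Real.exp (S - 2) := by
    have h1 : ∀ T ∈ P.powerset.filter (fun T => ¬ ((∏ p ∈ T, p : ℕ) : ℝ) ≤ z ^ 8),
        (1 : ℝ) / ((∏ p ∈ T, p : ℕ) : ℝ) ≤ Real.exp (-8) * ∏ p ∈ T, ((p : ℝ) ^ η / p) := by
      intro T hT
      have hT1 := (Finset.mem_filter.1 hT).2
      have hTP := Finset.mem_powerset.1 (Finset.mem_filter.1 hT).1
      push Not at hT1
      have hpos : (0 : ℝ) < ((∏ p ∈ T, p : ℕ) : ℝ) := lt_trans (by positivity) hT1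
      have h2 : ∏ p ∈ T, ((p : ℝ) ^ η / p) = (((∏ p ∈ T, p : ℕ) : ℝ)) ^ η / ((∏ p ∈ T, p : ℕ) : ℝ) := by
        rw [Finset.prod_div_distrib]
        push_cast
        rw [Real.finsetProd_rpow _ _ (fun p _ => Nat.cast_nonneg p)]
      rw [h2]
      have h3 : Real.exp 8 ≤ (((∏ p ∈ T, p : ℕ) : ℝ)) ^ η := by
        rw [Real.rpow_def_of_pos hpos]
        refine Real.exp_le_exp.2 ?_
        have h4 : Real.log (z ^ 8) ≤ Real.log ((∏ p ∈ T, p : ℕ) : ℝ) :=
          Real.log_le_log (by positivity) hT1.le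
        rw [Real.log_pow] at h4
        push_cast at h4 ⊢
        have h5 : (8 : ℝ) = 8 * Real.log z * η := by
          rw [hη]; field_simp
        rw [h5]
        exact mul_le_mul_of_nonneg_right h4 hη0.le
      have h6 : Real.exp (-8) * Real.exp 8 = 1 := by rw [← Real.exp_add]; norm_num
      have h7 : (1 : ℝ) ≤ Real.exp (-8) * (((∏ p ∈ T, p : ℕ) : ℝ)) ^ η := by
        rw [← h6]
        exact mul_le_mul_of_nonneg_left h3 (Real.exp_pos _).le
      rw [← mul_div_assoc]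
      exact div_le_div_of_nonneg_right h7 hpos.le
    refine (Finset.sum_le_sum h1).trans ?_
    rw [← Finset.mul_sum]
    have h8 : ∑ T ∈ P.powerset.filter (fun T => ¬ ((∏ p ∈ T, p : ℕ) : ℝ) ≤ z ^ 8), ∏ p ∈ T, ((p : ℝ) ^ η / p) ≤
        ∏ p ∈ P, (1 + (p : ℝ) ^ η / p) := by
      rw [Finset.prod_one_add]
      refine Finset.sum_le_sum_of_subset_of_nonneg (Finset.filter_subset _ _) fun T _ _ => ?_
      exact Finset.prod_nonneg fun p _ => by positivity
    have h9 : ∏ p ∈ P, (1 + (p : ℝ) ^ η / p) ≤ Real.exp (S + 6) := by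
      refine (elsm_prod_up P (fun p => (p : ℝ) ^ η / p) fun p _ => by positivity).trans ?_
      refine Real.exp_le_exp.2 ?_
      have h10 : ∀ p ∈ P, (p : ℝ) ^ η / p ≤ 1 / p + 2 * η * (Real.log p / p) := by
        intro p hp
        have hp1 : (1 : ℝ) ≤ p := by exact_mod_cast (hP p hp).1.one_lt.le
        have hp0 : (0 : ℝ) < p := by linarith
        have hlp : 0 ≤ Real.log p := Real.log_nonneg hp1
        have h11 : Real.log p ≤ Real.log z := Real.log_le_log hp0 (hPz p hp)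
        have h12 : Real.log p * η ≤ 1 := by
          rw [hη, mul_one_div, div_le_one hlogz0]; exact h11
        have h13 : (p : ℝ) ^ η ≤ 1 + 2 * (Real.log p * η) := by
          rw [Real.rpow_def_of_pos hp0]
          exact elsm_exp_upper (by positivity) h12
        calc (p : ℝ) ^ η / p ≤ (1 + 2 * (Real.log p * η)) / p := div_le_div_of_nonneg_right h13 hp0.le
          _ = 1 / p + 2 * η * (Real.log p / p) := by ring
      refine (Finset.sum_le_sum h10).trans ?_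
      rw [Finset.sum_add_distrib, ← Finset.mul_sum]
      have h14 : ∑ p ∈ P, Real.log p / p ≤ Real.log z + Real.log 4 := by
        refine le_trans ?_ (mert1 z (by linarith))
        refine Finset.sum_le_sum_of_subset_of_nonneg ?_ fun p _ _ =>
          div_nonneg (Real.log_natCast_nonneg p) (Nat.cast_nonneg p)
        intro p hp
        rw [Finset.mem_filter] at hp ⊢
        exact ⟨hp.1, hp.2.1⟩
      have h15 : Real.log 4 = 2 * Real.log 2 := by
        rw [show (4 : ℝ) = 2 ^ 2 by norm_num, Real.log_pow]; norm_num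
      have h16 : 2 * η * ∑ p ∈ P, Real.log p / p ≤ 6 := by
        have h17 : 2 * η * ∑ p ∈ P, Real.log p / p ≤ 2 * η * (3 * Real.log z) :=
          mul_le_mul_of_nonneg_left (by linarith) (by positivity)
        have h18 : 2 * η * (3 * Real.log z) = 6 := by
          rw [hη]; field_simp; norm_num
        linarith
      linarith
    calc Real.exp (-8) * ∑ T ∈ P.powerset.filter (fun T => ¬ ((∏ p ∈ T, p : ℕ) : ℝ) ≤ z ^ 8),
          ∏ p ∈ T, ((p : ℝ) ^ η / p)
        ≤ Real.exp (-8) * Real.exp (S + 6) :=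
          mul_le_mul_of_nonneg_left (h8.trans h9) (Real.exp_pos _).le
      _ = Real.exp (S - 2) := by rw [← Real.exp_add]; congr 1; ring
  have hsplit := Finset.sum_filter_add_sum_filter_not P.powerset
    (fun T => ((∏ p ∈ T, p : ℕ) : ℝ) ≤ z ^ 8) (fun T => (1 : ℝ) / ((∏ p ∈ T, p : ℕ) : ℝ))
  have hmain := elsm_inj R P hP (z ^ 8) (by positivity)
  have he : (Real.exp (-1) - Real.exp (-2)) * Real.exp S = Real.exp (S - 1) - Real.exp (S - 2) := by
    rw [sub_mul, ← Real.exp_add, ← Real.exp_add]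
    congr 2 <;> ring
  rw [he]
  linarith

open Classical in
theorem smooth : ∃ c : ℝ, 0 < c ∧ ∀ (R : Set ℕ) (x : ℝ), 2 ≤ x → c * Real.exp (PT.PS (PT.ind R) x) ≤
    ∑ b ∈ (Icc 1 ⌊x⌋₊).filter (fun b => Squarefree b ∧ ∀ p : ℕ, p.Prime → p ∣ b → p ∈ R), (1 : ℝ) / b := by
  obtain ⟨A, hA, hpow⟩ := ps_pow
  have he : 0 < Real.exp (-1) - Real.exp (-2) := by
    have : Real.exp (-2) < Real.exp (-1) := Real.exp_lt_exp.2 (by norm_num)
    linarith
  have hE : 0 < Real.exp (Real.log 8 + A) := Real.exp_pos _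
  refine ⟨min ((Real.exp (-1) - Real.exp (-2)) / Real.exp (Real.log 8 + A)) (Real.exp (-256)),
    lt_min (div_pos he hE) (Real.exp_pos _), fun R x hx => ?_⟩
  rcases le_or_gt 256 x with h256 | h256
  · -- large `x`
    set z : ℝ := x ^ ((1 : ℝ) / 8) with hzdef
    have hx0 : 0 < x := by linarith
    have hz8 : z ^ 8 = x := by
      rw [hzdef, ← Real.rpow_natCast, ← Real.rpow_mul hx0.le]
      norm_num
    have hz8' : z ^ (8 : ℝ) = x := by
      rw [hzdef, ← Real.rpow_mul hx0.le]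
      norm_num
    have hz0 : 0 ≤ z := by positivity
    have hz2 : 2 ≤ z := by
      by_contra hcon
      push Not at hcon
      have h1 : z ^ 8 < 2 ^ 8 := pow_lt_pow_left₀ hcon hz0 (by norm_num)
      rw [hz8] at h1
      norm_num at h1
      linarith
    have h1 := elsm_core R z hz2
    rw [hz8] at h1
    have h2 := hpow R z 8 hz2 (by norm_num)
    rw [hz8'] at h2
    refine le_trans ?_ h1
    calc min ((Real.exp (-1) - Real.exp (-2)) / Real.exp (Real.log 8 + A)) (Real.exp (-256)) *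
          Real.exp (PT.PS (PT.ind R) x)
        ≤ (Real.exp (-1) - Real.exp (-2)) / Real.exp (Real.log 8 + A) * Real.exp (PT.PS (PT.ind R) x) :=
          mul_le_mul_of_nonneg_right (min_le_left _ _) (Real.exp_pos _).le
      _ ≤ (Real.exp (-1) - Real.exp (-2)) / Real.exp (Real.log 8 + A) *
          Real.exp (PT.PS (PT.ind R) z + (Real.log 8 + A)) := by
          refine mul_le_mul_of_nonneg_left (Real.exp_le_exp.2 ?_) (by positivity)
          linarith
      _ = (Real.exp (-1) - Real.exp (-2)) * Real.exp (PT.PS (PT.ind R) z) := by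
          rw [Real.exp_add (PT.PS (PT.ind R) z)]
          field_simp
  · -- small `x`
    have h1 : PT.PS (PT.ind R) x ≤ 256 := by
      unfold PT.PS
      calc ∑ p ∈ (Icc 1 ⌊x⌋₊).filter Nat.Prime, PT.ind R p / p
          ≤ ∑ p ∈ (Icc 1 ⌊x⌋₊).filter Nat.Prime, (1 : ℝ) := by
            refine Finset.sum_le_sum fun p hp => ?_
            have hp1 : (1 : ℝ) ≤ p := by exact_mod_cast (Finset.mem_Icc.1 (Finset.mem_filter.1 hp).1).1
            rw [div_le_one (by linarith)]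
            unfold PT.ind
            split_ifs
            · exact hp1
            · linarith
        _ = (((Icc 1 ⌊x⌋₊).filter Nat.Prime).card : ℝ) := by simp
        _ ≤ ((Icc 1 ⌊x⌋₊).card : ℝ) := by exact_mod_cast Finset.card_filter_le _ _
        _ = (⌊x⌋₊ : ℝ) := by simp
        _ ≤ x := Nat.floor_le (by linarith)
        _ ≤ 256 := h256.le
    have h2 : (1 : ℝ) ≤ ∑ b ∈ (Icc 1 ⌊x⌋₊).filter (fun b => Squarefree b ∧ ∀ p : ℕ, p.Prime → p ∣ b → p ∈ R),
        (1 : ℝ) / b := by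
      have h3 : (1 : ℕ) ∈ (Icc 1 ⌊x⌋₊).filter (fun b => Squarefree b ∧ ∀ p : ℕ, p.Prime → p ∣ b → p ∈ R) := by
        rw [Finset.mem_filter, Finset.mem_Icc]
        refine ⟨⟨le_rfl, Nat.le_floor (by norm_num; linarith)⟩, squarefree_one, fun p hp hd => ?_⟩
        exact absurd (Nat.dvd_one.1 hd) hp.one_lt.ne'
      have h4 := Finset.single_le_sum (f := fun b : ℕ => (1 : ℝ) / b) (fun b _ => by positivity) h3
      simpa using h4
    refine le_trans ?_ h2
    calc min ((Real.exp (-1) - Real.exp (-2)) / Real.exp (Real.log 8 + A)) (Real.exp (-256)) *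
          Real.exp (PT.PS (PT.ind R) x)
        ≤ Real.exp (-256) * Real.exp 256 :=
          mul_le_mul (min_le_right _ _) (Real.exp_le_exp.2 h1) (Real.exp_pos _).le (Real.exp_pos _).le
      _ = 1 := by rw [← Real.exp_add]; norm_num

end EL
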