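import Pool.Agent.Lib.MP_10e784_ag.EL.ELDefs

/-! JOB ELStA.  Stepanov's method: the auxiliary polynomials (linear algebra).

`itd f M k` is `F`-linear (induction on `k`), and `natDegree (itd f M k q) ≤ natDegree q + k * n` (`natDegree f ≤ n`).
Let `V` be the space of pairs of `J`-tuples of coefficient vectors of length `d`, of dimension `2 J d`, `W = F ^ (l (d + l n + J))`.  The linear map `V → W`, `(r, s) ↦ (coefficients of ∑ j, (itd f M1 k (r j) + C c * itd f M2 k (s j)) * X ^ j)_k` has a nonzero element in its kernel (`LinearMap.ker_ne_bot_of_finrank_lt`). -/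

namespace EL

open Polynomial Finset

theorem itd_add {F : Type} [Field F] (f : F[X]) (M k : ℕ) (q1 q2 : F[X]) :
    itd f M k (q1 + q2) = itd f M k q1 + itd f M k q2 := by
  induction k with
  | zero => simp [itd]
  | succ k ih =>
    simp only [itd, ih, derivative_add]
    ring

theorem itd_smul {F : Type} [Field F] (f : F[X]) (M k : ℕ) (a : F) (q : F[X]) :
    itd f M k (C a * q) = C a * itd f M k q := by
  induction k with
  | zero => simp [itd]
  | succ k ih =>
    simp only [itd, ih, derivative_C_mul]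
    ring

private theorem elsta_deg {F : Type} [Field F] (f : F[X]) (n : ℕ) (hf : f.natDegree ≤ n) (M k : ℕ) (q : F[X]) :
    (itd f M k q).natDegree ≤ q.natDegree + k * n := by
  induction k with
  | zero => simp [itd]
  | succ k ih =>
    simp only [itd]
    have h1 : (derivative f).natDegree ≤ n := (natDegree_derivative_le f).trans (by omega)
    have h2 : (derivative (itd f M k q)).natDegree ≤ (itd f M k q).natDegree :=
      (natDegree_derivative_le _).trans (by omega)
    refine (natDegree_add_le _ _).trans (max_le ?_ ?_)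
    · refine natDegree_mul_le.trans ?_
      have h3 := natDegree_C_mul_le ((M - k : ℕ) : F) (derivative f)
      rw [Nat.succ_mul]
      omega
    · refine natDegree_mul_le.trans ?_
      rw [Nat.succ_mul]
      omega

private noncomputable def elsta_L {F : Type} [Field F] (f : F[X]) (M k : ℕ) : F[X] →ₗ[F] F[X] where
  toFun := itd f M k
  map_add' := itd_add f M k
  map_smul' a q := by rw [smul_eq_C_mul, itd_smul, RingHom.id_apply, smul_eq_C_mul]

private noncomputable def elsta_P (F : Type) [Field F] (d : ℕ) : (Fin d → F) →ₗ[F] F[X] :=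
  (degreeLT F d).subtype ∘ₗ (degreeLTEquiv F d).symm.toLinearMap

private noncomputable def elsta_T {F : Type} [Field F] (f : F[X]) (J d : ℕ) (M1 M2 : ℕ) (c : F) (k : ℕ) :
    ((Fin J → Fin d → F) × (Fin J → Fin d → F)) →ₗ[F] F[X] :=
  ∑ j : Fin J, (LinearMap.mulRight F (X ^ (j : ℕ) : F[X])) ∘ₗ
    (elsta_L f M1 k ∘ₗ elsta_P F d ∘ₗ LinearMap.proj j ∘ₗ LinearMap.fst F _ _ +
      (LinearMap.mulLeft F (C c : F[X])) ∘ₗ elsta_L f M2 k ∘ₗ elsta_P F d ∘ₗ LinearMap.proj j ∘ₗ LinearMap.snd F _ _)

private theorem elsta_T_apply {F : Type} [Field F] (f : F[X]) (J d : ℕ) (M1 M2 : ℕ) (c : F) (k : ℕ)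
    (v : (Fin J → Fin d → F) × (Fin J → Fin d → F)) :
    elsta_T f J d M1 M2 c k v = ∑ j : Fin J, (itd f M1 k (elsta_P F d (v.1 j)) +
      C c * itd f M2 k (elsta_P F d (v.2 j))) * X ^ (j : ℕ) := by
  unfold elsta_T
  rw [LinearMap.sum_apply]
  refine Finset.sum_congr rfl fun j _ => ?_
  simp only [LinearMap.comp_apply, LinearMap.add_apply, LinearMap.mulRight_apply, LinearMap.mulLeft_apply,
    LinearMap.fst_apply, LinearMap.snd_apply, LinearMap.proj_apply]
  rfl

theorem stA {F : Type} [Field F] (f : F[X]) (n : ℕ) (hn : 1 ≤ n) (hf : f.natDegree ≤ n) (l J d : ℕ) (M1 M2 : ℕ) (c : F)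
    (hdim : l * (d + J) + n * l ^ 2 < 2 * J * d) :
    ∃ r s : Fin J → F[X], (∀ j, (r j).degree < (d : ℕ) ∧ (s j).degree < (d : ℕ)) ∧ (∃ j, r j ≠ 0 ∨ s j ≠ 0) ∧
      ∀ k < l, ∑ j : Fin J, (itd f M1 k (r j) + C c * itd f M2 k (s j)) * X ^ (j : ℕ) = 0 := by
  classical
  have hd1 : 1 ≤ d := by
    by_contra h
    have : d = 0 := by omega
    subst this
    simp at hdim
  set E : ℕ := d + l * n + J with hE
  let Φ : ((Fin J → Fin d → F) × (Fin J → Fin d → F)) →ₗ[F] (Fin l → Fin E → F) :=
    LinearMap.pi fun k => LinearMap.pi fun m => (lcoeff F (m : ℕ)) ∘ₗ elsta_T f J d M1 M2 c (k : ℕ)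
  have hΦ : ∀ v k m, Φ v k m = (elsta_T f J d M1 M2 c (k : ℕ) v).coeff (m : ℕ) := fun v k m => rfl
  have hfr : Module.finrank F (Fin l → Fin E → F) < Module.finrank F ((Fin J → Fin d → F) × (Fin J → Fin d → F)) := by
    simp only [Module.finrank_prod, Module.finrank_pi_fintype, Module.finrank_self, Finset.sum_const,
      Finset.card_univ, Fintype.card_fin, smul_eq_mul, mul_one]
    have h1 : l * E = l * (d + J) + n * l ^ 2 := by rw [hE]; ring
    have h2 : J * d + J * d = 2 * J * d := by ring
    omega
  have hker := LinearMap.ker_ne_bot_of_finrank_lt (f := Φ) hfr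
  obtain ⟨v, hv, hv0⟩ := (Submodule.ne_bot_iff _).1 hker
  rw [LinearMap.mem_ker] at hv
  have hPdeg : ∀ w : Fin d → F, (elsta_P F d w).degree < (d : ℕ) := by
    intro w
    exact mem_degreeLT.1 ((degreeLTEquiv F d).symm w).2
  have hPinj : Function.Injective (elsta_P F d) := by
    intro w w' h
    have h1 : (degreeLTEquiv F d).symm w = (degreeLTEquiv F d).symm w' := Subtype.ext h
    exact (degreeLTEquiv F d).symm.injective h1
  have hnd : ∀ w : Fin d → F, (elsta_P F d w).natDegree ≤ d - 1 := by
    intro w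
    by_cases h : elsta_P F d w = 0
    · rw [h]; simp
    · have := (natDegree_lt_iff_degree_lt h).2 (hPdeg w)
      omega
  refine ⟨fun j => elsta_P F d (v.1 j), fun j => elsta_P F d (v.2 j), fun j => ⟨hPdeg _, hPdeg _⟩, ?_, ?_⟩
  · by_contra hcon
    push Not at hcon
    apply hv0
    have h1 : v.1 = 0 := by
      funext j
      apply hPinj
      simpa using (hcon j).1
    have h2 : v.2 = 0 := by
      funext j
      apply hPinj
      simpa using (hcon j).2
    exact Prod.ext h1 h2
  · intro k hk
    rw [← elsta_T_apply]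
    ext m
    rw [coeff_zero]
    by_cases hm : m < E
    · have h1 := congrFun (congrFun hv ⟨k, hk⟩) ⟨m, hm⟩
      rw [hΦ] at h1
      exact h1
    · apply coeff_eq_zero_of_natDegree_lt
      refine lt_of_lt_of_le ?_ (not_lt.1 hm)
      rw [elsta_T_apply]
      have h1 : (∑ j : Fin J, (itd f M1 k (elsta_P F d (v.1 j)) +
          C c * itd f M2 k (elsta_P F d (v.2 j))) * X ^ (j : ℕ)).natDegree ≤ (d - 1) + k * n + J := by
        apply natDegree_sum_le_of_forall_le
        intro j _
        refine natDegree_mul_le.trans ?_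
        rw [natDegree_X_pow]
        have h2 : (itd f M1 k (elsta_P F d (v.1 j)) + C c * itd f M2 k (elsta_P F d (v.2 j))).natDegree ≤
            (d - 1) + k * n := by
          refine (natDegree_add_le _ _).trans (max_le ?_ ?_)
          · have h3 := elsta_deg f n hf M1 k (elsta_P F d (v.1 j))
            have h4 := hnd (v.1 j)
            omega
          · refine (natDegree_C_mul_le _ _).trans ?_
            have h3 := elsta_deg f n hf M2 k (elsta_P F d (v.2 j))
            have h4 := hnd (v.2 j)
            omega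
        have h5 := j.2
        omega
      have h6 : k * n ≤ l * n := Nat.mul_le_mul_right n hk.le
      omega

end EL
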