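import Pool.Agent.Lib.MP_10e784_ag.EL.ELDefs

/-! JOB ELStB.  Stepanov's method: the order of vanishing.

`itd_deriv`: induction on `k`: `derivative (f ^ (M - k) * w) = (M - k) f ^ (M - k - 1) f' w + f ^ (M - k) w' = f ^ (M - (k + 1)) * ((M - k) f' w + f w')` for `k < M`.
`stB`: in characteristic `p` `derivative (w * X ^ (p * j)) = derivative w * X ^ (p * j)` (`derivative_X_pow`, the cast of `p * j` is zero), so `derivative^[k]` of the polynomial is `∑ j, (f ^ (l - k) * itd f l k (r j) + f ^ (l + e - k) * itd f (l + e) k (s j)) * X ^ (p * j)`, `e = (p - 1) / 2`, `k < l`.  Its value at `x`: `x ^ (p * j) = x ^ j` (`ZMod.pow_card`, `pow_mul`) and `f(x) ^ (l + e - k) = f(x) ^ (l - k) * c`,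
so it is `f(x) ^ (l - k) * (value at x of ∑ j, (itd f l k (r j) + C c * itd f (l + e) k (s j)) * X ^ j) = 0`.  All derivatives of order `< l ≤ p` vanish at `x`, so the multiplicity is `≥ l`: `Polynomial.lt_rootMultiplicity_of_isRoot_iterate_derivative_of_mem_nonZeroDivisors'`. -/

namespace EL

open Polynomial Finset

theorem itd_deriv {F : Type} [Field F] (f q : F[X]) (M k : ℕ) (hk : k ≤ M) :
    derivative^[k] (f ^ M * q) = f ^ (M - k) * itd f M k q := by
  induction k with
  | zero => simp [itd]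
  | succ k ih =>
    have h1 : k ≤ M := by omega
    rw [Function.iterate_succ_apply', ih h1, derivative_mul, derivative_pow]
    obtain ⟨e, he⟩ : ∃ e, M - k = e + 1 := ⟨M - k - 1, by omega⟩
    have he2 : M - (k + 1) = e := by omega
    rw [he2]
    simp only [itd]
    rw [he, Nat.add_sub_cancel, pow_succ]
    ring

private theorem elstb_iter (p : ℕ) [Fact p.Prime] (w : (ZMod p)[X]) (j k : ℕ) :
    derivative^[k] (w * X ^ (p * j)) = derivative^[k] w * X ^ (p * j) := by
  induction k with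
  | zero => simp
  | succ k ih =>
    rw [Function.iterate_succ_apply', Function.iterate_succ_apply', ih, derivative_mul, derivative_X_pow]
    simp

theorem stB (p : ℕ) [Fact p.Prime] (f : (ZMod p)[X]) (l J : ℕ) (hl : l ≤ p) (r s : Fin J → (ZMod p)[X]) (c : ZMod p)
    (hk : ∀ k < l, ∑ j : Fin J, (itd f l k (r j) + C c * itd f (l + (p - 1) / 2) k (s j)) * X ^ (j : ℕ) = 0)
    (hR : ∑ j : Fin J, (f ^ l * r j + f ^ (l + (p - 1) / 2) * s j) * X ^ (p * (j : ℕ)) ≠ 0)
    (x : ZMod p) (hc : (f.eval x) ^ ((p - 1) / 2) = c) :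
    l ≤ (∑ j : Fin J, (f ^ l * r j + f ^ (l + (p - 1) / 2) * s j) * X ^ (p * (j : ℕ))).rootMultiplicity x := by
  rcases Nat.eq_zero_or_pos l with h0 | h0
  · rw [h0]; exact Nat.zero_le _
  obtain ⟨n, rfl⟩ : ∃ n, l = n + 1 := ⟨l - 1, by omega⟩
  rw [Nat.succ_le_iff]
  apply Polynomial.lt_rootMultiplicity_of_isRoot_iterate_derivative_of_mem_nonZeroDivisors' hR
  · intro m hm
    rw [IsRoot.def]
    have h1 : ∀ j : Fin J, derivative^[m] ((f ^ (n + 1) * r j + f ^ (n + 1 + (p - 1) / 2) * s j) * X ^ (p * (j : ℕ))) =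
        (f ^ (n + 1 - m) * itd f (n + 1) m (r j) +
          f ^ (n + 1 + (p - 1) / 2 - m) * itd f (n + 1 + (p - 1) / 2) m (s j)) * X ^ (p * (j : ℕ)) := by
      intro j
      rw [elstb_iter, iterate_map_add, itd_deriv f (r j) (n + 1) m (by omega),
        itd_deriv f (s j) (n + 1 + (p - 1) / 2) m (by omega)]
    rw [Polynomial.iterate_derivative_sum, eval_finsetSum]
    simp only [h1]
    have h2 := congrArg (eval x) (hk m (by omega))
    rw [eval_finsetSum, eval_zero] at h2
    have h3 : ∀ j : Fin J, eval x ((f ^ (n + 1 - m) * itd f (n + 1) m (r j) +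
          f ^ (n + 1 + (p - 1) / 2 - m) * itd f (n + 1 + (p - 1) / 2) m (s j)) * X ^ (p * (j : ℕ))) =
        (f.eval x) ^ (n + 1 - m) *
          eval x ((itd f (n + 1) m (r j) + C c * itd f (n + 1 + (p - 1) / 2) m (s j)) * X ^ (j : ℕ)) := by
      intro j
      have h4 : n + 1 + (p - 1) / 2 - m = (n + 1 - m) + (p - 1) / 2 := by omega
      rw [h4]
      simp only [eval_mul, eval_add, eval_pow, eval_X, eval_C]
      rw [pow_mul, ZMod.pow_card, pow_add, hc]
      ring
    simp only [h3]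
    rw [← Finset.mul_sum, h2, mul_zero]
  · intro m hm hm0
    rw [mem_nonZeroDivisors_iff_ne_zero]
    intro h5
    rw [ZMod.natCast_eq_zero_iff] at h5
    have := Nat.le_of_dvd (Nat.pos_of_ne_zero hm0) h5
    omega

end EL
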