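import Mathlib

/-! JOB ELStC.  Stepanov's method: the auxiliary polynomial is not zero.

`d ≥ 1` (some polynomial of degree `< d` is nonzero), `n ≥ 1`, so `p ≥ 3` is odd; `e = (p - 1) / 2`, `2 e + 1 = p`.  `f ≠ 0`, so cancel `f ^ l`: assume `∑ j, (r j + s j * f ^ e) * X ^ (p * j) = 0`.  Let `j0` be the least `j` with `r j ≠ 0 ∨ s j ≠ 0`.  Cancel `X ^ (p * j0)`: `X ^ p ∣ r + s f ^ e` with `r = r j0`, `s = s j0`.
Then `X ^ p ∣ f * (r ^ 2 - s ^ 2 f ^ (2 e)) = f r ^ 2 - s ^ 2 f ^ p` and `f ^ p = expand p f` (`ZMod.expand_card`: `expand (ZMod p) p f = f ^ p`), `X ^ p ∣ expand p f - C (f.eval 0)`.  So `X ^ p ∣ f r ^ 2 - C (f.eval 0) * s ^ 2`, of degree `≤ n + 2 (d - 1) < p`: `f r ^ 2 = C (f.eval 0) * s ^ 2`.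
If `r = 0` then `s = 0` and conversely (`f ≠ 0`, `f.eval 0 ≠ 0`), contradiction, so both are nonzero.  `f` squarefree divides `s ^ 2`, so `f ∣ s`; descent on the degree. -/

namespace EL

open Polynomial Finset

private theorem elstc_sq {F : Type} [Field F] (f : F[X]) (hf : Squarefree f) (hn : 1 ≤ f.natDegree) (a : F) (ha : a ≠ 0)
    (N : ℕ) : ∀ r s : F[X], r.natDegree + s.natDegree ≤ N → f * r ^ 2 = C a * s ^ 2 → r = 0 ∧ s = 0 := by
  have hf0 : f ≠ 0 := hf.ne_zero
  have hCa : (C a : F[X]) ≠ 0 := by simpa using ha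
  have key : ∀ r s : F[X], f * r ^ 2 = C a * s ^ 2 → ∃ r' s' : F[X], r = f * r' ∧ s = f * s' ∧ f * r' ^ 2 = C a * s' ^ 2 := by
    intro r s h
    have h1 : f ∣ s ^ 2 := by
      have h2 : f ∣ C a * s ^ 2 := ⟨r ^ 2, h.symm⟩
      have hu : IsUnit (C a : F[X]) := isUnit_C.2 (isUnit_iff_ne_zero.2 ha)
      exact hu.dvd_mul_left.1 h2
    have h3 : f ∣ s := (hf.dvd_pow_iff_dvd (by norm_num)).1 h1
    obtain ⟨s', rfl⟩ := h3
    have h4 : r ^ 2 = C a * f * s' ^ 2 := by
      apply mul_left_cancel₀ hf0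
      rw [h]; ring
    have h5 : f ∣ r ^ 2 := ⟨C a * s' ^ 2, by rw [h4]; ring⟩
    have h6 : f ∣ r := (hf.dvd_pow_iff_dvd (by norm_num)).1 h5
    obtain ⟨r', rfl⟩ := h6
    refine ⟨r', s', rfl, rfl, ?_⟩
    apply mul_left_cancel₀ hf0
    calc f * (f * r' ^ 2) = (f * r') ^ 2 := by ring
      _ = C a * f * s' ^ 2 := h4
      _ = f * (C a * s' ^ 2) := by ring
  induction N with
  | zero =>
    intro r s hN h
    obtain ⟨r', s', hr, hs, h'⟩ := key r s h
    have hr0 : r = 0 := by
      by_contra hne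
      have hr' : r' ≠ 0 := by rintro rfl; exact hne (by rw [hr, mul_zero])
      have := natDegree_mul hf0 hr'
      rw [← hr] at this
      omega
    have hs0 : s = 0 := by
      by_contra hne
      have hs' : s' ≠ 0 := by rintro rfl; exact hne (by rw [hs, mul_zero])
      have := natDegree_mul hf0 hs'
      rw [← hs] at this
      omega
    exact ⟨hr0, hs0⟩
  | succ N ih =>
    intro r s hN h
    obtain ⟨r', s', hr, hs, h'⟩ := key r s h
    by_cases hr' : r' = 0
    · have hr0 : r = 0 := by rw [hr, hr', mul_zero]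
      refine ⟨hr0, ?_⟩
      rw [hr0] at h
      have h1 : C a * s ^ 2 = 0 := by rw [← h]; ring
      rcases mul_eq_zero.1 h1 with h2 | h2
      · exact absurd h2 hCa
      · exact pow_eq_zero_iff (two_ne_zero) |>.1 h2
    · have h1 := natDegree_mul hf0 hr'
      rw [← hr] at h1
      have h2 : s'.natDegree ≤ s.natDegree := by
        by_cases hs' : s' = 0
        · rw [hs']; simp
        · have := natDegree_mul hf0 hs'
          rw [← hs] at this
          omega
      obtain ⟨h3, h4⟩ := ih r' s' (by omega) h'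
      exact absurd h3 hr'

theorem stC (p : ℕ) [Fact p.Prime] (f : (ZMod p)[X]) (hf : Squarefree f) (hn : 1 ≤ f.natDegree) (h0 : f.eval 0 ≠ 0)
    (l J d : ℕ) (hd : 2 * d + f.natDegree ≤ p) (r s : Fin J → (ZMod p)[X])
    (hdeg : ∀ j, (r j).degree < (d : ℕ) ∧ (s j).degree < (d : ℕ)) (hne : ∃ j, r j ≠ 0 ∨ s j ≠ 0) :
    ∑ j : Fin J, (f ^ l * r j + f ^ (l + (p - 1) / 2) * s j) * X ^ (p * (j : ℕ)) ≠ 0 := by
  intro hsum
  have hpp : p.Prime := Fact.out
  have hf0 : f ≠ 0 := hf.ne_zero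
  -- least index
  classical
  obtain ⟨j0, hj0, hmin⟩ : ∃ j0 : Fin J, (r j0 ≠ 0 ∨ s j0 ≠ 0) ∧ ∀ j : Fin J, j < j0 → r j = 0 ∧ s j = 0 := by
    have hS : (univ.filter fun j : Fin J => r j ≠ 0 ∨ s j ≠ 0).Nonempty := by
      obtain ⟨j, hj⟩ := hne
      exact ⟨j, by simp [hj]⟩
    refine ⟨(univ.filter fun j : Fin J => r j ≠ 0 ∨ s j ≠ 0).min' hS, ?_, ?_⟩
    · have := Finset.min'_mem _ hS
      simp only [mem_filter] at this
      exact this.2
    · intro j hj
      by_contra hcon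
      have h1 : j ∈ univ.filter fun j : Fin J => r j ≠ 0 ∨ s j ≠ 0 := by
        simp only [mem_filter, mem_univ, true_and]
        by_contra h2
        push Not at h2
        exact hcon h2
      exact absurd (Finset.min'_le _ j h1) (not_le.2 hj)
  have hd1 : 1 ≤ d := by
    by_contra hd0
    have hd0' : d = 0 := by omega
    subst hd0'
    rcases hj0 with h1 | h1
    · apply h1
      have := (hdeg j0).1
      simpa using Polynomial.degree_lt_iff_coeff_zero _ _ |>.1 this |> fun h => Polynomial.ext fun m => h m (Nat.zero_le m)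
    · apply h1
      have := (hdeg j0).2
      simpa using Polynomial.degree_lt_iff_coeff_zero _ _ |>.1 this |> fun h => Polynomial.ext fun m => h m (Nat.zero_le m)
  have hp3 : 3 ≤ p := by omega
  obtain ⟨e, he⟩ : ∃ e, p = 2 * e + 1 := by
    rcases hpp.eq_two_or_odd with h | h
    · omega
    · exact ⟨p / 2, by omega⟩
  have hee : (p - 1) / 2 = e := by omega
  rw [hee] at hsum
  -- cancel f ^ l
  have h1 : ∑ j : Fin J, (r j + f ^ e * s j) * X ^ (p * (j : ℕ)) = 0 := by
    have h2 : f ^ l * ∑ j : Fin J, (r j + f ^ e * s j) * X ^ (p * (j : ℕ)) = 0 := by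
      rw [← hsum, Finset.mul_sum]
      refine Finset.sum_congr rfl fun j _ => ?_
      rw [pow_add]
      ring
    rcases mul_eq_zero.1 h2 with h3 | h3
    · exact absurd h3 (pow_ne_zero _ hf0)
    · exact h3
  -- cancel X ^ (p * j0)
  have h2 : X ^ p ∣ r j0 + f ^ e * s j0 := by
    have h3 : X ^ (p * ((j0 : ℕ) + 1)) ∣ (r j0 + f ^ e * s j0) * X ^ (p * (j0 : ℕ)) := by
      have h4 : (r j0 + f ^ e * s j0) * X ^ (p * (j0 : ℕ)) =
          - ∑ j ∈ univ.erase j0, (r j + f ^ e * s j) * X ^ (p * (j : ℕ)) := by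
        rw [← Finset.add_sum_erase _ _ (mem_univ j0)] at h1
        exact eq_neg_of_add_eq_zero_left h1
      rw [h4, dvd_neg]
      apply Finset.dvd_sum
      intro j hj
      rcases lt_trichotomy j j0 with h5 | h5 | h5
      · obtain ⟨h6, h7⟩ := hmin j h5
        rw [h6, h7]
        simp
      · exact absurd h5 (Finset.ne_of_mem_erase hj)
      · apply Dvd.dvd.mul_left
        apply pow_dvd_pow
        have : (j0 : ℕ) + 1 ≤ j := h5
        exact Nat.mul_le_mul_left p this
    rw [Nat.mul_add, Nat.mul_one, pow_add, mul_comm (X ^ (p * (j0 : ℕ))) (X ^ p)] at h3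
    exact (mul_dvd_mul_iff_right (pow_ne_zero _ X_ne_zero)).1 h3
  -- the congruence
  have h3 : X ^ p ∣ f * (r j0) ^ 2 - C (f.eval 0) * (s j0) ^ 2 := by
    have h4 : X ^ p ∣ f * (r j0) ^ 2 - f ^ p * (s j0) ^ 2 := by
      have h5 : f * (r j0) ^ 2 - f ^ p * (s j0) ^ 2 = (r j0 + f ^ e * s j0) * (f * (r j0 - f ^ e * s j0)) := by
        have : f ^ p = f * (f ^ e) ^ 2 := by
          have h8 : ∀ k : ℕ, k = 2 * e + 1 → f ^ k = f * (f ^ e) ^ 2 := by
            rintro k rfl
            ring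
          exact h8 p he
        rw [this]
        ring
      rw [h5]
      exact h2.mul_right _
    have h6 : X ^ p ∣ f ^ p - C (f.eval 0) := by
      have h7 : f ^ p = expand (ZMod p) p f := (ZMod.expand_card f).symm
      have h8 : (X : (ZMod p)[X]) ∣ f - C (f.eval 0) := by
        have := Polynomial.X_sub_C_dvd_sub_C_eval (a := (0 : ZMod p)) (p := f)
        simpa using this
      obtain ⟨w, hw⟩ := h8
      refine ⟨expand (ZMod p) p w, ?_⟩
      have h9 := congrArg (expand (ZMod p) p) hw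
      rw [map_sub, map_mul, expand_X, expand_C] at h9
      rw [h7, h9]
    have h10 : f * (r j0) ^ 2 - C (f.eval 0) * (s j0) ^ 2 =
        (f * (r j0) ^ 2 - f ^ p * (s j0) ^ 2) + (f ^ p - C (f.eval 0)) * (s j0) ^ 2 := by ring
    rw [h10]
    exact dvd_add h4 (h6.mul_right _)
  have hrd : (r j0).natDegree ≤ d - 1 := by
    by_cases h : r j0 = 0
    · rw [h]; simp
    · have := (natDegree_lt_iff_degree_lt h).2 (hdeg j0).1
      omega
  have hsd : (s j0).natDegree ≤ d - 1 := by
    by_cases h : s j0 = 0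
    · rw [h]; simp
    · have := (natDegree_lt_iff_degree_lt h).2 (hdeg j0).2
      omega
  have h4 : f * (r j0) ^ 2 - C (f.eval 0) * (s j0) ^ 2 = 0 := by
    by_contra hne0
    have h5 := natDegree_le_of_dvd h3 hne0
    rw [natDegree_X_pow] at h5
    have h6 : (f * (r j0) ^ 2 - C (f.eval 0) * (s j0) ^ 2).natDegree ≤ f.natDegree + 2 * (d - 1) := by
      refine (natDegree_sub_le _ _).trans (max_le ?_ ?_)
      · refine natDegree_mul_le.trans ?_
        have := natDegree_pow_le (p := r j0) (n := 2)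
        omega
      · refine (natDegree_C_mul_le _ _).trans ?_
        have := natDegree_pow_le (p := s j0) (n := 2)
        omega
    omega
  rw [sub_eq_zero] at h4
  obtain ⟨h5, h6⟩ := elstc_sq f hf hn (f.eval 0) h0 _ (r j0) (s j0) le_rfl h4
  rcases hj0 with h7 | h7
  · exact h7 h5
  · exact h7 h6

end EL
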