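import Pool.Agent.Lib.MP_10e784_ag.EL.ELStA
import Pool.Agent.Lib.MP_10e784_ag.EL.ELStB
import Pool.Agent.Lib.MP_10e784_ag.EL.ELStC

/-! JOB ELStep.  Points on `u y ^ 2 = f(x)` over large prime fields (elementary, Stepanov).

`P0 = 100 (n + 1) ^ 3`.  Assume there is no such `x`.  Let `v = u ^ ((p-1)/2)` (`v ^ 2 = 1`).  For every `x` with `f(x) ≠ 0`: `u f(x)` is a non-square, so `(u f(x)) ^ ((p-1)/2) = -1` (`ZMod.euler_criterion`, `ZMod.pow_div_two_eq_neg_one_or_one`; `p / 2 = (p - 1) / 2`), i.e. `f(x) ^ ((p-1)/2) = c := -v⁻¹`.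
Shift: `p > n` so some `a` has `f(a) ≠ 0`; replace `f` by `f.comp (X + C a)` (squarefree: the algebra automorphism `algEquivAevalXAddC`/`taylor`; same `natDegree`; the assumption is invariant), so `f(0) ≠ 0`.
`l = 4 (n + 1)`, `J = 2 n + 3`, `d = (p - n) / 2` (so `2 d + n ≤ p`, `2 d ≥ p - n - 1`).  `hdim` of `stA`: `2 J d - l d = 2 d > l J + n l ^ 2` for `p ≥ P0`.  `stA` with `M1 = l`, `M2 = l + (p-1)/2`, `c`; `R` as in `stB`, nonzero by `stC`.
`stB`: `rootMultiplicity x R ≥ l` for each of the at least `p - n` elements `x` with `f(x) ≠ 0`.  The sum of the root multiplicities is at most `natDegree R` (`count_roots`, `card_roots'`), and `natDegree R ≤ n l + n (p-1)/2 + d + p (J - 1)`.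
So `(p - n) * 4 (n + 1) ≤ 4 n (n + 1) + n p / 2 + p / 2 + p (2 n + 2)`, i.e. `(3/2) p (n + 1) ≤ 8 n (n + 1)`, `p ≤ 6 n`: contradiction. -/

namespace EL

open Polynomial Finset

private theorem elstep_core (n : ℕ) (hn : 1 ≤ n) (p : ℕ) [Fact p.Prime] (hP : 100 * (n + 1) ^ 3 ≤ p) (f : (ZMod p)[X])
    (hf : Squarefree f) (hfn : f.natDegree = n) (h0 : f.eval 0 ≠ 0) (c : ZMod p)
    (hc : ∀ x : ZMod p, f.eval x ≠ 0 → (f.eval x) ^ ((p - 1) / 2) = c) : False := by
  classical
  have hf0 : f ≠ 0 := hf.ne_zero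
  set l : ℕ := 4 * (n + 1) with hl
  set J : ℕ := 2 * n + 3 with hJ
  set d : ℕ := (p - n) / 2 with hd
  set e : ℕ := (p - 1) / 2 with he
  have hcub : (n + 1) ^ 3 = n ^ 3 + 3 * n ^ 2 + 3 * n + 1 := by ring
  have hn2 : n ≤ n ^ 2 := by nlinarith
  have hn3 : n ^ 2 ≤ n ^ 3 := by nlinarith [Nat.zero_le (n ^ 2)]
  have hpn : 100 * n + 100 ≤ p := by
    rw [hcub] at hP
    omega
  have h2d : 2 * d + n ≤ p := by omega
  have h2d' : p ≤ 2 * d + n + 1 := by omega
  have hdim : l * (d + J) + n * l ^ 2 < 2 * J * d := by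
    have h1 : l * (d + J) + n * l ^ 2 = l * d + (l * J + n * l ^ 2) := by ring
    have h2 : 2 * J * d = l * d + 2 * d := by rw [hJ, hl]; ring
    have h3 : l * J + n * l ^ 2 < 2 * d := by
      have h4 : l * J + n * l ^ 2 = 16 * n ^ 3 + 40 * n ^ 2 + 36 * n + 12 := by rw [hJ, hl]; ring
      rw [h4]
      rw [hcub] at hP
      omega
    omega
  obtain ⟨r, s, hdeg, hne, hk⟩ := stA f n hn hfn.le l J d l (l + e) c hdim
  have hR := stC p f hf (by omega) h0 l J d (by omega) r s hdeg hne
  rw [← he] at hR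
  set R : (ZMod p)[X] := ∑ j : Fin J, (f ^ l * r j + f ^ (l + e) * s j) * X ^ (p * (j : ℕ)) with hRdef
  have hlp : l ≤ p := by omega
  have hmul : ∀ x : ZMod p, f.eval x ≠ 0 → l ≤ R.rootMultiplicity x := by
    intro x hx
    exact stB p f l J hlp r s c hk hR x (hc x hx)
  -- degree of R
  have hnd : ∀ q : (ZMod p)[X], q.degree < (d : ℕ) → q.natDegree ≤ d := by
    intro q hq
    by_cases h : q = 0
    · rw [h]; simp
    · exact ((natDegree_lt_iff_degree_lt h).2 hq).le
  have hRdeg : R.natDegree ≤ n * (l + e) + d + p * (J - 1) := by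
    rw [hRdef]
    apply natDegree_sum_le_of_forall_le
    intro j _
    refine natDegree_mul_le.trans ?_
    rw [natDegree_X_pow]
    have h1 : (f ^ l * r j + f ^ (l + e) * s j).natDegree ≤ n * (l + e) + d := by
      refine (natDegree_add_le _ _).trans (max_le ?_ ?_)
      · refine natDegree_mul_le.trans ?_
        have h2 := natDegree_pow_le (p := f) (n := l)
        have h3 := hnd _ (hdeg j).1
        rw [hfn] at h2
        have h4 : l * n ≤ n * (l + e) := by nlinarith
        omega
      · refine natDegree_mul_le.trans ?_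
        have h2 := natDegree_pow_le (p := f) (n := l + e)
        have h3 := hnd _ (hdeg j).2
        rw [hfn, mul_comm] at h2
        omega
    have h5 : p * (j : ℕ) ≤ p * (J - 1) := Nat.mul_le_mul_left p (by have := j.2; omega)
    omega
  -- counting
  have hcount : ∑ x : ZMod p, R.rootMultiplicity x ≤ R.natDegree := by
    have h1 : ∑ x : ZMod p, R.roots.count x = Multiset.card R.roots :=
      Multiset.sum_count_eq_card fun a _ => mem_univ a
    have h2 : ∀ x : ZMod p, R.rootMultiplicity x = R.roots.count x := fun x => (count_roots R).symm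
    simp only [h2]
    rw [h1]
    exact card_roots' R
  have hT : p ≤ (univ.filter fun x : ZMod p => f.eval x ≠ 0).card + n := by
    have h1 : (univ.filter fun x : ZMod p => ¬ f.eval x ≠ 0).card ≤ n := by
      have h2 : (univ.filter fun x : ZMod p => ¬ f.eval x ≠ 0) ⊆ f.roots.toFinset := by
        intro x hx
        simp only [mem_filter, mem_univ, true_and, not_not] at hx
        rw [Multiset.mem_toFinset, mem_roots hf0]
        exact hx
      refine (card_le_card h2).trans ((Multiset.toFinset_card_le _).trans ?_)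
      rw [← hfn]
      exact card_roots' f
    have h3 := Finset.card_filter_add_card_filter_not (s := (univ : Finset (ZMod p))) (fun x => f.eval x ≠ 0)
    rw [Finset.card_univ, ZMod.card] at h3
    omega
  have hlow : (univ.filter fun x : ZMod p => f.eval x ≠ 0).card * l ≤ ∑ x : ZMod p, R.rootMultiplicity x := by
    calc (univ.filter fun x : ZMod p => f.eval x ≠ 0).card * l
        = ∑ x ∈ univ.filter fun x : ZMod p => f.eval x ≠ 0, l := by rw [Finset.sum_const, smul_eq_mul]
      _ ≤ ∑ x ∈ univ.filter fun x : ZMod p => f.eval x ≠ 0, R.rootMultiplicity x := by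
          apply Finset.sum_le_sum
          intro x hx
          exact hmul x (mem_filter.1 hx).2
      _ ≤ _ := Finset.sum_le_sum_of_subset (filter_subset _ _)
  set T : ℕ := (univ.filter fun x : ZMod p => f.eval x ≠ 0).card with hTdef
  have hfinal : T * l ≤ n * (l + e) + d + p * (J - 1) := (hlow.trans hcount).trans hRdeg
  have hJ1 : J - 1 = 2 * n + 2 := by omega
  rw [hJ1] at hfinal
  have h2e : 2 * e ≤ p := by omega
  have hTl : p * l ≤ T * l + n * l := by
    have := Nat.mul_le_mul_right l hT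
    rwa [Nat.add_mul] at this
  have h9 : 2 * (p * l) ≤ 4 * (n * l) + n * p + p + 2 * (p * (2 * n + 2)) := by
    have h10 : n * (l + e) = n * l + n * e := by ring
    have h11 : 2 * (n * e) ≤ n * p := by
      calc 2 * (n * e) = n * (2 * e) := by ring
        _ ≤ n * p := Nat.mul_le_mul_left n h2e
    omega
  rw [hl] at h9
  nlinarith

theorem stepanov (n : ℕ) (hn : 1 ≤ n) : ∃ P0 : ℕ, ∀ (p : ℕ) [Fact p.Prime], P0 ≤ p → ∀ f : (ZMod p)[X], Squarefree f →
    f.natDegree = n → ∀ u : ZMod p, u ≠ 0 → ∃ x : ZMod p, f.eval x ≠ 0 ∧ IsSquare (u * f.eval x) := by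
  classical
  refine ⟨100 * (n + 1) ^ 3, fun p _ hP f hf hfn u hu => ?_⟩
  by_contra hcon
  push Not at hcon
  have hf0 : f ≠ 0 := hf.ne_zero
  have hcub : (n + 1) ^ 3 = n ^ 3 + 3 * n ^ 2 + 3 * n + 1 := by ring
  have hpn : 100 * n + 100 ≤ p := by
    rw [hcub] at hP
    have : 0 ≤ n ^ 3 := Nat.zero_le _
    omega
  have hp2 : p ≠ 2 := by omega
  have hpodd : p / 2 = (p - 1) / 2 := by
    rcases (Fact.out : p.Prime).eq_two_or_odd with h | h
    · omega
    · omega
  -- the constant value
  have hval : ∀ x : ZMod p, f.eval x ≠ 0 → (f.eval x) ^ ((p - 1) / 2) = -(u ^ ((p - 1) / 2))⁻¹ := by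
    intro x hx
    have h1 : u * f.eval x ≠ 0 := mul_ne_zero hu hx
    have h2 : (u * f.eval x) ^ (p / 2) = -1 := by
      rcases ZMod.pow_div_two_eq_neg_one_or_one p h1 with h3 | h3
      · exact absurd ((ZMod.euler_criterion p h1).2 h3) (hcon x hx)
      · exact h3
    rw [hpodd, mul_pow] at h2
    have h3 : u ^ ((p - 1) / 2) ≠ 0 := pow_ne_zero _ hu
    field_simp
    rw [mul_comm]
    exact h2
  -- shift
  obtain ⟨a, ha⟩ : ∃ a : ZMod p, f.eval a ≠ 0 := by
    by_contra hall
    push Not at hall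
    have h1 : (univ : Finset (ZMod p)) ⊆ f.roots.toFinset := by
      intro x _
      rw [Multiset.mem_toFinset, mem_roots hf0]
      exact hall x
    have h2 := (card_le_card h1).trans ((Multiset.toFinset_card_le _).trans (card_roots' f))
    rw [Finset.card_univ, ZMod.card] at h2
    omega
  set f' : (ZMod p)[X] := f.comp (X + C a) with hf'
  have hev : ∀ x, f'.eval x = f.eval (x + a) := by
    intro x
    rw [hf', eval_comp]
    simp
  have hsq' : Squarefree f' := by
    intro y hy
    have h1 : (algEquivAevalXAddC a) f = f' := by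
      rw [hf', algEquivAevalXAddC_apply, aeval_def, comp, algebraMap_eq]
    rw [← h1] at hy
    obtain ⟨z, hz⟩ := hy
    have h2 : (algEquivAevalXAddC a).symm y * (algEquivAevalXAddC a).symm y ∣ f := by
      refine ⟨(algEquivAevalXAddC a).symm z, ?_⟩
      rw [← map_mul, ← map_mul, ← hz, AlgEquiv.symm_apply_apply]
    have h3 := hf _ h2
    have h4 := h3.map (algEquivAevalXAddC a)
    rwa [AlgEquiv.apply_symm_apply] at h4
  have hdeg' : f'.natDegree = n := by
    rw [hf', natDegree_comp, natDegree_X_add_C, mul_one, hfn]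
  exact elstep_core n hn p hP f' hsq' hdeg' (by rw [hev, zero_add]; exact ha) (-(u ^ ((p - 1) / 2))⁻¹)
    (fun x hx => by rw [hev] at hx ⊢; exact hval _ hx)

end EL
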