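import Pool.Agent.Lib.MP_10e784_ag.EL.ELDefs
import Pool.Agent.Lib.MP_10e784_ag.TW.TWLev
import Pool.Agent.Lib.MP_10e784_ag.TW.TWRtLow
import Pool.Agent.Lib.MP_10e784_ag.TW.TWW

/-! JOB ELW.  The sum of the sieve densities over all ranges, relative version (adapt `TW/TWW.lean`, `W_bounds`, and its private lemmas).

Let `L = j i₀` (the largest `j i`), `Λ = log (lam K L) = (log L) / K`, `N = ∑ natDegree`, `s = Fintype.card ι ≥ 1`, `K = 16 n (s + 1)` (`n ≥ 1` from `hS.npos`), `Q l = {p prime, p ∤ M, p ≤ zz K L (l - 1)}` for `l ≥ 1`, `Q 0 = ∅`.  The ranges `Pk k`, `k < l`, partition `Q l` (`tww_part`).  `log log (zz K L (l-1)) = (l - 1/2) Λ`.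
For `p ∈ Pk k`: `rts g (I k) p = ∑_{i : k + 1 ≤ lv (j i)} rt (g i) p`, so `∑_{k < K} ∑_{p ∈ Pk k} rts g (I k) p / p = ∑_i ∑_{p ∈ Q (lv (j i))} rt (g i) p / p`.
 (1) `TW.rt_low`: `∑_{p ∈ Q l} rt (g i) p / p ≥ (l - 1/2) Λ - C` for `l ≥ 1`;  (2) `∑_{p ∈ Q K} ind (RP g) p / p ≤ TT g (zz K L (K-1)) ≤ TT g (exp L)` (all terms are nonnegative; `zz K L (K - 1) = exp (lam ^ (K - 1/2)) ≤ exp (lam ^ K) = exp L` as `lam ≥ 1`, `lam ^ K = L`);  (3) `hS.lower`: `∑_{p ∈ Q K} ind S p / p ≥ (1/n) (K - 1/2) Λ - C`;  `∑_p C1 / p ^ 2 ≤ 2 C1`.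
For EVERY index `i` (also `i₀`), `l = lv (j i)`: if `l = 0` then `j i < λ`, so `0 ≥ log (1 + j i) - Λ - log 2`; if `1 ≤ l < K`: `j i < λ ^ (l + 1)`, so `(l - 1/2) Λ ≥ log (1 + j i) - log 2 - (3/2) Λ`; if `l = K`: `j i ≤ L = λ ^ K`, `(K - 1/2) Λ ≥ log (1 + j i) - log 2 - (1/2) Λ`.
Total: `W ≥ ∑_i log (1 + j i) - (3/2) s Λ + (K - 1/2) Λ / (4 n) - TT g (exp L) - C ≥ ∑_i log (1 + j i) + K Λ / (8 n) - TT g (exp L) - C` by the choice of `K`, and `K Λ = log L ≥ log (1 + L) - log 2`.  So `δ = 1 / (8 n)`.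
Upper bound: `W ≤ N ∑_{p ∈ Q K} 1/p ≤ N (K - 1/2) Λ + C ≤ N log L + C` as in `TWW`. -/

namespace EL

open Polynomial Finset TW

/-- the primes up to `x` not dividing `M` -/
noncomputable def elw_Q (M : ℕ) (x : ℝ) : Finset ℕ := (Icc 1 ⌊x⌋₊).filter fun p => p.Prime ∧ ¬ p ∣ M

private theorem elw_lam_one (K : ℕ) (L : ℝ) (hL : 1 ≤ L) : 1 ≤ lam K L :=
  Real.one_le_rpow hL (by positivity)

private theorem elw_log_lam (K : ℕ) (L : ℝ) (hL : 1 ≤ L) : Real.log (lam K L) = Real.log L / K := by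
  unfold lam
  rw [Real.log_rpow (by linarith)]
  ring

private theorem elw_zz_mono (K : ℕ) (L : ℝ) (hL : 1 ≤ L) (k k' : ℕ) (h : k ≤ k') : zz K L k ≤ zz K L k' := by
  unfold zz
  apply Real.exp_le_exp.mpr
  apply Real.rpow_le_rpow_of_exponent_le (elw_lam_one K L hL)
  have : (k : ℝ) ≤ k' := by exact_mod_cast h
  linarith

private theorem elw_zz_two (K : ℕ) (L : ℝ) (hL : 1 ≤ L) (k : ℕ) : 2 ≤ zz K L k := by
  unfold zz
  have h1 : (1 : ℝ) ≤ lam K L ^ ((k : ℝ) + 1 / 2) := Real.one_le_rpow (elw_lam_one K L hL) (by positivity)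
  have h2 := Real.add_one_le_exp (lam K L ^ ((k : ℝ) + 1 / 2))
  linarith

private theorem elw_loglog (K : ℕ) (L : ℝ) (hL : 1 ≤ L) (k : ℕ) :
    Real.log (Real.log (zz K L k)) = ((k : ℝ) + 1 / 2) * (Real.log L / K) := by
  unfold zz
  rw [Real.log_exp, Real.log_rpow (by linarith [elw_lam_one K L hL]), elw_log_lam K L hL]

private theorem elw_part (M K : ℕ) (L : ℝ) (hL : 1 ≤ L) (a : ℕ → ℝ) (l : ℕ) :
    ∑ k ∈ range (l + 1), ∑ p ∈ Pk M K L k, a p = ∑ p ∈ elw_Q M (zz K L l), a p := by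
  induction l with
  | zero =>
    rw [zero_add, Finset.sum_range_one]
    apply Finset.sum_congr _ (fun _ _ => rfl)
    ext p
    simp [Pk, elw_Q]
  | succ l ih =>
    rw [Finset.sum_range_succ, ih, ← Finset.sum_union]
    · apply Finset.sum_congr _ (fun _ _ => rfl)
      ext p
      have h0 : (0 : ℝ) ≤ zz K L l := by linarith [elw_zz_two K L hL l]
      have h1 : (0 : ℝ) ≤ zz K L (l + 1) := by linarith [elw_zz_two K L hL (l + 1)]
      have h2 := elw_zz_mono K L hL l (l + 1) (by omega)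
      simp only [Pk, elw_Q, Finset.mem_union, Finset.mem_filter, Finset.mem_Icc, Nat.le_floor_iff h0,
        Nat.le_floor_iff h1, Nat.add_sub_cancel]
      constructor
      · rintro (⟨⟨h3, h4⟩, h5⟩ | ⟨⟨h3, h4⟩, h5⟩)
        · exact ⟨⟨h3, h4.trans h2⟩, h5⟩
        · exact ⟨⟨h3, h4⟩, h5.1, h5.2.1⟩
      · rintro ⟨⟨h3, h4⟩, h5⟩
        rcases le_or_gt (p : ℝ) (zz K L l) with h6 | h6
        · exact Or.inl ⟨⟨h3, h6⟩, h5⟩
        · exact Or.inr ⟨⟨h3, h4⟩, h5.1, h5.2, Or.inr h6⟩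
    · rw [Finset.disjoint_left]
      intro p hp hp2
      have h0 : (0 : ℝ) ≤ zz K L l := by linarith [elw_zz_two K L hL l]
      simp only [Pk, elw_Q, Finset.mem_filter, Finset.mem_Icc, Nat.le_floor_iff h0, Nat.add_sub_cancel] at hp hp2
      rcases hp2.2.2.2 with h | h
      · omega
      · linarith [hp.1.2]

private theorem elw_up (M : ℕ) (a : ℕ → ℝ) (ha : ∀ p : ℕ, p.Prime → 0 ≤ a p) (x : ℝ) :
    ∑ p ∈ elw_Q M x, a p / p ≤ PT.PS a x := by
  unfold elw_Q PT.PS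
  apply Finset.sum_le_sum_of_subset_of_nonneg
  · intro p hp
    simp only [Finset.mem_filter] at hp ⊢
    exact ⟨hp.1, hp.2.1⟩
  · intro p hp _
    simp only [Finset.mem_filter] at hp
    exact div_nonneg (ha p hp.2) (by positivity)

private theorem elw_down (M : ℕ) (hM : M ≠ 0) (a : ℕ → ℝ) (A : ℝ) (ha : ∀ p : ℕ, p.Prime → 0 ≤ a p)
    (hA : ∀ p : ℕ, p.Prime → a p ≤ A) (x : ℝ) :
    PT.PS a x - A * M ≤ ∑ p ∈ elw_Q M x, a p / p := by
  have hA0 : 0 ≤ A := (ha 2 Nat.prime_two).trans (hA 2 Nat.prime_two)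
  have h1 : PT.PS a x = ∑ p ∈ ((Icc 1 ⌊x⌋₊).filter Nat.Prime).filter (fun p => p ∣ M), a p / p +
      ∑ p ∈ ((Icc 1 ⌊x⌋₊).filter Nat.Prime).filter (fun p => ¬ p ∣ M), a p / p := by
    unfold PT.PS
    rw [Finset.sum_filter_add_sum_filter_not]
  have h2 : ((Icc 1 ⌊x⌋₊).filter Nat.Prime).filter (fun p => ¬ p ∣ M) = elw_Q M x := by
    ext p
    simp [elw_Q, and_assoc]
  have h3 : ∑ p ∈ ((Icc 1 ⌊x⌋₊).filter Nat.Prime).filter (fun p => p ∣ M), a p / p ≤ A * M := by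
    have h4 : ∀ p ∈ ((Icc 1 ⌊x⌋₊).filter Nat.Prime).filter (fun p => p ∣ M), a p / p ≤ A := by
      intro p hp
      simp only [Finset.mem_filter] at hp
      have h5 : (1 : ℝ) ≤ p := by exact_mod_cast hp.1.2.one_lt.le
      rw [div_le_iff₀ (by linarith)]
      nlinarith [hA p hp.1.2]
    have h6 := Finset.sum_le_card_nsmul _ _ _ h4
    rw [nsmul_eq_mul] at h6
    have h7 : (((Icc 1 ⌊x⌋₊).filter Nat.Prime).filter (fun p => p ∣ M)).card ≤ M := by
      calc (((Icc 1 ⌊x⌋₊).filter Nat.Prime).filter (fun p => p ∣ M)).card ≤ (Icc 1 M).card := by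
            apply Finset.card_le_card
            intro p hp
            simp only [Finset.mem_filter, Finset.mem_Icc] at hp ⊢
            exact ⟨hp.1.1.1, Nat.le_of_dvd (Nat.pos_of_ne_zero hM) hp.2⟩
        _ = M := by simp
    have h8 : ((((Icc 1 ⌊x⌋₊).filter Nat.Prime).filter (fun p => p ∣ M)).card : ℝ) ≤ M := by exact_mod_cast h7
    nlinarith
  rw [h1, h2]
  linarith

private theorem elw_sq (M : ℕ) (x C1 : ℝ) (hC1 : 0 ≤ C1) : ∑ p ∈ elw_Q M x, C1 / (p : ℝ) ^ 2 ≤ 2 * C1 := by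
  have h1 := sum_Ioo_inv_sq_le (α := ℝ) 0 (⌊x⌋₊ + 1)
  have h2 : ∑ p ∈ elw_Q M x, ((p : ℝ) ^ 2)⁻¹ ≤ ∑ i ∈ Ioo 0 (⌊x⌋₊ + 1), ((i : ℝ) ^ 2)⁻¹ := by
    apply Finset.sum_le_sum_of_subset_of_nonneg
    · intro p hp
      simp only [elw_Q, Finset.mem_filter, Finset.mem_Icc] at hp
      simp only [Finset.mem_Ioo]
      omega
    · intro p _ _
      positivity
  have h3 : ∑ p ∈ elw_Q M x, C1 / (p : ℝ) ^ 2 = C1 * ∑ p ∈ elw_Q M x, ((p : ℝ) ^ 2)⁻¹ := by
    rw [Finset.mul_sum]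
    exact Finset.sum_congr rfl fun p _ => by rw [div_eq_mul_inv]
  rw [h3]
  have h4 : ∑ p ∈ elw_Q M x, ((p : ℝ) ^ 2)⁻¹ ≤ 2 := by
    refine h2.trans (h1.trans ?_)
    norm_num
  nlinarith

private theorem elw_rtX (p : ℕ) (hp : p.Prime) : PT.rt (X : ℤ[X]) p = 1 := by
  have : Fact p.Prime := ⟨hp⟩
  unfold PT.rt
  simp only [Polynomial.map_X, eval_X]
  rw [Nat.card_unique]

private theorem elw_one (M : ℕ) : ∃ C : ℝ, 0 ≤ C ∧ ∀ x : ℝ, 2 ≤ x →
    ∑ p ∈ elw_Q M x, (1 : ℝ) / p ≤ Real.log (Real.log x) + C := by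
  obtain ⟨C, hC⟩ := PT.rt_sum (X : ℤ[X]) (by rw [Polynomial.map_X]; exact irreducible_X)
  refine ⟨|C|, abs_nonneg C, fun x hx => ?_⟩
  have h1 := hC x hx
  have h2 := elw_up M (fun p => (PT.rt (X : ℤ[X]) p : ℝ)) (fun p _ => by positivity) x
  have h3 : ∑ p ∈ elw_Q M x, (1 : ℝ) / p = ∑ p ∈ elw_Q M x, (PT.rt (X : ℤ[X]) p : ℝ) / p := by
    refine Finset.sum_congr rfl fun p hp => ?_
    simp only [elw_Q, Finset.mem_filter] at hp
    rw [elw_rtX p hp.2.1]
    simp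
  rw [h3]
  linarith [le_abs_self C]

private theorem elw_low (M : ℕ) (hM : M ≠ 0) (g : ℤ[X]) (hm : g.Monic)
    (hirr : Irreducible (g.map (Int.castRingHom ℚ))) : ∃ C : ℝ, 0 ≤ C ∧ ∀ x : ℝ, 2 ≤ x →
    Real.log (Real.log x) - C ≤ ∑ p ∈ elw_Q M x, (PT.rt g p : ℝ) / p := by
  obtain ⟨C, hC⟩ := rt_low g hm hirr
  obtain ⟨A, hA⟩ := PT.rt_le g hm.ne_zero
  refine ⟨|C| + A * M, by positivity, fun x hx => ?_⟩
  have h1 := hC x hx
  have h2 := elw_down M hM (fun p => (PT.rt g p : ℝ)) A (fun p _ => by positivity)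
    (fun p hp => by exact_mod_cast hA p hp) x
  linarith [le_abs_self C]

private theorem elw_S {ι : Type} {g : ι → ℤ[X]} (S : Set ℕ) (n : ℕ) (hS : PT.Spl g S n) (M : ℕ) (hM : M ≠ 0) :
    ∃ C : ℝ, 0 ≤ C ∧ ∀ x : ℝ, 2 ≤ x →
    (1 / n : ℝ) * Real.log (Real.log x) - C ≤ ∑ p ∈ elw_Q M x, PT.ind S p / p := by
  obtain ⟨C, hC⟩ := hS.lower
  refine ⟨|C| + M, by positivity, fun x hx => ?_⟩
  have h1 := hC x hx
  have h2 := elw_down M hM (PT.ind S) 1 (fun p _ => by unfold PT.ind; split_ifs <;> norm_num)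
    (fun p hp => by unfold PT.ind; split_ifs <;> norm_num) x
  linarith [le_abs_self C]

/-- exchange of the sums -/
private theorem elw_exch {ι : Type} [Fintype ι] [DecidableEq ι] (g : ι → ℤ[X]) (M K : ℕ) (L : ℝ) (l : ι → ℕ)
    (hl : ∀ i, l i ≤ K) :
    ∑ k ∈ range K, ∑ p ∈ Pk M K L k, (rts g (univ.filter fun i => k + 1 ≤ l i) p : ℝ) / p =
      ∑ i, ∑ k ∈ range (l i), ∑ p ∈ Pk M K L k, (PT.rt (g i) p : ℝ) / p := by
  have h1 : ∀ k, ∑ p ∈ Pk M K L k, (rts g (univ.filter fun i => k + 1 ≤ l i) p : ℝ) / p =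
      ∑ i, if k < l i then ∑ p ∈ Pk M K L k, (PT.rt (g i) p : ℝ) / p else 0 := by
    intro k
    rw [← Finset.sum_filter]
    rw [Finset.sum_comm]
    refine Finset.sum_congr rfl fun p _ => ?_
    unfold rts
    rw [Nat.cast_sum, Finset.sum_div]
    rfl
  rw [Finset.sum_congr rfl fun k _ => h1 k, Finset.sum_comm]
  refine Finset.sum_congr rfl fun i _ => ?_
  rw [← Finset.sum_filter]
  apply Finset.sum_congr _ (fun _ _ => rfl)
  ext k
  simp only [Finset.mem_filter, Finset.mem_range]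
  have := hl i
  omega

private theorem elw_PS_mono (a : ℕ → ℝ) (ha : ∀ p : ℕ, p.Prime → 0 ≤ a p) (x y : ℝ) (h : x ≤ y) :
    PT.PS a x ≤ PT.PS a y := by
  unfold PT.PS
  apply Finset.sum_le_sum_of_subset_of_nonneg
  · intro p hp
    simp only [Finset.mem_filter, Finset.mem_Icc] at hp ⊢
    exact ⟨⟨hp.1.1, hp.1.2.trans (Nat.floor_le_floor h)⟩, hp.2⟩
  · intro p hp _
    simp only [Finset.mem_filter] at hp
    exact div_nonneg (ha p hp.2) (by positivity)

private theorem elw_lam_pow (K : ℕ) (hK : 0 < K) (L : ℝ) (hL : 1 ≤ L) : lam K L ^ (K : ℝ) = L := by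
  unfold lam
  rw [← Real.rpow_mul (by linarith)]
  have : (1 : ℝ) / K * (K : ℝ) = 1 := by
    have : (K : ℝ) ≠ 0 := by positivity
    field_simp
  rw [this, Real.rpow_one]

private theorem elw_zz_top (K K' : ℕ) (hK : K = K' + 1) (L : ℝ) (hL : 1 ≤ L) : zz K L K' ≤ Real.exp L := by
  unfold zz
  apply Real.exp_le_exp.mpr
  have h1 : lam K L ^ ((K' : ℝ) + 1 / 2) ≤ lam K L ^ (K : ℝ) := by
    apply Real.rpow_le_rpow_of_exponent_le (elw_lam_one K L hL)
    have : (K : ℝ) = K' + 1 := by rw [hK]; push_cast; ring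
    linarith
  rwa [elw_lam_pow K (by omega) L hL] at h1

private theorem elw_RP {ι : Type} [Fintype ι] (g : ι → ℤ[X]) (M K K' : ℕ) (hK : K = K' + 1) (L : ℝ) (hL : 1 ≤ L) :
    ∑ p ∈ elw_Q M (zz K L K'), PT.ind (RP g) p / p ≤ TT g (Real.exp L) := by
  have h0 : ∀ p : ℕ, p.Prime → 0 ≤ PT.ind (RP g) p := by
    intro p _
    unfold PT.ind
    split_ifs <;> norm_num
  refine (elw_up M (PT.ind (RP g)) h0 _).trans ?_
  unfold TT
  exact elw_PS_mono _ h0 _ _ (elw_zz_top K K' hK L hL)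

theorem W_rel {ι : Type} [Fintype ι] [DecidableEq ι] {g : ι → ℤ[X]} (hg : Fam g) (S : Set ℕ) (n : ℕ) (hS : PT.Spl g S n)
    (M : ℕ) (hM : M ≠ 0) (C1 : ℝ) (hC1 : 0 ≤ C1) :
    ∃ (K : ℕ) (δ C2 L0 : ℝ), 0 < K ∧ 0 < δ ∧ 0 ≤ C2 ∧ ∀ (j : ι → ℕ) (i₀ : ι), L0 ≤ j i₀ →
      (∀ i, j i ≤ j i₀) → ∀ ω : ℕ → ℝ,
      (∀ k < K, ∀ p ∈ Pk M K (j i₀) k,
        ((rts g (univ.filter fun i => k + 1 ≤ lv K (j i₀) (j i)) p : ℝ) - PT.ind (RP g) p + PT.ind S p / 4) / p -
          C1 / (p : ℝ) ^ 2 ≤ ω p ∧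
        ω p ≤ (∑ i, (g i).natDegree : ℕ) / (p : ℝ)) →
      (∑ i, Real.log (1 + j i)) + δ * Real.log (1 + j i₀) - TT g (Real.exp (j i₀)) - C2 ≤
        ∑ k ∈ range K, ∑ p ∈ Pk M K (j i₀) k, ω p ∧
      ∑ k ∈ range K, ∑ p ∈ Pk M K (j i₀) k, ω p ≤ (∑ i, (g i).natDegree : ℕ) * Real.log (j i₀) + C2 := by
  have hn : 1 ≤ n := hS.npos
  have hn' : (1 : ℝ) ≤ n := by exact_mod_cast hn
  obtain ⟨CX, hCX0, hCX⟩ := elw_one M
  obtain ⟨CS, hCS0, hCS⟩ := elw_S S n hS M hM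
  choose Cl hCl0 hCl using fun i => elw_low M hM (g i) (hg.monic i) (hg.irr i)
  set s : ℕ := Fintype.card ι with hs
  set N : ℕ := ∑ i, (g i).natDegree with hN
  have hA0 : 0 ≤ ∑ i, Cl i := Finset.sum_nonneg fun i _ => hCl0 i
  have hlog2 : 0 ≤ Real.log 2 := Real.log_nonneg (by norm_num)
  refine ⟨16 * n * (s + 1), 1 / (8 * n), (s + 1) * Real.log 2 + ∑ i, Cl i + CX + CS + 2 * C1 + N * CX, 1,
    by positivity, by positivity, by positivity, ?_⟩
  intro j i₀ hL hj ω hω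
  obtain ⟨L, hLdef⟩ : ∃ L : ℕ, j i₀ = L := ⟨_, rfl⟩
  rw [hLdef] at hL hω ⊢
  have hj1 : ∀ i, j i ≤ L := fun i => hLdef ▸ hj i
  set K : ℕ := 16 * n * (s + 1) with hKdef
  have hK : 0 < K := by positivity
  have hK1 : (1 : ℝ) ≤ K := by exact_mod_cast hK
  have hKr : (K : ℝ) = 16 * n * (s + 1) := by rw [hKdef]; push_cast; ring
  obtain ⟨K', hK'⟩ : ∃ K', K = K' + 1 := ⟨K - 1, by omega⟩
  set Λ : ℝ := Real.log L / K with hΛ
  have hlogL : 0 ≤ Real.log (L : ℝ) := Real.log_nonneg hL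
  have hΛ0 : 0 ≤ Λ := by positivity
  have hKΛ : (K : ℝ) * Λ = Real.log L := by rw [hΛ]; field_simp
  -- sums over all the ranges
  have hpart : ∀ a : ℕ → ℝ, ∑ k ∈ range K, ∑ p ∈ Pk M K L k, a p = ∑ p ∈ elw_Q M (zz K L K'), a p := by
    intro a
    have h := elw_part M K L hL a K'
    rwa [← hK'] at h
  have hx2 : ∀ k, 2 ≤ zz K L k := fun k => elw_zz_two K L hL k
  have hll : ∀ k : ℕ, Real.log (Real.log (zz K L k)) = ((k : ℝ) + 1 / 2) * Λ := fun k => elw_loglog K L hL k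
  have hK'r : (K' : ℝ) = K - 1 := by rw [hK']; push_cast; ring
  have hllK : Real.log (Real.log (zz K L K')) = ((K : ℝ) - 1 / 2) * Λ := by
    rw [hll, hK'r]; ring
  have hone : ∑ p ∈ elw_Q M (zz K L K'), (1 : ℝ) / p ≤ ((K : ℝ) - 1 / 2) * Λ + CX := by
    have := hCX _ (hx2 K')
    rwa [hllK] at this
  have hone' : ∑ p ∈ elw_Q M (zz K L K'), (1 : ℝ) / p ≤ Real.log L + CX := by
    have : ((K : ℝ) - 1 / 2) * Λ ≤ Real.log L := by
      rw [sub_mul, hKΛ]
      linarith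
    linarith
  have hsplit : (1 / n : ℝ) * (((K : ℝ) - 1 / 2) * Λ) - CS ≤ ∑ p ∈ elw_Q M (zz K L K'), PT.ind S p / p := by
    have := hCS _ (hx2 K')
    rwa [hllK] at this
  have hRP := elw_RP g M K K' hK' L hL
  have hsq := elw_sq M (zz K L K') C1 hC1
  refine ⟨?_, ?_⟩
  · -- lower bound
    have hlow : ∑ k ∈ range K, ∑ p ∈ Pk M K L k,
        (((rts g (univ.filter fun i => k + 1 ≤ lv K L (j i)) p : ℝ) - PT.ind (RP g) p + PT.ind S p / 4) / p -
          C1 / (p : ℝ) ^ 2) ≤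
        ∑ k ∈ range K, ∑ p ∈ Pk M K L k, ω p := by
      refine Finset.sum_le_sum fun k hk => Finset.sum_le_sum fun p hp => ?_
      exact (hω k (Finset.mem_range.mp hk) p hp).1
    have hdec : ∑ k ∈ range K, ∑ p ∈ Pk M K L k,
        (((rts g (univ.filter fun i => k + 1 ≤ lv K L (j i)) p : ℝ) - PT.ind (RP g) p + PT.ind S p / 4) / p -
          C1 / (p : ℝ) ^ 2) =
        ∑ k ∈ range K, ∑ p ∈ Pk M K L k, (rts g (univ.filter fun i => k + 1 ≤ lv K L (j i)) p : ℝ) / p -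
        ∑ k ∈ range K, ∑ p ∈ Pk M K L k, PT.ind (RP g) p / p +
        (1 / 4) * ∑ k ∈ range K, ∑ p ∈ Pk M K L k, PT.ind S p / p -
        ∑ k ∈ range K, ∑ p ∈ Pk M K L k, C1 / (p : ℝ) ^ 2 := by
      rw [← Finset.sum_sub_distrib, Finset.mul_sum, ← Finset.sum_add_distrib, ← Finset.sum_sub_distrib]
      refine Finset.sum_congr rfl fun k _ => ?_
      rw [← Finset.sum_sub_distrib, Finset.mul_sum, ← Finset.sum_add_distrib, ← Finset.sum_sub_distrib]
      refine Finset.sum_congr rfl fun p _ => ?_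
      ring
    rw [hdec, elw_exch g M K L (fun i => lv K L (j i)) (fun i => lv_le K L (j i)), hpart, hpart, hpart] at hlow
    -- every index
    have hi : ∀ i, Real.log (1 + j i) - Real.log 2 - 3 / 2 * Λ - Cl i ≤
        ∑ k ∈ range (lv K L (j i)), ∑ p ∈ Pk M K L k, (PT.rt (g i) p : ℝ) / p := by
      intro i
      have hlam1 : 1 ≤ lam K L := elw_lam_one K L hL
      have hloglam : Real.log (lam K L) = Λ := elw_log_lam K L hL
      have hle := lv_le K L (j i)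
      have hj0 : (0 : ℝ) ≤ (j i : ℝ) := by positivity
      rcases Nat.eq_zero_or_pos (lv K L (j i)) with h0 | h0
      · rw [h0, Finset.range_zero, Finset.sum_empty]
        have h1 : ¬ (0 + 1 ≤ lv K L (j i)) := by omega
        rw [lv_iff K hK L hL (j i) 0 hK] at h1
        have h2 : (j i : ℝ) < lam K L := by
          rw [not_le] at h1
          simpa using h1
        have h3 : Real.log (1 + j i) ≤ Real.log (2 * lam K L) := by
          apply Real.log_le_log (by positivity)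
          linarith
        rw [Real.log_mul (by norm_num) (by positivity), hloglam] at h3
        linarith [hCl0 i]
      · obtain ⟨l, hl⟩ : ∃ l, lv K L (j i) = l + 1 := ⟨lv K L (j i) - 1, by omega⟩
        rw [hl, elw_part M K L hL]
        have h4 := hCl i _ (hx2 l)
        rw [hll] at h4
        have h5 : Real.log (1 + j i) ≤ Real.log 2 + ((l : ℝ) + 2) * Λ := by
          rcases Nat.lt_or_ge (l + 1) K with h6 | h6
          · have h7 : ¬ (l + 1 + 1 ≤ lv K L (j i)) := by omega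
            rw [lv_iff K hK L hL (j i) (l + 1) h6, not_le] at h7
            have h8 : (1 : ℝ) ≤ lam K L ^ (l + 1 + 1) := one_le_pow₀ hlam1
            have h9 : Real.log (1 + j i) ≤ Real.log (2 * lam K L ^ (l + 1 + 1)) := by
              apply Real.log_le_log (by positivity)
              linarith
            rw [Real.log_mul (by norm_num) (by positivity), Real.log_pow, hloglam] at h9
            push_cast at h9
            linarith
          · have h7 : (j i : ℝ) ≤ L := by exact_mod_cast hj1 i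
            have h9 : Real.log (1 + j i) ≤ Real.log (2 * L) := by
              apply Real.log_le_log (by positivity)
              linarith
            rw [Real.log_mul (by norm_num) (by positivity)] at h9
            have h10 : (K : ℝ) ≤ l + 1 := by exact_mod_cast h6
            have h11 := mul_le_mul_of_nonneg_right h10 hΛ0
            rw [hKΛ] at h11
            have h12 : ((l : ℝ) + 2) * Λ = (l + 1) * Λ + Λ := by ring
            rw [h12]
            linarith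
        linarith
    have hsum : ∑ i, (Real.log (1 + j i) - Real.log 2 - 3 / 2 * Λ - Cl i) ≤
        ∑ i, ∑ k ∈ range (lv K L (j i)), ∑ p ∈ Pk M K L k, (PT.rt (g i) p : ℝ) / p :=
      Finset.sum_le_sum fun i _ => hi i
    have hcard : ((univ : Finset ι).card : ℝ) = s := by
      rw [hs, ← Finset.card_univ]
    have hexp : ∑ i, (Real.log (1 + j i) - Real.log 2 - 3 / 2 * Λ - Cl i) =
        ∑ i, Real.log (1 + j i) - (s : ℝ) * Real.log 2 - (s : ℝ) * (3 / 2 * Λ) - ∑ i, Cl i := by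
      rw [Finset.sum_sub_distrib, Finset.sum_sub_distrib, Finset.sum_sub_distrib, Finset.sum_const, Finset.sum_const,
        nsmul_eq_mul, nsmul_eq_mul, hcard]
    set E : ℝ := ∑ i, Real.log (1 + j i) with hEdef
    have hδ : 1 / (8 * n) * Real.log (1 + L) ≤ 1 / (8 * n) * Real.log L + Real.log 2 := by
      have h9 : Real.log (1 + L) ≤ Real.log (2 * L) := by
        apply Real.log_le_log (by positivity)
        linarith
      rw [Real.log_mul (by norm_num) (by positivity)] at h9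
      have h6 : (1 / (8 * n) : ℝ) ≤ 1 := by
        rw [div_le_one (by positivity)]
        linarith
      have h7 : (0 : ℝ) ≤ 1 / (8 * n) := by positivity
      have h8 := mul_le_mul_of_nonneg_left h9 h7
      have h10 := mul_le_of_le_one_left hlog2 h6
      rw [mul_add] at h8
      linarith
    have hgain : 1 / (8 * n) * Real.log L + s * (3 / 2 * Λ) ≤ 1 / 4 * ((1 / n) * (((K : ℝ) - 1 / 2) * Λ)) := by
      rw [← hKΛ, hKr]
      have h1 : 1 / 4 * ((1 / n) * (((16 * n * (s + 1) : ℝ) - 1 / 2) * Λ)) =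
          (4 * (s + 1) - 1 / (8 * n)) * Λ := by
        field_simp
        ring
      have h2 : 1 / (8 * n) * ((16 * n * (s + 1) : ℝ) * Λ) = 2 * (s + 1) * Λ := by
        field_simp
        ring
      rw [h1, h2]
      have h3 : (1 / (8 * n) : ℝ) ≤ 1 := by
        rw [div_le_one (by positivity)]
        linarith
      have h4 : 0 ≤ Λ * (1 / 2 * s + 2 - 1 / (8 * n)) := mul_nonneg hΛ0 (by linarith [(Nat.cast_nonneg s : (0:ℝ) ≤ s)])
      have h5 : (4 * ((s : ℝ) + 1) - 1 / (8 * n)) * Λ - (2 * (s + 1) * Λ + s * (3 / 2 * Λ)) =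
          Λ * (1 / 2 * s + 2 - 1 / (8 * n)) := by ring
      linarith
    have hNCX : 0 ≤ (N : ℝ) * CX := by positivity
    linarith
  · -- upper bound
    have h1 : ∑ k ∈ range K, ∑ p ∈ Pk M K L k, ω p ≤ ∑ k ∈ range K, ∑ p ∈ Pk M K L k, (N : ℝ) / p := by
      refine Finset.sum_le_sum fun k hk => Finset.sum_le_sum fun p hp => ?_
      exact (hω k (Finset.mem_range.mp hk) p hp).2
    rw [hpart (fun p => (N : ℝ) / p)] at h1
    have h2 : ∑ p ∈ elw_Q M (zz K L K'), (N : ℝ) / p = N * ∑ p ∈ elw_Q M (zz K L K'), (1 : ℝ) / p := by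
      rw [Finset.mul_sum]
      exact Finset.sum_congr rfl fun p _ => by ring
    rw [h2] at h1
    have h3 : (N : ℝ) * ∑ p ∈ elw_Q M (zz K L K'), (1 : ℝ) / p ≤ N * (Real.log L + CX) :=
      mul_le_mul_of_nonneg_left hone' (by positivity)
    have h4 : 0 ≤ ((s : ℝ) + 1) * Real.log 2 := by positivity
    rw [mul_add] at h3
    linarith

end EL
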